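import Pool.Agent.Q50.LI.Trc
import Pool.Agent.W516.MT.Casimir2

/-!
# Extension of the coefficients

Let `K` be an extension of the field `F`, and let `a : V → V'` identify the vector space `V'` over
`K` with the extension of the coefficients of the vector space `V` over `F`.
-/

set_option linter.unusedSectionVars false

namespace Pool.Agent.Q50.LI

open Module Pool.Agent.Q50.FP Pool.Agent.W516.KC Pool.Agent.W516.KC2 Pool.Agent.H204R3.SP

noncomputable section

variable {F K V V' : Type*} [Field F] [CharZero F] [Field K] [CharZero K] [Algebra F K] [AddCommGroup V] [Module F V]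
  [FiniteDimensional F V] [AddCommGroup V'] [Module K V'] [FiniteDimensional K V']

/-- The map `a` is an extension of the coefficients, and `ext` is the extension of the
endomorphisms. -/
structure Bc (a : V → V') (ext : Module.End F V → Module.End K V') : Prop where
  bas : ∀ {n : ℕ} (b : Basis (Fin n) F V), ∃ b' : Basis (Fin n) K V', ∀ x i,
    b'.repr (a x) i = algebraMap F K (b.repr x i)
  ap : ∀ y x, ext y (a x) = a (y x)

variable {a : V → V'} {ext : Module.End F V → Module.End K V'} (h : Bc a ext)

namespace Bc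

include h in
/-- The basis of `V'`. -/
theorem exists_bas : ∃ b' : Basis (Fin (finrank F V)) K V', ∀ x i,
    b'.repr (a x) i = algebraMap F K ((finBasis F V).repr x i) := h.bas _

/-- The basis of `V'`. -/
def b' : Basis (Fin (finrank F V)) K V' := h.exists_bas.choose

theorem b'_repr (x : V) (i) : h.b'.repr (a x) i = algebraMap F K ((finBasis F V).repr x i) :=
  h.exists_bas.choose_spec x i

theorem b'_eq (i) : h.b' i = a (finBasis F V i) := by
  apply h.b'.repr.injective
  ext j
  rw [h.b'_repr, Basis.repr_self, Basis.repr_self]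
  by_cases hij : i = j
  · subst hij
    rw [Finsupp.single_eq_same, Finsupp.single_eq_same, map_one]
  · rw [Finsupp.single_eq_of_ne (Ne.symm hij), Finsupp.single_eq_of_ne (Ne.symm hij), map_zero]

include h in
theorem a_add (x y : V) : a (x + y) = a x + a y := by
  apply h.b'.repr.injective
  ext j
  rw [map_add, Finsupp.add_apply, h.b'_repr, h.b'_repr, h.b'_repr, map_add, Finsupp.add_apply,
    map_add]

include h in
theorem a_smul (r : F) (x : V) : a (r • x) = algebraMap F K r • a x := by
  apply h.b'.repr.injective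
  ext j
  rw [map_smul, Finsupp.smul_apply, h.b'_repr, h.b'_repr, map_smul, Finsupp.smul_apply,
    smul_eq_mul, smul_eq_mul, map_mul]

include h in
theorem a_zero : a 0 = 0 := by
  have h1 := h.a_smul 0 0
  rwa [zero_smul, map_zero, zero_smul] at h1

include h in
theorem a_sub (x y : V) : a (x - y) = a x - a y := by
  rw [eq_sub_iff_add_eq, ← h.a_add, sub_add_cancel]

include h in
theorem ind {p : V' → Prop} (hs : ∀ (l : K) (x : V), p (l • a x))
    (hadd : ∀ x y, p x → p y → p (x + y)) (w : V') : p w := by
  have h1 : ∀ s : Finset (Fin (finrank F V)), p (∑ i ∈ s, h.b'.repr w i • h.b' i) := by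
    intro s
    induction s using Finset.induction_on with
    | empty =>
      have h2 := hs 0 0
      rw [zero_smul] at h2
      rwa [Finset.sum_empty]
    | insert i s hi ih =>
      rw [Finset.sum_insert hi]
      refine hadd _ _ ?_ ih
      rw [h.b'_eq]
      exact hs _ _
  have h2 := h1 Finset.univ
  rwa [h.b'.sum_repr] at h2

include h in
theorem lin_ext {M : Type*} [AddCommGroup M] [Module K M] {f g : V' →ₗ[K] M}
    (hfg : ∀ x, f (a x) = g (a x)) : f = g := by
  refine LinearMap.ext fun w => ?_
  refine h.ind (p := fun w => f w = g w) (fun l x => ?_) (fun x y hx hy => ?_) w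
  · rw [map_smul, map_smul, hfg]
  · rw [map_add, map_add, hx, hy]

include h in
theorem ext_add (y z : Module.End F V) : ext (y + z) = ext y + ext z := by
  apply h.lin_ext
  intro x
  rw [h.ap, LinearMap.add_apply, LinearMap.add_apply, h.ap, h.ap, h.a_add]

include h in
theorem ext_smul (r : F) (y : Module.End F V) : ext (r • y) = algebraMap F K r • ext y := by
  apply h.lin_ext
  intro x
  rw [h.ap, LinearMap.smul_apply, LinearMap.smul_apply, h.ap, h.a_smul]

include h in
theorem ext_mul (y z : Module.End F V) : ext (y * z) = ext y * ext z := by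
  apply h.lin_ext
  intro x
  rw [h.ap, Module.End.mul_apply, Module.End.mul_apply, h.ap, h.ap]

include h in
theorem ext_one : ext 1 = 1 := by
  apply h.lin_ext
  intro x
  rw [h.ap, Module.End.one_apply, Module.End.one_apply]

include h in
theorem ext_zero : ext 0 = 0 := by
  apply h.lin_ext
  intro x
  rw [h.ap, LinearMap.zero_apply, LinearMap.zero_apply, h.a_zero]

include h in
theorem ext_sub (y z : Module.End F V) : ext (y - z) = ext y - ext z := by
  rw [eq_sub_iff_add_eq, ← h.ext_add, sub_add_cancel]

include h in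
theorem ext_pow (y : Module.End F V) (n : ℕ) : ext (y ^ n) = ext y ^ n := by
  induction n with
  | zero => rw [pow_zero, pow_zero, h.ext_one]
  | succ n ih => rw [pow_succ, pow_succ, h.ext_mul, ih]

include h in
theorem ext_trace (y : Module.End F V) :
    LinearMap.trace K V' (ext y) = algebraMap F K (LinearMap.trace F V y) := by
  classical
  rw [LinearMap.trace_eq_matrix_trace F (finBasis F V), LinearMap.trace_eq_matrix_trace K h.b',
    Matrix.trace, Matrix.trace, map_sum]
  refine Finset.sum_congr rfl fun i _ => ?_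
  rw [Matrix.diag_apply, Matrix.diag_apply, LinearMap.toMatrix_apply, LinearMap.toMatrix_apply,
    h.b'_eq, h.ap, h.b'_repr]

/-! ### Components -/

/-- The component of a vector. -/
def vc (ν : K →ₗ[F] F) (w : V') : V := ∑ i, ν (h.b'.repr w i) • finBasis F V i

theorem vc_add (ν : K →ₗ[F] F) (w w' : V') : h.vc ν (w + w') = h.vc ν w + h.vc ν w' := by
  rw [vc, vc, vc, ← Finset.sum_add_distrib]
  refine Finset.sum_congr rfl fun i _ => ?_
  rw [map_add, Finsupp.add_apply, map_add, add_smul]

theorem vc_smul_a (ν : K →ₗ[F] F) (l : K) (x : V) : h.vc ν (l • a x) = ν l • x := by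
  rw [vc]
  conv_rhs => rw [← (finBasis F V).sum_repr x, Finset.smul_sum]
  refine Finset.sum_congr rfl fun i _ => ?_
  rw [map_smul, Finsupp.smul_apply, h.b'_repr, smul_eq_mul, mul_comm, ← Algebra.smul_def, map_smul,
    smul_eq_mul, smul_smul, mul_comm]

theorem vc_a (ν : K →ₗ[F] F) (x : V) : h.vc ν (a x) = ν 1 • x := by
  rw [← h.vc_smul_a, one_smul]

theorem vc_smul (ν : K →ₗ[F] F) (r : F) (w : V') :
    h.vc ν (algebraMap F K r • w) = r • h.vc ν w := by
  rw [vc, vc, Finset.smul_sum]
  refine Finset.sum_congr rfl fun i _ => ?_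
  rw [map_smul, Finsupp.smul_apply, smul_eq_mul, ← Algebra.smul_def, map_smul, smul_smul,
    smul_eq_mul]

theorem vc_ext (ν : K →ₗ[F] F) (y : Module.End F V) (w : V') :
    h.vc ν (ext y w) = y (h.vc ν w) := by
  refine h.ind (p := fun w => h.vc ν (ext y w) = y (h.vc ν w)) (fun l x => ?_)
    (fun x z hx hz => ?_) w
  · rw [map_smul, h.ap, h.vc_smul_a, h.vc_smul_a, map_smul]
  · rw [map_add, h.vc_add, hx, hz, h.vc_add, map_add]

/-- The component of an endomorphism. -/
def cm (ν : K →ₗ[F] F) (z : Module.End K V') : Module.End F V where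
  toFun x := h.vc ν (z (a x))
  map_add' x y := by rw [h.a_add, map_add, h.vc_add]
  map_smul' r x := by
    rw [h.a_smul, map_smul, h.vc_smul]
    rfl

theorem cm_apply (ν : K →ₗ[F] F) (z : Module.End K V') (x : V) :
    h.cm ν z x = h.vc ν (z (a x)) := rfl

theorem cm_add (ν : K →ₗ[F] F) (z z' : Module.End K V') :
    h.cm ν (z + z') = h.cm ν z + h.cm ν z' := by
  refine LinearMap.ext fun x => ?_
  rw [LinearMap.add_apply, cm_apply, cm_apply, cm_apply, LinearMap.add_apply, h.vc_add]

theorem cm_zero (ν : K →ₗ[F] F) : h.cm ν 0 = 0 := by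
  have h1 := h.cm_add ν 0 0
  rw [add_zero] at h1
  exact left_eq_add.1 h1

theorem cm_sub (ν : K →ₗ[F] F) (z z' : Module.End K V') :
    h.cm ν (z - z') = h.cm ν z - h.cm ν z' := by
  rw [eq_sub_iff_add_eq, ← h.cm_add, sub_add_cancel]

theorem cm_sum (ν : K →ₗ[F] F) {ι : Type*} (s : Finset ι) (z : ι → Module.End K V') :
    h.cm ν (∑ i ∈ s, z i) = ∑ i ∈ s, h.cm ν (z i) := by
  classical
  induction s using Finset.induction_on with
  | empty => rw [Finset.sum_empty, Finset.sum_empty, h.cm_zero]
  | insert i s hi ih => rw [Finset.sum_insert hi, Finset.sum_insert hi, h.cm_add, ih]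

theorem cm_smul_ext (ν : K →ₗ[F] F) (l : K) (y : Module.End F V) :
    h.cm ν (l • ext y) = ν l • y := by
  refine LinearMap.ext fun x => ?_
  rw [cm_apply, LinearMap.smul_apply, h.ap, h.vc_smul_a, LinearMap.smul_apply]

theorem cm_ext (ν : K →ₗ[F] F) (y : Module.End F V) : h.cm ν (ext y) = ν 1 • y := by
  rw [← h.cm_smul_ext, one_smul]

theorem cm_mul_ext (ν : K →ₗ[F] F) (z : Module.End K V') (y : Module.End F V) :
    h.cm ν (z * ext y) = h.cm ν z * y := by
  refine LinearMap.ext fun x => ?_
  rw [cm_apply, Module.End.mul_apply, h.ap, Module.End.mul_apply, cm_apply]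

theorem cm_ext_mul (ν : K →ₗ[F] F) (z : Module.End K V') (y : Module.End F V) :
    h.cm ν (ext y * z) = y * h.cm ν z := by
  refine LinearMap.ext fun x => ?_
  rw [cm_apply, Module.End.mul_apply, h.vc_ext, Module.End.mul_apply, cm_apply]

theorem cm_smul (ν : K →ₗ[F] F) (l : K) (z : Module.End K V') :
    h.cm ν (l • z) = h.cm (ν ∘ₗ LinearMap.mulLeft F l) z := by
  refine LinearMap.ext fun x => ?_
  rw [cm_apply, cm_apply, LinearMap.smul_apply]
  refine h.ind (p := fun w => h.vc ν (l • w) = h.vc (ν ∘ₗ LinearMap.mulLeft F l) w)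
    (fun l' x => ?_) (fun x z hx hz => ?_) _
  · rw [smul_smul, h.vc_smul_a, h.vc_smul_a]
    rfl
  · rw [smul_add, h.vc_add, hx, hz, h.vc_add]

theorem trace_cm (ν : K →ₗ[F] F) (z : Module.End K V') :
    LinearMap.trace F V (h.cm ν z) = ν (LinearMap.trace K V' z) := by
  classical
  rw [LinearMap.trace_eq_matrix_trace F (finBasis F V), LinearMap.trace_eq_matrix_trace K h.b',
    Matrix.trace, Matrix.trace, map_sum]
  refine Finset.sum_congr rfl fun i _ => ?_
  rw [Matrix.diag_apply, Matrix.diag_apply, LinearMap.toMatrix_apply, LinearMap.toMatrix_apply,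
    cm_apply, h.b'_eq, vc, map_sum, Finsupp.finsetSum_apply, Finset.sum_eq_single i]
  · rw [map_smul, Finsupp.smul_apply, Basis.repr_self, Finsupp.single_eq_same, smul_eq_mul,
      mul_one]
  · intro j _ hj
    rw [map_smul, Finsupp.smul_apply, Basis.repr_self, Finsupp.single_eq_of_ne (Ne.symm hj),
      smul_zero]
  · intro h1
    exact absurd (Finset.mem_univ _) h1

/-- The decomposition of an endomorphism. -/
theorem exists_decomp (z : Module.End K V') :
    ∃ s : Finset (Basis.ofVectorSpaceIndex F K), ∀ t, s ⊆ t →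
      z = ∑ i ∈ t, (Basis.ofVectorSpace F K i) •
        ext (h.cm ((Basis.ofVectorSpace F K).coord i) z) := by
  classical
  set β := Basis.ofVectorSpace F K
  -- vectors
  have h1 : ∀ w : V', ∃ s : Finset (Basis.ofVectorSpaceIndex F K), ∀ t, s ⊆ t →
      w = ∑ i ∈ t, β i • a (h.vc (β.coord i) w) := by
    intro w
    refine h.ind (p := fun w => ∃ s : Finset (Basis.ofVectorSpaceIndex F K), ∀ t, s ⊆ t →
      w = ∑ i ∈ t, β i • a (h.vc (β.coord i) w)) (fun l x => ?_) (fun x y hx hy => ?_) w
    · refine ⟨(β.repr l).support, fun t ht => ?_⟩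
      have h2 : l = ∑ i ∈ t, β.coord i l • β i := by
        conv_lhs => rw [← β.linearCombination_repr l, Finsupp.linearCombination_apply,
          Finsupp.sum_of_support_subset _ ht _ (fun i _ => zero_smul F (β i))]
        rfl
      conv_lhs => rw [h2, Finset.sum_smul]
      refine Finset.sum_congr rfl fun i _ => ?_
      rw [h.vc_smul_a, h.a_smul, smul_smul, Algebra.smul_def, mul_comm]
    · obtain ⟨s, hs⟩ := hx
      obtain ⟨s', hs'⟩ := hy
      refine ⟨s ∪ s', fun t ht => ?_⟩
      conv_lhs => rw [hs t (Finset.union_subset_left ht), hs' t (Finset.union_subset_right ht)]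
      rw [← Finset.sum_add_distrib]
      refine Finset.sum_congr rfl fun i _ => ?_
      rw [h.vc_add, h.a_add, smul_add]
  choose s hs using fun j => h1 (z (a (finBasis F V j)))
  refine ⟨Finset.univ.biUnion s, fun t ht => ?_⟩
  refine h.b'.ext fun j => ?_
  rw [h.b'_eq, LinearMap.sum_apply]
  conv_lhs => rw [hs j t ((Finset.subset_biUnion_of_mem s (Finset.mem_univ j)).trans ht)]
  refine Finset.sum_congr rfl fun i _ => ?_
  rw [LinearMap.smul_apply, h.ap, cm_apply]

theorem eq_of_cm {z z' : Module.End K V'} (h1 : ∀ ν, h.cm ν z = h.cm ν z') : z = z' := by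
  classical
  obtain ⟨s, hs⟩ := h.exists_decomp z
  obtain ⟨s', hs'⟩ := h.exists_decomp z'
  rw [hs (s ∪ s') Finset.subset_union_left, hs' (s ∪ s') Finset.subset_union_right]
  exact Finset.sum_congr rfl fun i _ => by rw [h1]

/-! ### Subspaces -/

/-- The extension of a subspace of endomorphisms. -/
def xs (_ : Bc a ext) (U : Submodule F (Module.End F V)) : Submodule K (Module.End K V') :=
  Submodule.span K (ext '' U)

theorem ext_mem {U : Submodule F (Module.End F V)} {y : Module.End F V} (hy : y ∈ U) :
    ext y ∈ h.xs U := Submodule.subset_span ⟨y, hy, rfl⟩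

theorem mem_xs {U : Submodule F (Module.End F V)} {z : Module.End K V'} :
    z ∈ h.xs U ↔ ∀ ν, h.cm ν z ∈ U := by
  constructor
  · intro hz
    unfold xs at hz
    induction hz using Submodule.span_induction with
    | mem x hx =>
      obtain ⟨y, hy, rfl⟩ := hx
      intro ν
      rw [h.cm_ext]
      exact U.smul_mem _ hy
    | zero =>
      intro ν
      rw [h.cm_zero]
      exact U.zero_mem
    | add x y _ _ hx hy =>
      intro ν
      rw [h.cm_add]
      exact U.add_mem (hx ν) (hy ν)
    | smul r x _ hx =>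
      intro ν
      rw [h.cm_smul]
      exact hx _
  · intro hz
    obtain ⟨s, hs⟩ := h.exists_decomp z
    rw [hs s le_rfl]
    exact Submodule.sum_mem _ fun i _ => Submodule.smul_mem _ _ (h.ext_mem (hz _))

theorem exists_one (F K : Type*) [Field F] [Field K] [Algebra F K] :
    ∃ ν : K →ₗ[F] F, ν 1 = 1 := by
  have h0 : (1 : K) ≠ 0 := one_ne_zero
  have h1 : ∃ ν : K →ₗ[F] F, ν 1 ≠ 0 := by
    by_contra hcon
    push Not at hcon
    exact h0 ((Module.forall_dual_apply_eq_zero_iff F (1 : K)).1 hcon)
  obtain ⟨ν, hν⟩ := h1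
  exact ⟨(ν 1)⁻¹ • ν, by rw [LinearMap.smul_apply, smul_eq_mul, inv_mul_cancel₀ hν]⟩

theorem ext_mem_iff {U : Submodule F (Module.End F V)} {y : Module.End F V} :
    ext y ∈ h.xs U ↔ y ∈ U := by
  refine ⟨fun hy => ?_, h.ext_mem⟩
  obtain ⟨ν, hν⟩ := exists_one F K
  have h1 := h.mem_xs.1 hy ν
  rwa [h.cm_ext, hν, one_smul] at h1

theorem xs_mono {U U' : Submodule F (Module.End F V)} (hU : U ≤ U') : h.xs U ≤ h.xs U' :=
  fun _ hz => h.mem_xs.2 fun ν => hU (h.mem_xs.1 hz ν)

theorem xs_le_iff {U U' : Submodule F (Module.End F V)} : h.xs U ≤ h.xs U' ↔ U ≤ U' :=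
  ⟨fun hle _ hy => h.ext_mem_iff.1 (hle (h.ext_mem hy)), h.xs_mono⟩

theorem finrank_xs (U : Submodule F (Module.End F V)) :
    finrank K (h.xs U) = finrank F U := by
  classical
  let u := Module.finBasis F U
  have hli : LinearIndependent K fun j => ext (u j : Module.End F V) := by
    rw [Fintype.linearIndependent_iff]
    intro l hl j
    refine (Module.forall_dual_apply_eq_zero_iff F (l j)).1 fun ν => ?_
    have h1 := congrArg (h.cm ν) hl
    rw [h.cm_sum, h.cm_zero, Finset.sum_congr rfl fun j _ => h.cm_smul_ext ν (l j) (u j)] at h1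
    have h2 : ∑ j, ν (l j) • u j = 0 := by
      apply Subtype.ext
      rw [Submodule.coe_sum, Submodule.coe_zero, ← h1]
      rfl
    exact Fintype.linearIndependent_iff.1 u.linearIndependent _ h2 j
  have hsp : h.xs U = Submodule.span K (Set.range fun j => ext (u j : Module.End F V)) := by
    apply le_antisymm
    · unfold xs
      rw [Submodule.span_le]
      rintro _ ⟨y, hy, rfl⟩
      have h1 : y = ∑ j, u.repr ⟨y, hy⟩ j • (u j : Module.End F V) := by
        have h2 := congrArg Subtype.val (u.sum_repr ⟨y, hy⟩)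
        rw [Submodule.coe_sum] at h2
        exact h2.symm
      have h2 : ∀ s : Finset (Fin (finrank F U)), ext (∑ j ∈ s, u.repr ⟨y, hy⟩ j •
          (u j : Module.End F V)) ∈ Submodule.span K
            (Set.range fun j => ext (u j : Module.End F V)) := by
        intro s
        induction s using Finset.induction_on with
        | empty =>
          rw [Finset.sum_empty, h.ext_zero]
          exact Submodule.zero_mem _
        | insert i s hi ih =>
          rw [Finset.sum_insert hi, h.ext_add, h.ext_smul]
          exact Submodule.add_mem _ (Submodule.smul_mem _ _ (Submodule.subset_span ⟨i, rfl⟩)) ih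
      have h3 := h2 Finset.univ
      rw [← h1] at h3
      exact h3
    · rw [Submodule.span_le]
      rintro _ ⟨j, rfl⟩
      exact h.ext_mem (u j).2
  rw [hsp, finrank_span_eq_card hli, Fintype.card_fin]

/-! ### Lie algebras -/

theorem xs_br {U : Submodule F (Module.End F V)}
    (hU : ∀ X ∈ U, ∀ Y ∈ U, X * Y - Y * X ∈ U) :
    ∀ X ∈ h.xs U, ∀ Y ∈ h.xs U, X * Y - Y * X ∈ h.xs U := by
  intro X hX Y hY
  unfold xs at hX hY
  induction hX using Submodule.span_induction with
  | mem x hx =>
    obtain ⟨x, hx, rfl⟩ := hx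
    induction hY using Submodule.span_induction with
    | mem y hy =>
      obtain ⟨y, hy, rfl⟩ := hy
      rw [← h.ext_mul, ← h.ext_mul, ← h.ext_sub]
      exact h.ext_mem (hU x hx y hy)
    | zero => rw [mul_zero, zero_mul, sub_zero]; exact Submodule.zero_mem _
    | add a b _ _ ha hb =>
      rw [mul_add, add_mul, add_sub_add_comm]
      exact Submodule.add_mem _ ha hb
    | smul r a _ ha =>
      rw [mul_smul_comm, smul_mul_assoc, ← smul_sub]
      exact Submodule.smul_mem _ _ ha
  | zero => rw [mul_zero, zero_mul, sub_zero]; exact Submodule.zero_mem _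
  | add a b _ _ ha hb =>
    rw [mul_add, add_mul, add_sub_add_comm]
    exact Submodule.add_mem _ ha hb
  | smul r a _ ha =>
    rw [mul_smul_comm, smul_mul_assoc, ← smul_sub]
    exact Submodule.smul_mem _ _ ha

theorem der_xs (U : Submodule F (Module.End F V)) : der (h.xs U) = h.xs (der U) := by
  apply le_antisymm
  · rw [der, Submodule.span_le]
    rintro _ ⟨X, hX, Y, hY, rfl⟩
    change X * Y - Y * X ∈ h.xs (der U)
    unfold xs at hX hY
    induction hX using Submodule.span_induction with
    | mem x hx =>
      obtain ⟨x, hx, rfl⟩ := hx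
      induction hY using Submodule.span_induction with
      | mem y hy =>
        obtain ⟨y, hy, rfl⟩ := hy
        rw [← h.ext_mul, ← h.ext_mul, ← h.ext_sub]
        exact h.ext_mem (mem_der U hx hy)
      | zero => rw [mul_zero, zero_mul, sub_zero]; exact Submodule.zero_mem _
      | add a b _ _ ha hb =>
        rw [mul_add, add_mul, add_sub_add_comm]
        exact Submodule.add_mem _ ha hb
      | smul r a _ ha =>
        rw [mul_smul_comm, smul_mul_assoc, ← smul_sub]
        exact Submodule.smul_mem _ _ ha
    | zero => rw [mul_zero, zero_mul, sub_zero]; exact Submodule.zero_mem _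
    | add a b _ _ ha hb =>
      rw [mul_add, add_mul, add_sub_add_comm]
      exact Submodule.add_mem _ ha hb
    | smul r a _ ha =>
      rw [mul_smul_comm, smul_mul_assoc, ← smul_sub]
      exact Submodule.smul_mem _ _ ha
  · unfold xs
    rw [Submodule.span_le]
    rintro _ ⟨y, hy, rfl⟩
    change ext y ∈ der (Submodule.span K (ext '' U))
    have hy' : y ∈ Submodule.span F {Z | ∃ X ∈ U, ∃ Y ∈ U, Z = X * Y - Y * X} := hy
    induction hy' using Submodule.span_induction with
    | mem x hx =>
      obtain ⟨X, hX, Y, hY, rfl⟩ := hx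
      rw [h.ext_sub, h.ext_mul, h.ext_mul]
      exact mem_der _ (Submodule.subset_span ⟨X, hX, rfl⟩) (Submodule.subset_span ⟨Y, hY, rfl⟩)
    | zero => rw [h.ext_zero]; exact Submodule.zero_mem _
    | add a b ha' hb' ha hb => rw [h.ext_add]; exact Submodule.add_mem _ (ha ha') (hb hb')
    | smul r a ha' ha => rw [h.ext_smul]; exact Submodule.smul_mem _ _ (ha ha')

theorem nondeg_xs {D : Submodule F (Module.End F V)} (hD : TraceNondeg D) :
    TraceNondeg (h.xs D) := by
  intro x hx h1
  apply h.eq_of_cm
  intro ν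
  rw [h.cm_zero]
  refine hD _ (h.mem_xs.1 hx ν) fun y hy => ?_
  rw [← h.cm_mul_ext, h.trace_cm, h1 _ (h.ext_mem hy), map_zero]

theorem nondeg_of_xs {D : Submodule F (Module.End F V)} (hD : TraceNondeg (h.xs D)) :
    TraceNondeg D := by
  intro x hx h1
  have h2 : ext x = 0 := by
    refine hD _ (h.ext_mem hx) fun y hy => ?_
    unfold xs at hy
    induction hy using Submodule.span_induction with
    | mem y hy =>
      obtain ⟨y, hy, rfl⟩ := hy
      rw [← h.ext_mul, h.ext_trace, h1 y hy, map_zero]
    | zero => rw [mul_zero, map_zero]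
    | add a b _ _ ha hb => rw [mul_add, map_add, ha, hb, add_zero]
    | smul r a _ ha => rw [mul_smul_comm, map_smul, ha, smul_zero]
  obtain ⟨ν, hν⟩ := exists_one F K
  have h3 := congrArg (h.cm ν) h2
  rwa [h.cm_ext, hν, one_smul, h.cm_zero] at h3

theorem comm_iff {z : Module.End K V'} {y : Module.End F V} :
    z * ext y = ext y * z ↔ ∀ ν, h.cm ν z * y = y * h.cm ν z := by
  constructor
  · intro h1 ν
    rw [← h.cm_mul_ext, ← h.cm_ext_mul, h1]
  · intro h1
    apply h.eq_of_cm
    intro ν
    rw [h.cm_mul_ext, h.cm_ext_mul, h1]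

theorem adjoin_ext {U : Submodule F (Module.End F V)} {y : Module.End F V}
    (hy : y ∈ Algebra.adjoin F (U : Set (Module.End F V))) :
    ext y ∈ Algebra.adjoin K (h.xs U : Set (Module.End K V')) := by
  induction hy using Algebra.adjoin_induction with
  | mem x hx => exact Algebra.subset_adjoin (h.ext_mem hx)
  | algebraMap r =>
    have h1 : ext (algebraMap F (Module.End F V) r) = algebraMap K (Module.End K V')
        (algebraMap F K r) := by
      rw [Algebra.algebraMap_eq_smul_one r, h.ext_smul, h.ext_one,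
        Algebra.algebraMap_eq_smul_one (algebraMap F K r)]
    rw [h1]
    exact Subalgebra.algebraMap_mem _ _
  | add x y _ _ hx hy => rw [h.ext_add]; exact Subalgebra.add_mem _ hx hy
  | mul x y _ _ hx hy => rw [h.ext_mul]; exact Subalgebra.mul_mem _ hx hy

/-! ### Forms -/

/-- The components of the values of a form. -/
theorem val_cm {κ : Type*} [DecidableEq κ] {φ : MultilinearMap F (fun _ : κ => V) F}
    {Φ : MultilinearMap K (fun _ : κ => V') K} {r : K} (hr : r ≠ 0)
    (hΦ : ∀ v : κ → V, Φ (fun j => a (v j)) = r * algebraMap F K (φ v)) (ν : K →ₗ[F] F)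
    (v : κ → V) (j : κ) (w : V') :
    ν (r⁻¹ * Φ (Function.update (fun l => a (v l)) j w)) =
      φ (Function.update v j (h.vc ν w)) := by
  refine h.ind (p := fun w => ν (r⁻¹ * Φ (Function.update (fun l => a (v l)) j w)) =
      φ (Function.update v j (h.vc ν w))) (fun l x => ?_) (fun x y hx hy => ?_) w
  · have h1 : Function.update (fun l => a (v l)) j (a x) =
        fun l => a (Function.update v j x l) := by
      funext i
      by_cases hi : i = j
      · subst hi
        rw [Function.update_self, Function.update_self]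
      · rw [Function.update_of_ne hi, Function.update_of_ne hi]
    rw [MultilinearMap.map_update_smul, h1, hΦ, h.vc_smul_a, MultilinearMap.map_update_smul,
      smul_eq_mul, smul_eq_mul]
    have h2 : r⁻¹ * (l * (r * algebraMap F K (φ (Function.update v j x)))) =
        φ (Function.update v j x) • l := by
      rw [Algebra.smul_def]
      field_simp
    rw [h2, map_smul, smul_eq_mul, mul_comm]
  · rw [MultilinearMap.map_update_add, mul_add, map_add, hx, hy, h.vc_add,
      MultilinearMap.map_update_add]

theorem kills_iff {κ : Type} [Fintype κ] [DecidableEq κ]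
    {φ : MultilinearMap F (fun _ : κ => V) F}
    {Φ : MultilinearMap K (fun _ : κ => V') K} {r : K} (hr : r ≠ 0)
    (hΦ : ∀ v : κ → V, Φ (fun j => a (v j)) = r * algebraMap F K (φ v))
    {z : Module.End K V'} : Kills z Φ ↔ ∀ ν, Kills (h.cm ν z) φ := by
  have key : ∀ (ν : K →ₗ[F] F) (v : κ → V),
      ν (r⁻¹ * ∑ j, Φ (Function.update (fun l => a (v l)) j (z (a (v j))))) =
        ∑ j, φ (Function.update v j (h.cm ν z (v j))) := by
    intro ν v
    rw [Finset.mul_sum, map_sum]
    exact Finset.sum_congr rfl fun j _ => by rw [h.val_cm hr hΦ, cm_apply]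
  constructor
  · intro h1 ν v
    rw [← key, h1 (fun l => a (v l)), mul_zero, map_zero]
  · intro h1
    refine kills_of_basis h.b' _ _ fun I => ?_
    have h2 : (fun l => h.b' (I l)) = fun l => a (finBasis F V (I l)) := by
      funext l
      rw [h.b'_eq]
    have h3 : r⁻¹ * ∑ j, Φ (Function.update (fun l => a (finBasis F V (I l))) j
        (z (a (finBasis F V (I j))))) = 0 :=
      (Module.forall_dual_apply_eq_zero_iff F _).1 fun ν => by rw [key, h1 ν]
    have h4 := (mul_eq_zero.1 h3).resolve_left (inv_ne_zero hr)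
    rw [← h4]
    refine Finset.sum_congr rfl fun j _ => ?_
    rw [h2, h.b'_eq]

end Bc

end

end Pool.Agent.Q50.LI
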