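import Pool.Agent.Q50.LI.Prd

/-!
# Comparison of the dimensions
-/

set_option linter.unusedSectionVars false

namespace Pool.Agent.Q50.LI

open Module Pool.Agent.Q50.FP Pool.Agent.W516.KC Pool.Agent.W516.KC2 Pool.Agent.H204R3.SP
open TensorProduct

noncomputable section

/-- The range of a map with a larger kernel. -/
theorem finrank_range_le_of_ker {C M A B : Type*} [Field C] [AddCommGroup M] [Module C M]
    [AddCommGroup A] [Module C A] [FiniteDimensional C A] [AddCommGroup B] [Module C B]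
    (f : M →ₗ[C] A) (g : M →ₗ[C] B) (h : LinearMap.ker f ≤ LinearMap.ker g) :
    finrank C (LinearMap.range g) ≤ finrank C (LinearMap.range f) := by
  obtain ⟨s, hs⟩ := f.rangeRestrict.exists_rightInverse_of_surjective f.range_rangeRestrict
  have h1 : LinearMap.range g ≤ LinearMap.range (g ∘ₗ s) := by
    rintro _ ⟨m, rfl⟩
    refine ⟨f.rangeRestrict m, ?_⟩
    have h2 : m - s (f.rangeRestrict m) ∈ LinearMap.ker f := by
      rw [LinearMap.mem_ker, map_sub, sub_eq_zero]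
      have h3 := LinearMap.congr_fun hs (f.rangeRestrict m)
      exact (congrArg Subtype.val h3).symm
    have h3 := h h2
    rw [LinearMap.mem_ker, map_sub, sub_eq_zero] at h3
    rw [LinearMap.comp_apply, ← h3]
  refine le_trans (Submodule.finrank_mono h1) ?_
  exact LinearMap.finrank_range_le _

variable {C : Type} [Field C] [IsAlgClosed C] [CharZero C]

section base

variable {F V V' : Type} [Field F] [CharZero F] [Algebra F C] [AddCommGroup V] [Module F V]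
  [FiniteDimensional F V] [AddCommGroup V'] [Module C V'] [FiniteDimensional C V']
  {a : V → V'} {ext : Module.End F V → Module.End C V'}

/-- The operators and the projectors on the homogeneous components. -/
structure Dat (g g' N : Module.End F V) (P : ℕ → Module.End F V) : Prop where
  inv : g * g' = 1
  inv' : g' * g = 1
  comm : ∀ i, P i * g = g * P i
  idem : ∀ i, P i * P i = P i
  ht : ∀ i, N * P i = (i : F) • P i
  top : ∀ v, ∃ s : Finset ℕ, v = ∑ i ∈ s, P i v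

variable {g g' N : Module.End F V} {P : ℕ → Module.End F V}

/-- The torus. -/
def tor (ext : Module.End F V → Module.End C V') (g N : Module.End F V) (x : F) (d : C) :
    Submodule C (Module.End C V') :=
  LinearMap.range (tmap (ext g) (ext N) (algebraMap F C x) d)

namespace Dat

theorem g_inj (h : Dat g g' N P) (B : Bc a ext) : Function.Injective (ext g) := by
  have h1 : ext g' * ext g = 1 := by
    rw [← B.ext_mul, h.inv', B.ext_one]
  intro x y hxy
  have h2 := congrArg (ext g') hxy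
  rwa [← Module.End.mul_apply, ← Module.End.mul_apply, h1, Module.End.one_apply,
    Module.End.one_apply] at h2

theorem maps (h : Dat g g' N P) (B : Bc a ext) (i : ℕ) :
    ∀ x ∈ LinearMap.range (ext (P i)), (ext g) x ∈ LinearMap.range (ext (P i)) := by
  rintro _ ⟨x, rfl⟩
  refine ⟨(ext g) x, ?_⟩
  rw [← Module.End.mul_apply, ← Module.End.mul_apply, ← B.ext_mul, ← B.ext_mul, h.comm]

theorem iSup_top (h : Dat g g' N P) (B : Bc a ext) :
    ⨆ i, LinearMap.range (ext (P i)) = ⊤ := by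
  rw [eq_top_iff]
  intro x _
  refine B.ind (p := fun x => x ∈ ⨆ i, LinearMap.range (ext (P i))) ?_ ?_ x
  · intro l v
    obtain ⟨s, hs⟩ := h.top v
    refine Submodule.smul_mem _ _ ?_
    have h1 : ∀ s : Finset ℕ, a (∑ i ∈ s, P i v) ∈ ⨆ i, LinearMap.range (ext (P i)) := by
      intro s
      induction s using Finset.induction_on with
      | empty =>
        rw [Finset.sum_empty, B.a_zero]
        exact Submodule.zero_mem _
      | insert i s hi ih =>
        rw [Finset.sum_insert hi, B.a_add]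
        refine Submodule.add_mem _ ?_ ih
        refine (le_iSup (fun i => LinearMap.range (ext (P i))) i) ?_
        exact ⟨a v, B.ap _ _⟩
    rw [hs]
    exact h1 s
  · intro u v hu hv
    exact Submodule.add_mem _ hu hv

theorem N_apply (h : Dat g g' N P) (B : Bc a ext) {i : ℕ} {x : V'}
    (hx : x ∈ LinearMap.range (ext (P i))) : (ext N) x = (i : C) • x := by
  obtain ⟨x, rfl⟩ := hx
  rw [← Module.End.mul_apply, ← B.ext_mul, h.ht, B.ext_smul, LinearMap.smul_apply, map_natCast]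

theorem P_apply (h : Dat g g' N P) (B : Bc a ext) {i : ℕ} {x : V'} :
    x ∈ LinearMap.range (ext (P i)) ↔ ext (P i) x = x := by
  constructor
  · rintro ⟨x, rfl⟩
    rw [← Module.End.mul_apply, ← B.ext_mul, h.idem]
  · intro hx
    exact ⟨x, hx⟩

/-- A basis of homogeneous generalised eigenvectors. -/
theorem exists_basis (h : Dat g g' N P) (B : Bc a ext) :
    ∃ (b : Basis (Fin (finrank C V')) C V') (l : Fin (finrank C V') → C)
      (n : Fin (finrank C V') → ℕ),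
      ∀ i, b i ∈ (Module.End.maxGenEigenspace (ext g) (l i)) ∧
        b i ∈ LinearMap.range (ext (P (n i))) :=
  exists_wbasis (ext g) (h.iSup_top B) (h.maps B)

theorem ne_zero (h : Dat g g' N P) (B : Bc a ext) {c : C} {v : V'} (hv : v ≠ 0)
    (hva : v ∈ Module.End.maxGenEigenspace (ext g) c) : c ≠ 0 := by
  rintro rfl
  rw [Module.End.mem_maxGenEigenspace] at hva
  obtain ⟨k, hk⟩ := hva
  rw [zero_smul, sub_zero] at hk
  have h2 : Function.Injective ((ext g) ^ k) := by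
    rw [Module.End.coe_pow]
    exact (h.g_inj B).iterate k
  exact hv (h2 (hk.trans (map_zero _).symm))

theorem tmap_b (h : Dat g g' N P) (B : Bc a ext) {x : F} {d c : C} {i : ℕ} {v : V'}
    (hv : v ∈ Module.End.maxGenEigenspace (ext g) c)
    (hv' : v ∈ LinearMap.range (ext (P i))) (p : Chr C × C) :
    tmap (ext g) (ext N) (algebraMap F C x) d p v =
      (p.1.1 c - p.1.1 (algebraMap F C x) / 2 * i + p.2 * (i - d)) • v :=
  tmap_vec hv (h.N_apply B hv') p

/-- The elements of the torus commute. -/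
theorem tor_comm (h : Dat g g' N P) (B : Bc a ext) {x : F} {d : C} {S T : Module.End C V'}
    (hS : S ∈ tor ext g N x d) (hT : T ∈ tor ext g N x d) : S * T = T * S := by
  obtain ⟨p, rfl⟩ := hS
  obtain ⟨q, rfl⟩ := hT
  obtain ⟨b, l, n, hb⟩ := h.exists_basis B
  refine b.ext fun i => ?_
  rw [Module.End.mul_apply, Module.End.mul_apply, h.tmap_b B (hb i).1 (hb i).2,
    h.tmap_b B (hb i).1 (hb i).2, map_smul, map_smul, h.tmap_b B (hb i).1 (hb i).2,
    h.tmap_b B (hb i).1 (hb i).2, smul_smul, smul_smul, mul_comm]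

/-- The elements of the torus are diagonal. -/
theorem tor_diag (h : Dat g g' N P) (B : Bc a ext) (x : F) (d : C) :
    ∃ b : Basis (Fin (finrank C V')) C V', ∀ T ∈ tor ext g N x d, Dg b T := by
  obtain ⟨b, l, n, hb⟩ := h.exists_basis B
  refine ⟨b, ?_⟩
  rintro _ ⟨p, rfl⟩ i
  exact ⟨_, h.tmap_b B (hb i).1 (hb i).2 p⟩

theorem comm_of_tor (x : F) (d : C) {Z : Module.End C V'}
    (hZ : ∀ T ∈ tor ext g N x d, T * Z = Z * T) {φ : C → C} (hφ : φ ∈ Chr C) :
    Z * fd (ext g) φ = fd (ext g) φ * Z := by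
  have h1 : (ext N) * Z = Z * (ext N) := by
    have h2 := hZ _ ⟨(0, 1), rfl⟩
    rw [tmap_apply] at h2
    have h3 : fd (ext g) ((0 : Chr C) : C → C) = 0 := by
      refine LinearMap.ext fun v => ?_
      refine g_ind (ext g) (p := fun v => fd (ext g) ((0 : Chr C) : C → C) v =
        (0 : Module.End C V') v) ?_ ?_ v
      · intro c v hv
        rw [fd_apply _ hv]
        exact zero_smul C v
      · intro u v hu hv
        rw [map_add, map_add, hu, hv]
    have h4 : ((0 : Chr C) : C → C) (algebraMap F C x) = 0 := rfl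
    change (fd (ext g) ((0 : Chr C) : C → C) -
      (((0 : Chr C) : C → C) (algebraMap F C x) / 2) • ext N + (1 : C) •
        (ext N - d • 1)) * Z = Z * (fd (ext g) ((0 : Chr C) : C → C) -
      (((0 : Chr C) : C → C) (algebraMap F C x) / 2) • ext N + (1 : C) •
        (ext N - d • 1)) at h2
    rw [h3, h4, zero_div, zero_smul, sub_zero, zero_add, one_smul, sub_mul, mul_sub,
      smul_mul_assoc, mul_smul_comm, one_mul, mul_one] at h2
    exact sub_left_injective h2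
  have h2 := hZ _ ⟨(⟨φ, hφ⟩, 0), rfl⟩
  rw [tmap_apply] at h2
  change (fd (ext g) φ - (φ (algebraMap F C x) / 2) • ext N + (0 : C) •
        (ext N - d • 1)) * Z = Z * (fd (ext g) φ -
      (φ (algebraMap F C x) / 2) • ext N + (0 : C) • (ext N - d • 1)) at h2
  rw [zero_smul, add_zero, sub_mul, mul_sub, smul_mul_assoc, mul_smul_comm, h1] at h2
  exact (sub_left_injective h2).symm

/-- The centraliser of the torus. -/
theorem cent_le (h : Dat g g' N P) (B : Bc a ext) (hn : Neat (ext g)) {x : F} {d : C}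
    {𝔤 : Submodule F (Module.End F V)} {Z : Module.End C V'}
    (hZ : Z ∈ B.xs 𝔤) (hZ' : ∀ T ∈ tor ext g N x d, T * Z = Z * T) :
    Z ∈ B.xs (𝔤 ⊓ (adj g).maxGenEigenspace 0) := by
  have h1 := adj_of_pres (pres_of_comm hn (h.g_inj B) fun φ hφ => comm_of_tor x d hZ' hφ)
  have h2 : ∀ (ν : C →ₗ[F] F) (k : ℕ) (Z : Module.End C V'),
      B.cm ν ((adj (ext g) ^ k) Z) = (adj g ^ k) (B.cm ν Z) := by
    intro ν k
    induction k with
    | zero => intro Z; rw [pow_zero, pow_zero, Module.End.one_apply, Module.End.one_apply]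
    | succ k ih =>
      intro Z
      rw [pow_succ, pow_succ, Module.End.mul_apply, Module.End.mul_apply, ih, adj_apply,
        adj_apply, B.cm_sub, B.cm_ext_mul ν Z g, B.cm_mul_ext ν Z g]
  refine B.mem_xs.2 fun ν => ⟨B.mem_xs.1 hZ ν, ?_⟩
  rw [SetLike.mem_coe, Module.End.mem_maxGenEigenspace]
  refine ⟨2 * finrank C V', ?_⟩
  rw [zero_smul, sub_zero, ← h2, h1, B.cm_zero]

/-- The centre is in the generalised centraliser. -/
theorem ctr_le (h : Dat g g' N P) (B : Bc a ext) (hn : Neat (ext g)) {x : F} {d : C}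
    {𝔤 : Submodule F (Module.End F V)} (ht : tor ext g N x d ≤ B.xs 𝔤) :
    ctr 𝔤 ≤ (adj g).maxGenEigenspace 0 := by
  intro z hz
  have h1 : ext z ∈ B.xs (𝔤 ⊓ (adj g).maxGenEigenspace 0) := by
    refine h.cent_le B hn (x := x) (d := d) (B.ext_mem hz.1) fun T hT => ?_
    exact B.comm_iff.2 fun ν => hz.2 _ (B.mem_xs.1 (ht hT) ν)
  exact (B.ext_mem_iff.1 h1).2

end Dat

end base

section cmp

variable {F₀ V₀ V₀' F₁ V₁ V₁' : Type} [Field F₀] [CharZero F₀] [Algebra F₀ C] [AddCommGroup V₀]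
  [Module F₀ V₀] [FiniteDimensional F₀ V₀] [AddCommGroup V₀'] [Module C V₀']
  [FiniteDimensional C V₀'] [Field F₁] [CharZero F₁] [Algebra F₁ C]
  [AddCommGroup V₁] [Module F₁ V₁] [FiniteDimensional F₁ V₁] [AddCommGroup V₁'] [Module C V₁']
  [FiniteDimensional C V₁']
  {a₀ : V₀ → V₀'} {ext₀ : Module.End F₀ V₀ → Module.End C V₀'} (B₀ : Bc a₀ ext₀)
  {a₁ : V₁ → V₁'} {ext₁ : Module.End F₁ V₁ → Module.End C V₁'} (B₁ : Bc a₁ ext₁)
  {g₀ g₀' N₀ : Module.End F₀ V₀} {P₀ : ℕ → Module.End F₀ V₀}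
  {g₁ g₁' N₁ : Module.End F₁ V₁} {P₁ : ℕ → Module.End F₁ V₁}

include B₀ B₁ in
/-- The dimensions of the tori. -/
theorem tor_le (h₀ : Dat g₀ g₀' N₀ P₀) (h₁ : Dat g₁ g₁' N₁ P₁) {x₀ : F₀} {x₁ : F₁} {d : C}
    (hx : algebraMap F₀ C x₀ = algebraMap F₁ C x₁)
    (htr : ∀ i m, algebraMap F₀ C (LinearMap.trace F₀ V₀ ((P₀ i * g₀) ^ m)) =
      algebraMap F₁ C (LinearMap.trace F₁ V₁ ((P₁ i * g₁) ^ m))) :
    finrank C (tor ext₀ g₀ N₀ x₀ d) ≤ finrank C (tor ext₁ g₁ N₁ x₁ d) := by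
  refine finrank_range_le_of_ker _ _ fun p hp => ?_
  rw [LinearMap.mem_ker] at hp ⊢
  obtain ⟨b, l, n, hb⟩ := h₀.exists_basis B₀
  refine b.ext fun i => ?_
  rw [h₀.tmap_b B₀ (hb i).1 (hb i).2, LinearMap.zero_apply]
  have hl : l i ≠ 0 := h₀.ne_zero B₀ (b.ne_zero i) (hb i).1
  have hcc : ∀ {F V V' : Type} [Field F] [CharZero F] [Algebra F C] [AddCommGroup V] [Module F V]
      [FiniteDimensional F V] [AddCommGroup V'] [Module C V'] [FiniteDimensional C V']
      {a : V → V'} {ext : Module.End F V → Module.End C V'} (_ : Bc a ext)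
      {g g' N : Module.End F V} {P : ℕ → Module.End F V}
      (_ : Dat g g' N P) (j : ℕ), ext (P j * g) = ext (P j) * ext g ∧
        ext (P j) * ext g = ext g * ext (P j) ∧ ext (P j) * ext (P j) = ext (P j) := by
    intro F V V' _ _ _ _ _ _ _ _ _ a ext B g g' N P h j
    refine ⟨B.ext_mul _ _, ?_, ?_⟩
    · rw [← B.ext_mul, ← B.ext_mul, h.comm]
    · rw [← B.ext_mul, h.idem]
  have h1 : Module.End.maxGenEigenspace (ext₀ (P₀ (n i) * g₀)) (l i) ≠ ⊥ := by
    intro h0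
    have h2 : b i ∈ Module.End.maxGenEigenspace (ext₀ (P₀ (n i) * g₀)) (l i) := by
      rw [(hcc B₀ h₀ (n i)).1, gen_proj (hcc B₀ h₀ (n i)).2.1 (hcc B₀ h₀ (n i)).2.2 hl]
      exact ⟨(h₀.P_apply B₀).1 (hb i).2, (hb i).1⟩
    rw [h0, Submodule.mem_bot] at h2
    exact b.ne_zero i h2
  have h2 : Module.End.maxGenEigenspace (ext₁ (P₁ (n i) * g₁)) (l i) ≠ ⊥ := by
    intro h0
    apply h1
    have h3 := mult_eq (a := ext₀ (P₀ (n i) * g₀)) (c := ext₁ (P₁ (n i) * g₁)) (fun m => by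
      rw [← B₀.ext_pow, ← B₁.ext_pow, B₀.ext_trace, B₁.ext_trace, htr]) (l i)
    rw [h0, finrank_bot] at h3
    exact Submodule.finrank_eq_zero.1 h3
  obtain ⟨v, hv, hv0⟩ := Submodule.exists_mem_ne_zero_of_ne_bot h2
  rw [(hcc B₁ h₁ (n i)).1, gen_proj (hcc B₁ h₁ (n i)).2.1 (hcc B₁ h₁ (n i)).2.2 hl] at hv
  have h3 := LinearMap.congr_fun hp v
  rw [h₁.tmap_b B₁ hv.2 ((h₁.P_apply B₁).2 hv.1), LinearMap.zero_apply, ← hx] at h3
  rw [(smul_eq_zero.1 h3).resolve_right hv0, zero_smul]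

/-- **The centraliser of the torus is the torus.** -/
theorem cent_of_count (h₀ : Dat g₀ g₀' N₀ P₀) (h₁ : Dat g₁ g₁' N₁ P₁) {x₀ : F₀} {x₁ : F₁}
    {d : C} (hx : algebraMap F₀ C x₀ = algebraMap F₁ C x₁)
    (htr : ∀ i m, algebraMap F₀ C (LinearMap.trace F₀ V₀ ((P₀ i * g₀) ^ m)) =
      algebraMap F₁ C (LinearMap.trace F₁ V₁ ((P₁ i * g₁) ^ m)))
    {𝔤₀ : Submodule F₀ (Module.End F₀ V₀)} {𝔤₁ : Submodule F₁ (Module.End F₁ V₁)}
    (br₀ : ∀ X ∈ 𝔤₀, ∀ Y ∈ 𝔤₀, X * Y - Y * X ∈ 𝔤₀)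
    (br₁ : ∀ X ∈ 𝔤₁, ∀ Y ∈ 𝔤₁, X * Y - Y * X ∈ 𝔤₁) (nd₀ : TraceNondeg (der 𝔤₀))
    (nd₁ : TraceNondeg (der 𝔤₁)) (dim : finrank F₀ 𝔤₀ = finrank F₁ 𝔤₁)
    (dimd : finrank F₀ (der 𝔤₀) = finrank F₁ (der 𝔤₁))
    (dimc : finrank F₀ (der 𝔤₀ ⊓ (adj g₀).maxGenEigenspace 0 :
        Submodule F₀ (Module.End F₀ V₀)) =
      finrank F₁ (der 𝔤₁ ⊓ (adj g₁).maxGenEigenspace 0 : Submodule F₁ (Module.End F₁ V₁)))
    (t₀ : tor ext₀ g₀ N₀ x₀ d ≤ B₀.xs 𝔤₀) (t₁ : tor ext₁ g₁ N₁ x₁ d ≤ B₁.xs 𝔤₁)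
    (n₀ : Neat (ext₀ g₀)) (n₁ : Neat (ext₁ g₁))
    (ss : ∀ (c : C) (v : V₀'), v ∈ Module.End.maxGenEigenspace (ext₀ g₀) c →
      (ext₀ g₀) v = c • v)
    (mt : ∀ z ∈ 𝔤₀, z * g₀ = g₀ * z → ext₀ z ∈ tor ext₀ g₀ N₀ x₀ d)
    {Z : Module.End C V₁'} (hZ : Z ∈ B₁.xs 𝔤₁)
    (hZ' : ∀ T ∈ tor ext₁ g₁ N₁ x₁ d, T * Z = Z * T) : Z ∈ tor ext₁ g₁ N₁ x₁ d := by
  -- the centralisers
  have e₀ := finrank_cent br₀ nd₀ (h₀.ctr_le B₀ n₀ t₀)
  have e₁ := finrank_cent br₁ nd₁ (h₁.ctr_le B₁ n₁ t₁)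
  have e : finrank F₀ (𝔤₀ ⊓ (adj g₀).maxGenEigenspace 0 : Submodule F₀ (Module.End F₀ V₀)) =
      finrank F₁ (𝔤₁ ⊓ (adj g₁).maxGenEigenspace 0 : Submodule F₁ (Module.End F₁ V₁)) := by
    omega
  -- the centraliser over the first field
  have c₀ : B₀.xs (𝔤₀ ⊓ (adj g₀).maxGenEigenspace 0) ≤ tor ext₀ g₀ N₀ x₀ d := by
    unfold Bc.xs
    rw [Submodule.span_le]
    rintro _ ⟨z, hz, rfl⟩
    refine mt z hz.1 ?_
    obtain ⟨k, hk⟩ := (Module.End.mem_maxGenEigenspace _ _ _).1 hz.2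
    rw [zero_smul, sub_zero] at hk
    have h2 : ∀ (k : ℕ) (z : Module.End F₀ V₀), (adj (ext₀ g₀) ^ k) (ext₀ z) =
        ext₀ ((adj g₀ ^ k) z) := by
      intro k
      induction k with
      | zero => intro z; rw [pow_zero, pow_zero, Module.End.one_apply, Module.End.one_apply]
      | succ k ih =>
        intro z
        rw [pow_succ, pow_succ, Module.End.mul_apply, Module.End.mul_apply, ← ih, adj_apply,
          adj_apply, B₀.ext_sub, B₀.ext_mul, B₀.ext_mul]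
    have h3 : Pres (ext₀ g₀) (ext₀ z) := by
      refine pres_of_adj k _ ?_
      rw [h2, hk, B₀.ext_zero]
    have h4 : ext₀ z * ext₀ g₀ = ext₀ g₀ * ext₀ z := by
      refine LinearMap.ext fun v => ?_
      refine g_ind (ext₀ g₀) (p := fun v => (ext₀ z * ext₀ g₀) v =
        (ext₀ g₀ * ext₀ z) v) ?_ ?_ v
      · intro c v hv
        rw [Module.End.mul_apply, Module.End.mul_apply, ss c v hv, map_smul, ss c _ (h3 c v hv)]
      · intro u v hu hv
        rw [map_add, map_add, hu, hv]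
    rw [← B₀.ext_mul, ← B₀.ext_mul] at h4
    obtain ⟨ν, hν⟩ := Bc.exists_one F₀ C
    have h6 := congrArg (B₀.cm ν) h4
    rwa [B₀.cm_ext, B₀.cm_ext, hν, one_smul, one_smul] at h6
  have d₀ := Submodule.finrank_mono c₀
  rw [B₀.finrank_xs, e] at d₀
  -- the centraliser over the second field
  let cen : Submodule C (Module.End C V₁') :=
    { carrier := {Z | Z ∈ B₁.xs 𝔤₁ ∧ ∀ T ∈ tor ext₁ g₁ N₁ x₁ d, T * Z = Z * T}
      zero_mem' := ⟨Submodule.zero_mem _, fun T _ => by rw [mul_zero, zero_mul]⟩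
      add_mem' := fun hy hz => ⟨Submodule.add_mem _ hy.1 hz.1, fun T hT => by
        rw [mul_add, add_mul, hy.2 T hT, hz.2 T hT]⟩
      smul_mem' := fun r z hz => ⟨Submodule.smul_mem _ _ hz.1, fun T hT => by
        rw [mul_smul_comm, smul_mul_assoc, hz.2 T hT]⟩ }
  have c₁ : cen ≤ B₁.xs (𝔤₁ ⊓ (adj g₁).maxGenEigenspace 0) := fun Z hZ =>
    h₁.cent_le B₁ n₁ hZ.1 hZ.2
  have d₁ := Submodule.finrank_mono c₁
  rw [B₁.finrank_xs] at d₁
  have c₂ : tor ext₁ g₁ N₁ x₁ d ≤ cen := fun T hT =>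
    ⟨t₁ hT, fun S hS => h₁.tor_comm B₁ hS hT⟩
  have d₂ := tor_le B₀ B₁ h₀ h₁ (d := d) hx htr
  have h3 : tor ext₁ g₁ N₁ x₁ d = cen := Submodule.eq_of_le_of_finrank_le c₂ (by omega)
  rw [h3]
  exact ⟨hZ, hZ'⟩

end cmp

end

end Pool.Agent.Q50.LI
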