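import Pool.Agent.Q50.LI.Wt

/-!
# Coroots

Let `h` be a Lie algebra of endomorphisms whose derived algebra has a nondegenerate trace form, and
which contains a space `t` of diagonal operators which is its own centraliser. Every weight vector
of nonzero weight belongs to an `sl_2`-triple, and its weight is a positive rational multiple of the
functional `T ↦ tr (s T)`, where `s` is the coroot.
-/

set_option linter.unusedSectionVars false

namespace Pool.Agent.Q50.LI

open Module Pool.Agent.Q50.FP Pool.Agent.W516.KC Pool.Agent.W516.KC2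

noncomputable section

attribute [local instance 100] LieRing.ofAssociativeRing

variable {C V ι : Type*} [Field C] [CharZero C] [AddCommGroup V] [Module C V] [Fintype ι]
  [DecidableEq ι] [FiniteDimensional C V] {b : Basis ι C V} {t h g : Submodule C (Module.End C V)}

theorem trace_wt {α : Module.End C V → C} {Z T : Module.End C V} (hZ : Wt t α Z) (hT : T ∈ t)
    (h0 : LinearMap.trace C V Z ≠ 0) : α T = 0 := by
  have h1 := congrArg (LinearMap.trace C V) (hZ T hT)
  rw [map_sub, LinearMap.trace_mul_comm, sub_self, map_smul, smul_eq_mul] at h1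
  exact (mul_eq_zero.1 h1.symm).resolve_right h0

theorem diag_pow {T : Module.End C V} (hT : Dg b T) (i : ι) (n : ℕ) :
    (T ^ n) (b i) = co b i T ^ n • b i := by
  induction n with
  | zero => rw [pow_zero, pow_zero, one_smul, Module.End.one_apply]
  | succ n ih =>
    rw [pow_succ, Module.End.mul_apply, hT.apply, map_smul, ih, smul_smul, pow_succ, mul_comm]

theorem diag_zero {T : Module.End C V} (hT : Dg b T) (h : ∀ i, co b i T = 0) : T = 0 := by
  refine b.ext fun i => ?_
  rw [hT.apply, h, zero_smul, LinearMap.zero_apply]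

theorem diag_nilpotent {T : Module.End C V} (hT : Dg b T) (h : IsNilpotent T) : T = 0 := by
  obtain ⟨n, hn⟩ := h
  refine diag_zero hT fun i => ?_
  have h1 := diag_pow hT i n
  rw [hn, LinearMap.zero_apply] at h1
  rcases smul_eq_zero.1 h1.symm with h2 | h2
  · exact (pow_eq_zero_iff (n := n) fun h0 => by
      rw [h0, pow_zero] at h2
      exact one_ne_zero h2).1 h2
  · exact absurd h2 (b.ne_zero i)

theorem trace_diag {S T : Module.End C V} (hS : Dg b S) (hT : Dg b T) :
    LinearMap.trace C V (S * T) = ∑ i, co b i S * co b i T := by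
  rw [LinearMap.trace_eq_matrix_trace C b, Matrix.trace]
  refine Finset.sum_congr rfl fun i _ => ?_
  rw [Matrix.diag_apply, LinearMap.toMatrix_apply, Module.End.mul_apply, hT.apply, map_smul,
    hS.apply, map_smul, map_smul, b.repr_self, Finsupp.smul_apply, Finsupp.smul_apply,
    Finsupp.single_eq_same, smul_eq_mul, smul_eq_mul, mul_one, mul_comm]

/-- The eigenvalues of the semisimple element of an `sl_2`-triple are integers. -/
theorem int_of_sl2 {e f s : Module.End C V} (h1 : e * f - f * e = s)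
    (h2 : s * e - e * s = (2 : C) • e) (h3 : s * f - f * s = -((2 : C) • f)) (hs : Dg b s)
    (i : ι) : ∃ n : ℤ, co b i s = n := by
  by_cases hs0 : s = 0
  · refine ⟨0, ?_⟩
    rw [hs0, map_zero, Int.cast_zero]
  have htr : IsSl2Triple s e f :=
    ⟨hs0, h1, by
      rw [two_smul] at h2 ⊢
      exact h2, by
      rw [two_smul] at h3 ⊢
      exact h3⟩
  -- the chain
  have hchain : ∀ k : ℕ, s ((e ^ k) (b i)) = (co b i s + 2 * k) • (e ^ k) (b i) := by
    intro k
    induction k with
    | zero => rw [pow_zero, Module.End.one_apply, hs.apply, Nat.cast_zero, mul_zero, add_zero]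
    | succ k ih =>
      have h4 : s * e = e * s + (2 : C) • e := by rw [← h2]; abel
      rw [pow_succ', Module.End.mul_apply]
      have h5 : s (e ((e ^ k) (b i))) = (s * e) ((e ^ k) (b i)) := rfl
      rw [h5, h4, LinearMap.add_apply, Module.End.mul_apply, ih, map_smul, LinearMap.smul_apply,
        ← add_smul]
      congr 1
      push_cast
      ring
  have hex : ∃ k : ℕ, (e ^ k) (b i) = 0 := by
    by_contra hcon
    push Not at hcon
    have h4 : ∀ k : ℕ, ∃ j, b.repr ((e ^ k) (b i)) j ≠ 0 := by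
      intro k
      by_contra h5
      push Not at h5
      exact hcon k (b.repr.map_eq_zero_iff.1 (Finsupp.ext h5))
    choose j hj using h4
    refine not_injective_infinite_finite j fun k l hkl => ?_
    have h5 : ∀ k, co b (j k) s = co b i s + 2 * k := by
      intro k
      have h6 := hs.repr ((e ^ k) (b i)) (j k)
      rw [hchain, map_smul, Finsupp.smul_apply, smul_eq_mul] at h6
      exact (mul_right_cancel₀ (hj k) h6).symm
    have h6 := h5 k
    rw [hkl, h5 l] at h6
    have h7 : (l : C) = k := by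
      have h8 : (2 : C) ≠ 0 := two_ne_zero
      exact mul_left_cancel₀ h8 (add_left_cancel h6)
    exact (Nat.cast_injective h7).symm
  classical
  have hk := Nat.find_spec hex
  have hmin := fun m => Nat.find_min (m := m) hex
  obtain ⟨k, hkk⟩ : ∃ k, Nat.find hex = k + 1 := by
    refine ⟨Nat.find hex - 1, ?_⟩
    have : Nat.find hex ≠ 0 := fun h0 => by
      rw [h0, pow_zero, Module.End.one_apply] at hk
      exact b.ne_zero i hk
    omega
  rw [hkk] at hk
  have hw : (e ^ k) (b i) ≠ 0 := hmin k (by omega)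
  have hP : htr.HasPrimitiveVectorWith ((e ^ k) (b i)) (co b i s + 2 * k) :=
    ⟨hw, hchain k, by
      rw [pow_succ', Module.End.mul_apply] at hk
      exact hk⟩
  obtain ⟨n, hn⟩ := hP.exists_nat
  refine ⟨n - 2 * k, ?_⟩
  push_cast
  rw [← hn]
  ring

/-- An `sl_2`-triple in `h` with semisimple element in `t`, with its root. -/
structure Cr (b : Basis ι C V) (h t : Submodule C (Module.End C V)) where
  e : Module.End C V
  f : Module.End C V
  s : Module.End C V
  q : ℚ
  he : e ∈ h
  hf : f ∈ h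
  hs : s ∈ t
  ef : e * f - f * e = s
  se : s * e - e * s = (2 : C) • e
  qpos : 0 < q
  wt : Wt t (fun T => (q : C) * LinearMap.trace C V (s * T)) e
  wtf : Wt t (fun T => -((q : C) * LinearMap.trace C V (s * T))) f
  int : ∀ i, ∃ n : ℤ, co b i s = n

/-- **Coroots exist.** -/
theorem exists_cr (ht : ∀ T ∈ t, Dg b T) (th : t ≤ h)
    (hbr : ∀ X ∈ h, ∀ Y ∈ h, X * Y - Y * X ∈ h)
    (cent : ∀ Z ∈ h, (∀ T ∈ t, T * Z = Z * T) → Z ∈ t) (hnt : TraceNondeg (der h))
    {α : Module.End C V → C} {e : Module.End C V} (he : e ∈ h) (hw : Wt t α e)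
    {T₀ : Module.End C V} (hT₀ : T₀ ∈ t) (h0 : α T₀ ≠ 0) (e0 : e ≠ 0) :
    ∃ c : Cr b h t, c.e = e ∧ c.f ∈ der h ∧
      c.s * c.f - c.f * c.s = -((2 : C) • c.f) ∧
      ∀ T ∈ t, α T = (c.q : C) * LinearMap.trace C V (c.s * T) := by
  have he' : e ∈ der h := by
    have h1 := mem_der h (th hT₀) he
    rw [hw T₀ hT₀] at h1
    have h2 := (der h).smul_mem (α T₀)⁻¹ h1
    rwa [smul_smul, inv_mul_cancel₀ h0, one_smul] at h2
  obtain ⟨Y, hY, hYe⟩ : ∃ Y ∈ der h, LinearMap.trace C V (e * Y) ≠ 0 := by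
    by_contra hcon
    push Not at hcon
    exact e0 (hnt e he' hcon)
  obtain ⟨S, z, hYz, hz⟩ := decomp ht (𝔪 := der h) (fun T hT Z hZ => der_ideal h hbr (th hT) hZ) hY
  obtain ⟨a, -, ha⟩ : ∃ a ∈ S, LinearMap.trace C V (e * z a) ≠ 0 := by
    by_contra hcon
    push Not at hcon
    apply hYe
    rw [hYz, Finset.mul_sum, map_sum]
    exact Finset.sum_eq_zero hcon
  obtain ⟨hza, β, hβ⟩ := hz a
  set f₀ := z a with hf₀
  have hf₀h : f₀ ∈ h := der_sub h hbr hza
  have hneg : ∀ T ∈ t, β T = -α T := by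
    intro T hT
    have h1 := trace_wt (hw.mul hβ) hT ha
    exact eq_neg_of_add_eq_zero_right h1
  set r₀ := LinearMap.trace C V (e * f₀) with hr₀
  set s₀ := e * f₀ - f₀ * e with hs₀
  have hs₀t : s₀ ∈ t := by
    refine cent _ (hbr _ he _ hf₀h) fun T hT => ?_
    have h1 := hw.br hβ T hT
    change T * s₀ - s₀ * T = (α T + β T) • s₀ at h1
    rw [hneg T hT, add_neg_cancel, zero_smul] at h1
    exact sub_eq_zero.1 h1
  have htr : ∀ T ∈ t, LinearMap.trace C V (s₀ * T) = α T * r₀ := by
    intro T hT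
    have h1 : LinearMap.trace C V (f₀ * e * T) = LinearMap.trace C V (e * (T * f₀)) := by
      rw [mul_assoc, LinearMap.trace_mul_comm, mul_assoc]
    have h2 : f₀ * T - T * f₀ = α T • f₀ := by
      have h3 := hβ T hT
      rw [hneg T hT, neg_smul] at h3
      rw [← neg_sub, h3, neg_neg]
    rw [hs₀, sub_mul, map_sub, h1, mul_assoc, ← map_sub, ← mul_sub, h2, mul_smul_comm, map_smul,
      smul_eq_mul]
  have hs₀0 : s₀ ≠ 0 := by
    intro h1
    have h2 := htr T₀ hT₀
    rw [h1, zero_mul, map_zero] at h2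
    exact mul_ne_zero h0 ha h2.symm
  have hαs : α s₀ ≠ 0 := by
    intro h1
    apply hs₀0
    refine diag_nilpotent (ht _ hs₀t) (isNilpotent_of_trace s₀ fun p => ?_)
    have h2 : s₀ * e = e * s₀ := by
      have h3 := hw s₀ hs₀t
      rw [h1, zero_smul] at h3
      exact sub_eq_zero.1 h3
    have h3 := aeval_comm h2.symm p
    have h4 : LinearMap.trace C V (Polynomial.aeval s₀ p * (f₀ * e)) =
        LinearMap.trace C V (Polynomial.aeval s₀ p * (e * f₀)) := by
      rw [← mul_assoc, LinearMap.trace_mul_comm, ← mul_assoc, h3, mul_assoc]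
    conv_lhs => rw [hs₀]
    rw [← hs₀, mul_sub, map_sub, h4, sub_self]
  set r := 2 / α s₀ with hr
  have hr0 : r ≠ 0 := div_ne_zero two_ne_zero hαs
  have hrα : r * α s₀ = 2 := div_mul_cancel₀ _ hαs
  have hsd : Dg b (r • s₀) := ht _ (t.smul_mem _ hs₀t)
  have hef : e * (r • f₀) - (r • f₀) * e = r • s₀ := by
    rw [mul_smul_comm, smul_mul_assoc, ← smul_sub]
  have hse : (r • s₀) * e - e * (r • s₀) = (2 : C) • e := by
    rw [mul_smul_comm, smul_mul_assoc, ← smul_sub, hw s₀ hs₀t, smul_smul, hrα]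
  have hsf : (r • s₀) * (r • f₀) - (r • f₀) * (r • s₀) = -((2 : C) • (r • f₀)) := by
    have h1 := hβ s₀ hs₀t
    rw [hneg _ hs₀t] at h1
    have h2 : (r • s₀) * (r • f₀) - (r • f₀) * (r • s₀) = (r * r) • (s₀ * f₀ - f₀ * s₀) := by
      simp only [mul_smul_comm, smul_mul_assoc, smul_smul, smul_sub]
    rw [h2, h1, smul_smul, smul_smul, ← neg_smul]
    congr 1
    linear_combination -r * hrα
  have hint := int_of_sl2 hef hse hsf hsd
  choose n hn using hint
  have hN : LinearMap.trace C V ((r • s₀) * (r • s₀)) = ((∑ i, n i * n i : ℤ) : C) := by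
    rw [trace_diag hsd hsd, Int.cast_sum]
    refine Finset.sum_congr rfl fun i _ => ?_
    rw [hn, Int.cast_mul]
  have hN' : LinearMap.trace C V ((r • s₀) * (r • s₀)) = 2 * (r * r₀) := by
    rw [mul_smul_comm, map_smul, smul_mul_assoc, map_smul, htr _ hs₀t, smul_eq_mul, smul_eq_mul]
    linear_combination r * r₀ * hrα
  have hN0 : ((∑ i, n i * n i : ℤ) : C) ≠ 0 := by
    rw [← hN, hN']
    exact mul_ne_zero two_ne_zero (mul_ne_zero hr0 ha)
  have hNpos : 0 < ∑ i, n i * n i := by
    refine lt_of_le_of_ne (Finset.sum_nonneg fun i _ => mul_self_nonneg _) fun h1 => hN0 ?_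
    rw [← h1, Int.cast_zero]
  have hq : ∀ T ∈ t, α T = ((2 / (∑ i, n i * n i : ℤ) : ℚ) : C) *
      LinearMap.trace C V ((r • s₀) * T) := by
    intro T hT
    have h1 : LinearMap.trace C V ((r • s₀) * T) = r * (α T * r₀) := by
      rw [smul_mul_assoc, map_smul, htr T hT, smul_eq_mul]
    have h2 : ((2 / (∑ i, n i * n i : ℤ) : ℚ) : C) = 2 / ((∑ i, n i * n i : ℤ) : C) := by
      push_cast
      rfl
    rw [h1, h2, ← hN, hN']
    have h3 : r₀ ≠ 0 := ha
    field_simp
  refine ⟨⟨e, r • f₀, r • s₀, 2 / (∑ i, n i * n i : ℤ), he, h.smul_mem _ hf₀h,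
    t.smul_mem _ hs₀t, hef, hse, by positivity, ?_, ?_, fun i => ⟨n i, hn i⟩⟩, rfl,
    (der h).smul_mem _ hza, hsf, hq⟩
  · intro T hT
    rw [hw T hT, hq T hT]
  · intro T hT
    rw [hβ.smul r T hT, hneg T hT, hq T hT]

end

end Pool.Agent.Q50.LI
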