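import Pool.Agent.Q50.LI.Fin
import Pool.Agent.Q50.MTC.Main

/-!
# The dimension of the space of Tate classes on the square
-/

open CategoryTheory AlgebraicGeometry

universe u w

set_option linter.unusedSectionVars false

namespace Pool.Agent.Q50.LI

open Module Pool.Agent.H204R3.SP Pool.Agent.W516.DR
open Pool.Agent.H914 Pool.Agent.H914.VarClass Pool.Agent.H914.VarClass.Obj
  Pool.Agent.H914.WeilCohomology
open Pool.Agent.Y133.Half Pool.Agent.W516.KC Pool.Agent.W516.KC2
open Pool.Agent.Q50.FP hiding IsTate IsAlg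
open Pool.Agent.Q55 (GaloisAction SubAction Virtually TateConj tatePred)
open Pool.Agent.Q60.TD (SemisimpleAt)
open Pool.Agent.Q50.MTC (IsTate IsAlg isAlg_iff' IsLadic artW hasLogs')

section bc

variable {F K V V' : Type*} [Field F] [CharZero F] [Field K] [CharZero K] [Algebra F K]
  [AddCommGroup V] [Module F V] [FiniteDimensional F V] [AddCommGroup V'] [Module K V']
  [FiniteDimensional K V'] {a : V → V'} {ext : Module.End F V → Module.End K V'} (h : Bc a ext)

include h in
theorem finrank_span_a (U : Submodule F V) :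
    finrank K (Submodule.span K (a '' U)) = finrank F U := by
  classical
  let u := Module.finBasis F U
  have hsum : ∀ (ν : K →ₗ[F] F) (s : Finset (Fin (finrank F U))) (l : Fin (finrank F U) → K),
      h.vc ν (∑ j ∈ s, l j • a (u j : V)) = ∑ j ∈ s, ν (l j) • (u j : V) := by
    intro ν s l
    induction s using Finset.induction_on with
    | empty =>
      rw [Finset.sum_empty, Finset.sum_empty]
      have h1 := h.vc_smul_a ν 0 0
      rwa [zero_smul, map_zero, zero_smul] at h1
    | insert i s hi ih => rw [Finset.sum_insert hi, Finset.sum_insert hi, h.vc_add, ih,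
        h.vc_smul_a]
  have hli : LinearIndependent K fun j => a (u j : V) := by
    rw [Fintype.linearIndependent_iff]
    intro l hl j
    refine (Module.forall_dual_apply_eq_zero_iff F (l j)).1 fun ν => ?_
    have h1 := congrArg (h.vc ν) hl
    have h0 := h.vc_smul_a ν 0 0
    rw [zero_smul, map_zero, zero_smul] at h0
    rw [hsum, h0] at h1
    have h2 : ∑ j, ν (l j) • u j = 0 := by
      apply Subtype.ext
      rw [Submodule.coe_sum, Submodule.coe_zero, ← h1]
      rfl
    exact Fintype.linearIndependent_iff.1 u.linearIndependent _ h2 j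
  have hsp : Submodule.span K (a '' U) = Submodule.span K (Set.range fun j => a (u j : V)) := by
    apply le_antisymm
    · rw [Submodule.span_le]
      rintro _ ⟨y, hy, rfl⟩
      have h1 : y = ∑ j, u.repr ⟨y, hy⟩ j • (u j : V) := by
        have h2 := congrArg Subtype.val (u.sum_repr ⟨y, hy⟩)
        rw [Submodule.coe_sum] at h2
        exact h2.symm
      have h2 : ∀ s : Finset (Fin (finrank F U)), a (∑ j ∈ s, u.repr ⟨y, hy⟩ j •
          (u j : V)) ∈ Submodule.span K (Set.range fun j => a (u j : V)) := by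
        intro s
        induction s using Finset.induction_on with
        | empty =>
          rw [Finset.sum_empty, h.a_zero]
          exact Submodule.zero_mem _
        | insert i s hi ih =>
          rw [Finset.sum_insert hi, h.a_add, h.a_smul]
          exact Submodule.add_mem _ (Submodule.smul_mem _ _ (Submodule.subset_span ⟨i, rfl⟩)) ih
      have h3 := h2 Finset.univ
      rw [← h1] at h3
      exact h3
    · rw [Submodule.span_le]
      rintro _ ⟨j, rfl⟩
      exact Submodule.subset_span ⟨_, (u j).2, rfl⟩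
  rw [hsp, finrank_span_eq_card hli, Fintype.card_fin]

end bc

variable {k : Type u} [Field k] {𝒱 : VarClass k} {ops : CycleOps 𝒱}
  {W E E₀ : WeilCohomology.{u, 0} ops} {X Y : 𝒱.Obj} {n : ℕ} {Γ : Type w} [Group Γ]
  {G : GaloisAction E Γ} {G₀ : GaloisAction E₀ Γ}

theorem spanCycles_ext [Algebra W.K E.K] (A : ArtC W E) (Y : 𝒱.Obj) (j : ℕ) :
    spanCycles E Y (j : ℤ) = Submodule.span E.K (A.a Y '' (spanCycles W Y (j : ℤ))) := by
  apply le_antisymm
  · conv_lhs => unfold spanCycles
    rw [Submodule.span_le]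
    rintro _ ⟨p, hp, z, hz, rfl⟩
    have h1 : E.cl Y z = (A.c ^ p)⁻¹ • A.a Y (W.cl Y z) := by
      rw [A.cl Y p z hz, smul_smul, inv_mul_cancel₀ (A.cne p), one_smul]
    rw [SetLike.mem_coe, h1]
    exact Submodule.smul_mem _ _ (Submodule.subset_span
      ⟨_, Submodule.subset_span ⟨p, hp, z, hz, rfl⟩, rfl⟩)
  · rw [Submodule.span_le]
    rintro _ ⟨c, hc, rfl⟩
    exact a_spanCycles A hc

theorem finrank_spanCycles [Algebra W.K E.K] (A : ArtC W E) (Y : 𝒱.Obj) (j : ℕ) :
    finrank E.K (spanCycles E Y (j : ℤ)) = finrank W.K (spanCycles W Y (j : ℤ)) := by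
  rw [spanCycles_ext A, finrank_span_a (bcA A Y)]

theorem spanCycles_le_tate (Y : 𝒱.Obj) (j : ℕ) :
    spanCycles E Y (j : ℤ) ≤ Submodule.span E.K {c | IsTate G Y j c} := fun _ hc =>
  Submodule.subset_span ((tatePred G).span_le hc)

/-- The Tate conjecture in terms of the dimension. -/
theorem tc_iff {Y : 𝒱.Obj} {j : ℕ} : (∀ c, IsTate G Y j c → IsAlg E Y j c) ↔
    tateDim G Y j ≤ finrank E.K (spanCycles E Y (j : ℤ)) := by
  constructor
  · intro h
    refine Submodule.finrank_mono ?_
    rw [Submodule.span_le]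
    intro c hc
    exact isAlg_iff'.1 (h c hc)
  · intro h c hc
    have h1 := Submodule.eq_of_le_of_finrank_le (spanCycles_le_tate (G := G) Y j) h
    rw [isAlg_iff', h1]
    exact Submodule.subset_span hc

/-- The comparison maps. -/
def Artin.toArtC [Algebra W.K E.K] (A : Artin W E) : ArtC W E where
  a := A.a
  smul X := (A.ext X).smul
  gr X i x hx := (A.ext X).gr i x hx
  map := A.map
  c := A.c
  ne := A.ne
  cl := A.cl
  tr X := (A.ext X).tr
  span X := (A.ext X).span

/-- **The main theorem.** -/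
theorem main [Algebra W.K E₀.K] [Algebra W.K E.K] [Algebra E₀.K ℂ] [Algebra E.K ℂ]
    [TopologicalSpace Γ] (hrat : ∀ r : W.K, ∃ q : ℚ, (q : W.K) = r)
    (A₀ : Artin W E₀) (A : Artin W E)
    {ℓ₀ ℓ : ℕ} [Fact ℓ₀.Prime] [Fact ℓ.Prime] {e₀ : E₀.K ≃+* ℚ_[ℓ₀]} {e : E.K ≃+* ℚ_[ℓ]}
    (hX₀ : IsLadic (G₀.ρ X) G₀.χ e₀) (hX : IsLadic (G.ρ X) G.χ e)
    (hss₀ : ∀ i, SemisimpleAt G₀ X i)
    (hF : FrobeniusElements G₀ G X)
    (hTC₀ : ∀ n j c, IsTate G₀ (pw X n) j c → IsAlg E₀ (pw X n) j c) :
    [∀ n j c, IsTate G (pw X n) j c → IsAlg E (pw X n) j c,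
      ∀ c, IsTate G (pw X 1) X.dim c → IsAlg E (pw X 1) X.dim c,
      tateDim G (pw X 1) X.dim ≤ tateDim G₀ (pw X 1) X.dim].TFAE := by
  have h0 : tateDim G₀ (pw X 1) X.dim = finrank E.K (spanCycles E (pw X 1) (X.dim : ℤ)) := by
    rw [finrank_spanCycles A.toArtC, ← finrank_spanCycles A₀.toArtC]
    exact le_antisymm (tc_iff.1 (hTC₀ 1 X.dim)) (Submodule.finrank_mono (spanCycles_le_tate _ _))
  tfae_have 1 → 2 := fun h => h 1 X.dim
  tfae_have 2 → 1 := fun h n j c hc => isAlg_iff'.2 (tate_all hrat A₀.toArtC A.toArtC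
    (hasLogs' hX₀) (hasLogs' hX) hss₀ (fun n j c hc => isAlg_iff'.1 (hTC₀ n j c hc))
    (fun c hc => isAlg_iff'.1 (h c hc)) hF hc)
  tfae_have 2 ↔ 3 := by
    rw [h0]
    exact tc_iff
  tfae_finish

end Pool.Agent.Q50.LI
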