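import Pool.Agent.Q50.LI.FDefs

/-!
# Frobenius elements: auxiliary definitions
-/

open CategoryTheory AlgebraicGeometry TensorProduct

universe u w

namespace Pool.Agent.Q50.LI

open Pool.Agent.H914 Pool.Agent.H914.VarClass Pool.Agent.H914.VarClass.Obj
  Pool.Agent.H914.WeilCohomology
open Pool.Agent.Y133.Half
open Pool.Agent.Q55 (GaloisAction)
open Pool.Agent.Q50.MTC (IsTate)

variable {k : Type u} [Field k] {𝒱 : VarClass k} {ops : CycleOps 𝒱}
  {E₀ E : WeilCohomology.{u, 0} ops} {Γ : Type w} [Group Γ]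

/-- The action of `γ` on the cohomology of `Y`. -/
noncomputable def Ro (G : GaloisAction E Γ) (Y : 𝒱.Obj) (γ : Γ) : Module.End E.K (E.H Y) :=
  ((G.ρ Y).act γ).toLinearMap

/-- The endomorphism `e` of the cohomology of `Y` is given by the cycle `z` on `Y × Y`. -/
def IsCorr (E : WeilCohomology.{u, 0} ops) (Y : 𝒱.Obj) (z : (Y.prod Y).Cycles)
    (e : Module.End E.K (E.H Y)) : Prop :=
  ∀ a b, E.tr Y (e a * b) =
    E.tr (Y.prod Y) (E.cl (Y.prod Y) z * (E.map (fst Y Y) a * E.map (snd Y Y) b))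

/-- The endomorphism `s` is the multiplication by `(-1) ^ i` on the classes of degree `i`. -/
def IsSign (E : WeilCohomology.{u, 0} ops) (Y : 𝒱.Obj) (s : Module.End E.K (E.H Y)) : Prop :=
  ∀ i, ∀ x ∈ E.gr Y i, s x = (-1 : E.K) ^ i • x

/-- The alternating sum of the traces of `z ∘ g` on the spaces `H^i(Y)` is equal to `r`. -/
def AltTrace (E : WeilCohomology.{u, 0} ops) (Y : 𝒱.Obj) (z : (Y.prod Y).Cycles)
    (g : Module.End E.K (E.H Y)) (r : E.K) : Prop :=
  ∀ s e, IsSign E Y s → IsCorr E Y z e → LinearMap.trace E.K (E.H Y) (s * e * g) = r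

theorem altTr_iff {G : GaloisAction E Γ} {Y : 𝒱.Obj} {z : (Y.prod Y).Cycles} {γ : Γ} {m : ℕ}
    {r : E.K} : AltTr G Y z γ m r ↔ AltTrace E Y z (Ro G Y γ ^ m) r := Iff.rfl

end Pool.Agent.Q50.LI
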