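import Pool.Agent.Q50.MTC.Defs
import Pool.Agent.Y133.Half.Growth

/-!
# Frobenius elements: definitions

In the intended use `k` is an algebraic closure of a number field `F`, the varieties are the smooth
projective ones over `k`, `E₀` and `E` are the `ℓ₀`-adic and the `ℓ`-adic cohomology, and `Γ` is the
Galois group of `k` over `F`.
-/

open CategoryTheory AlgebraicGeometry TensorProduct

universe u w

namespace Pool.Agent.Q50.LI

open Pool.Agent.H914 Pool.Agent.H914.VarClass Pool.Agent.H914.VarClass.Obj
  Pool.Agent.H914.WeilCohomology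
open Pool.Agent.Y133.Half
open Pool.Agent.Q55 (GaloisAction SubAction)
open Pool.Agent.Q50.MTC (IsTate)

section Alg

variable {Γ : Type w} [Group Γ] {K A B : Type} [Field K] [Ring A] [Algebra K A] [Ring B]
  [Algebra K B]

/-- The endomorphism `s` is the multiplication by `(-1) ^ i` on `gr i`. -/
def SignOp (gr : ℕ → Submodule K A) (s : A →ₗ[K] A) : Prop :=
  ∀ i, ∀ x ∈ gr i, s x = (-1 : K) ^ i • x

/-- The endomorphism `e` is given by the correspondence `c`: we have
`tr (e a * b) = tr' (c * (p a * q b))`. -/
def CorrOp (tr : A →ₗ[K] K) (tr' : B →ₗ[K] K) (p q : A →ₐ[K] B) (c : B) (e : A →ₗ[K] A) : Prop :=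
  ∀ a b, tr (e a * b) = tr' (c * (p a * q b))

/-- The trace of the composition of the sign operator `s` (which makes it an alternating sum), of
the correspondence `e` and of the `m`-th power of `g` is equal to `r`. -/
def TraceEq (g : A →ₗ[K] A) (sgn cor : (A →ₗ[K] A) → Prop) (m : ℕ) (r : K) : Prop :=
  ∀ s e : Module.End K A, sgn s → cor e → LinearMap.trace K A (s * e * g ^ m) = r

/-- The endomorphism `Z` of `A` kills the form `v ↦ tr (c * ∏ p l (v l))`. -/
def KillsForm {m : ℕ} (tr : B →ₗ[K] K) (p : Fin m → (A →ₐ[K] B)) (Z : A →ₗ[K] A) (c : B) : Prop :=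
  ∀ v : Fin m → A, ∑ i, tr (c * (List.ofFn fun l => p l (Function.update v i (Z (v i)) l)).prod) = 0

/-- The Zariski closure of the group generated by `g` is a maximal torus of a group which is given
by the property `kill` of the endomorphisms: `g` is semisimple, and the endomorphisms `Z` with this
property which commute with a power of `g` are in the Lie algebra of the torus. That is, there is a
homomorphism `φ` from the multiplicative group of `ℂ` to the additive group such that `Z` is the
multiplication by `φ a - (i / 2) φ x` on the eigenspace of `g` for the eigenvalue `a` in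
`gr i`. -/
structure MaxTorusOp [Algebra K ℂ] (gr : ℕ → Submodule K A) (g : Module.End K A) (x : K)
    (kill : (A →ₗ[K] A) → Prop) : Prop where
  semisimple : g.IsSemisimple
  cent : ∀ (Z : Module.End K A) (n : ℕ), 0 < n → kill Z → Z * g ^ n = g ^ n * Z →
    ∃ φ : ℂ → ℂ, (∀ a b, a ≠ 0 → b ≠ 0 → φ (a * b) = φ a + φ b) ∧
      ∀ (i : ℕ) (a : ℂ) (y : ℂ ⊗[K] A), y ∈ (gr i).baseChange ℂ →
        g.baseChange ℂ y = a • y →
          Z.baseChange ℂ y = (φ a - i / 2 * φ (algebraMap K ℂ x)) • y

/-- The ring homomorphism `a` from the `K`-algebra `A` to the `L`-algebra `A'` identifies `A'` with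
the extension of the coefficients of `A`: it is linear, it respects the degrees, the orientations
are compatible up to the factor `c ^ d`, and the image of `a` spans `A'`. -/
structure ExtRing {L A' : Type} [Field L] [Algebra K L] [Ring A'] [Algebra L A']
    (gr : ℕ → Submodule K A) (gr' : ℕ → Submodule L A') (tr : A →ₗ[K] K) (tr' : A' →ₗ[L] L)
    (d : ℕ) (c : L) (a : A →+* A') : Prop where
  smul : ∀ (r : K) (x : A), a (r • x) = algebraMap K L r • a x
  gr : ∀ i, ∀ x ∈ gr i, a x ∈ gr' i
  tr : ∀ x, tr' (a x) = c ^ d * algebraMap K L (tr x)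
  span : Submodule.span L (Set.range a) = ⊤

/-- The homomorphisms `a` and `b` are compatible with the homomorphisms `f` and `f'`. -/
def Square {L A' B' : Type} [Field L] [Ring A'] [Algebra L A'] [Ring B'] [Algebra L B']
    (f : B →ₐ[K] A) (f' : B' →ₐ[L] A') (a : A →+* A') (b : B →+* B') : Prop :=
  ∀ y, a (f y) = f' (b y)

/-- The class `x` is mapped to the class `y`, up to the factor `c ^ j`. -/
def ClassEq {L A' : Type} [Field L] [Ring A'] [Algebra L A'] (a : A →+* A') (x : A) (y : A')
    (c : L) (j : ℕ) : Prop := a x = c ^ j • y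

/-- The dimension of the space spanned by the elements with the property `P`. -/
noncomputable def dimSpan (K : Type) {A : Type} [Field K] [Ring A] [Algebra K A] (P : A → Prop) :
    ℕ := Module.finrank K (Submodule.span K {c | P c})

end Alg

variable {k : Type u} [Field k] {𝒱 : VarClass k} {ops : CycleOps 𝒱}
  {E₀ E : WeilCohomology.{u, 0} ops} {Γ : Type w} [Group Γ]

/-- Artin's comparison between the rational cohomology `W` and the `ℓ`-adic cohomology `E`: ring
homomorphisms `a X : H(X) → H_ℓ(X)` which identify `H_ℓ(X)` with the extension of the coefficients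
of `H(X)` and which are compatible with the pull-backs and with the classes of the cycles, up to the
powers of a constant `c` (since the Tate twists are suppressed). -/
structure Artin (W E : WeilCohomology.{u, 0} ops) [Algebra W.K E.K] where
  /-- the ring homomorphisms -/
  a : ∀ X : 𝒱.Obj, W.H X →+* E.H X
  /-- the effect on the Tate twist -/
  c : E.K
  ne : c ≠ 0
  ext : ∀ X : 𝒱.Obj, ExtRing (W.gr X) (E.gr X) (W.tr X) (E.tr X) X.dim c (a X)
  map : ∀ (X Y : 𝒱.Obj) (f : X ⟶ Y), Square (W.map f) (E.map f) (a X) (a Y)
  cl : ∀ (X : 𝒱.Obj) (j : ℕ) (z : X.Cycles), X.IsCyc j z →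
    ClassEq (a X) (W.cl X z) (E.cl X z) c j

/-- The alternating sum of the traces of the composition of the cycle `z` on `Y × Y` and of `γ ^ m`
on the spaces `H^i(Y)` is equal to `r`. -/
def AltTr (G : GaloisAction E Γ) (Y : 𝒱.Obj) (z : (Y.prod Y).Cycles) (γ : Γ) (m : ℕ) (r : E.K) :
    Prop :=
  TraceEq ((G.ρ Y).act γ).toLinearMap (SignOp (E.gr Y))
    (CorrOp (E.tr Y) (E.tr (Y.prod Y)) (E.map (fst Y Y)) (E.map (snd Y Y)) (E.cl (Y.prod Y) z)) m r

/-- The trace formula for the cycle `z` on `Y × Y` and for the powers of `γ`: the alternating sums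
of the traces are rational numbers, and they are the same for `E₀` and `E`. -/
def TraceFormula (G₀ : GaloisAction E₀ Γ) (G : GaloisAction E Γ) (Y : 𝒱.Obj)
    (z : (Y.prod Y).Cycles) (γ : Γ) : Prop :=
  ∀ m : ℕ, ∃ q : ℚ, AltTr G₀ Y z γ m q ∧ AltTr G Y z γ m q

/-- The endomorphism `Z` of the cohomology of `X` kills the Tate classes on all powers of `X`. -/
def KillsTate (G : GaloisAction E Γ) (X : 𝒱.Obj) (Z : E.H X →ₗ[E.K] E.H X) : Prop :=
  ∀ (n j : ℕ) (c : E.H (pw X n)), IsTate G (pw X n) j c →
    KillsForm (E.tr (pw X n)) (fun l => E.map (prj X n l)) Z c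

/-- The Zariski closure of the group generated by `γ` is a maximal torus of the group which fixes
the Tate classes. -/
def MaxTorus (G : GaloisAction E Γ) [Algebra E.K ℂ] (X : 𝒱.Obj) (γ : Γ) : Prop :=
  MaxTorusOp (E.gr X) ((G.ρ X).act γ).toLinearMap (G.χ γ) (KillsTate G X)

/-- Frobenius elements. For finitely many varieties `Y` and cycles `z` of codimension `dim Y` on
`Y × Y`, and for every subgroup `Δ` of finite index, there is an element `γ` of `Δ` such that the
trace formula holds for all these `z`, the numbers `χ γ` are equal and rational, and `γ` generates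
a maximal torus.

This holds for the geometric Frobenius elements at suitable places of a finite extension of the
number field. Indeed, the trace formula holds at all places outside of a finite set, by the
theorem of Lefschetz and Grothendieck and specialisation of cycles, and `χ γ` is then the number of
elements of the residue field. By a theorem of Serre the Zariski closure of the group generated by
the Frobenius element is a maximal torus for a set of places of positive density. -/
def FrobeniusElements (G₀ : GaloisAction E₀ Γ) (G : GaloisAction E Γ) [Algebra E₀.K ℂ]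
    (X : 𝒱.Obj) : Prop :=
  ∀ S : List (Σ Y : 𝒱.Obj, (Y.prod Y).Cycles), (∀ p ∈ S, (p.1.prod p.1).IsCyc p.1.dim p.2) →
    ∀ Δ : Subgroup Γ, Δ.FiniteIndex → ∃ γ ∈ Δ,
      (∃ q : ℚ, (G₀.χ γ : E₀.K) = q ∧ (G.χ γ : E.K) = q) ∧
        (∀ p ∈ S, TraceFormula G₀ G p.1 p.2 γ) ∧ MaxTorus G₀ X γ

/-- The dimension of the space of Tate classes of codimension `j` on `Y`. -/
noncomputable def tateDim (G : GaloisAction E Γ) (Y : 𝒱.Obj) (j : ℕ) : ℕ :=
  dimSpan E.K (IsTate G Y j)

end Pool.Agent.Q50.LI
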