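import Pool.Agent.Q50.LI.Opp

/-!
# The independence of `ℓ` of the Tate conjecture for the powers of a variety
-/

open CategoryTheory AlgebraicGeometry TensorProduct

universe u w

set_option linter.unusedSectionVars false

namespace Pool.Agent.Q50.LI

open Module Pool.Agent.H204R3.SP Pool.Agent.W516.DR
open Pool.Agent.H914 Pool.Agent.H914.VarClass Pool.Agent.H914.VarClass.Obj
  Pool.Agent.H914.WeilCohomology
open Pool.Agent.Y133.Half Pool.Agent.Q50.FP Pool.Agent.W516.KC Pool.Agent.W516.KC2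
open Pool.Agent.Q55 (GaloisAction SubAction Virtually TateConj tatePred)
open Pool.Agent.Q60.TD (SemisimpleAt rep rep_apply exists_good act_one)

theorem neat_pow {C V : Type} [Field C] [IsAlgClosed C] [CharZero C] [AddCommGroup V] [Module C V]
    [FiniteDimensional C V] {g : Module.End C V} (h : Neat g) {M : ℕ} (hM : 0 < M) :
    Neat (g ^ M) := by
  rintro x y hx hy ⟨n, hn, hxy⟩
  obtain ⟨x, hx', rfl⟩ := gen_pow g _ hx
  obtain ⟨y, hy', rfl⟩ := gen_pow g _ hy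
  rw [← pow_mul, ← pow_mul] at hxy
  rw [h x y hx' hy' ⟨_, Nat.mul_pos hM hn, hxy⟩]

variable {k : Type u} [Field k] {𝒱 : VarClass k} {ops : CycleOps 𝒱}
  {W E E₀ : WeilCohomology.{u, 0} ops} {X Y : 𝒱.Obj} {n : ℕ} {Γ : Type w} [Group Γ]
  {G : GaloisAction E Γ} {G₀ : GaloisAction E₀ Γ}

/-- The two ways to write the fourth power. -/
theorem exists_iso (X : 𝒱.Obj) : ∃ (f : pw X 3 ⟶ pw (pw X 1) 1) (g : pw (pw X 1) 1 ⟶ pw X 3),
    g ≫ f = 𝟙 _ := by
  let e : Fin 2 × Fin 2 ≃ Fin 4 := finProdFinEquiv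
  refine ⟨liftN (pw X 1) 1 fun i => liftN X 1 fun j => prj X 3 (e (i, j)),
    liftN X 3 fun l => prj (pw X 1) 1 (e.symm l).1 ≫ prj X 1 (e.symm l).2, ?_⟩
  apply hom_ext_prj
  intro i
  rw [Category.assoc, liftN_prj, Category.id_comp]
  apply hom_ext_prj
  intro j
  rw [Category.assoc, liftN_prj, liftN_prj, Equiv.symm_apply_apply]

/-- The Tate conjecture for the square of the square. -/
theorem tc_sq {q : ℕ} (hTC : ∀ c, Pool.Agent.Q55.IsTate G (pw X 3) q c →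
      c ∈ spanCycles E (pw X 3) (q : ℤ)) :
    ∀ c, Pool.Agent.Q55.IsTate G (pw (pw X 1) 1) q c →
      c ∈ spanCycles E (pw (pw X 1) 1) (q : ℤ) := by
  intro c hc
  obtain ⟨f, g, hfg⟩ := exists_iso X
  have h1 := hTC _ ((tatePred G).map f hc)
  have h2 := spanCycles_map g h1
  have h3 : E.map g (E.map f c) = c := by rw [← E.map_comp, hfg, E.map_id]
  rwa [h3] at h2

section dim

variable [Algebra W.K E.K] (A : ArtC W E)

include A in
theorem finrank_H (Y : 𝒱.Obj) : finrank E.K (E.H Y) = finrank W.K (W.H Y) := by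
  rw [Module.finrank_eq_card_basis (bcA A Y).b', Fintype.card_fin]

include A in
theorem finrank_gp (X : 𝒱.Obj) : finrank E.K (gp E X) = finrank W.K (gp W X) := by
  rw [gp_ext A, (bcA A X).finrank_xs]

include A in
theorem finrank_dgp (X : 𝒱.Obj) : finrank E.K (der (gp E X)) = finrank W.K (der (gp W X)) := by
  rw [gp_ext A, (bcA A X).der_xs, (bcA A X).finrank_xs]

end dim

section main

variable [Algebra W.K E₀.K] [Algebra W.K E.K] [Algebra E₀.K ℂ] [Algebra E.K ℂ]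
  (hrat : ∀ r : W.K, ∃ q : ℚ, (q : W.K) = r) (A₀ : ArtC W E₀) (A : ArtC W E)

/-- The traces of all powers for the product with a projector. -/
theorem teq_all {w : Module.End W.K (W.H Y)} {γ : Γ} (h : TEq A₀ A G₀ G w γ)
    (hw : w * w = w) (h₀ : γ ∈ (G₀.ρ Y).dom) (h₁ : γ ∈ (G.ρ Y).dom) (N : ℕ)
    (hc₀ : A₀.ext w * Ro G₀ Y (γ ^ N) = Ro G₀ Y (γ ^ N) * A₀.ext w)
    (hc₁ : A.ext w * Ro G Y (γ ^ N) = Ro G Y (γ ^ N) * A.ext w) (m : ℕ) :
    algebraMap E₀.K ℂ (LinearMap.trace E₀.K (E₀.H Y) ((A₀.ext w * Ro G₀ Y (γ ^ N)) ^ m)) =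
      algebraMap E.K ℂ (LinearMap.trace E.K (E.H Y) ((A.ext w * Ro G Y (γ ^ N)) ^ m)) := by
  by_cases hm : m = 0
  · rw [hm, pow_zero, pow_zero, LinearMap.trace_one, LinearMap.trace_one, finrank_H A₀,
      finrank_H A, map_natCast, map_natCast]
  · rw [proj_pow hc₀ (by rw [← A₀.ext_mul, hw]) hm, proj_pow hc₁ (by rw [← A.ext_mul, hw]) hm,
      Ro_pow h₀, Ro_pow h₁, ← pow_mul, ← pow_mul]
    obtain ⟨q, h2, h3⟩ := h (N * m)
    rw [h2, h3, map_ratCast, map_ratCast]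

include hrat A₀ A in
/-- **The endomorphisms which kill the algebraic classes kill the Tate classes.** -/
theorem gp_le (hlog : HasLogs G X) (hss₀ : ∀ i, SemisimpleAt G₀ X i)
    (hTC₀ : ∀ n j c, Pool.Agent.Q55.IsTate G₀ (pw X n) j c →
      c ∈ spanCycles E₀ (pw X n) (j : ℤ))
    (hTC : ∀ c, Pool.Agent.Q55.IsTate G (pw X 1) X.dim c →
      c ∈ spanCycles E (pw X 1) (X.dim : ℤ))
    (hF : FrobeniusElements G₀ G X) : gp E X ≤ galp G X := by
  -- the degree projectors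
  have hp : ∀ i, ∃ S : List (Σ Y : 𝒱.Obj, (Y.prod Y).Cycles),
      (∀ p ∈ S, (p.1.prod p.1).IsCyc p.1.dim p.2) ∧
      ∀ γ : Γ, (∀ p ∈ S, TraceFormula G₀ G p.1 p.2 γ) → TEq A₀ A G₀ G (pE W X i) γ := by
    intro i
    refine exists_teq hrat A₀ A (hTC₀ 1 X.dim) ?_ ⟨⊤, inferInstance, fun s _ hs => ?_⟩
    · rw [ext_pE, pE_dg]
    · rw [ext_pE, pE_Ro hs]
  choose S hS hS' using hp
  -- the projector on the square
  have nd := gp_nondeg_W A₀ hTC₀ hss₀
  have nd₀ := gp_nondeg A₀ A₀ hTC₀ hss₀ (X := X)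
  have nd₁ := gp_nondeg A A₀ hTC₀ hss₀ (X := X)
  have cd₀ : ∀ Z ∈ kaS E₀ X, Z * dg E₀ X = dg E₀ X * Z := fun Z hZ => kaS_dg A₀ A₀ hTC₀ hZ
  have cd₁ : ∀ Z ∈ kaS E X, Z * dg E X = dg E X * Z := fun Z hZ => kaS_dg A A₀ hTC₀ hZ
  have br₀ := gp_br cd₀
  have br₁ := gp_br cd₁
  have e₀ : der (gp E₀ X) = (bcA A₀ X).xs (der (gp W X)) := by
    rw [gp_ext A₀, (bcA A₀ X).der_xs]
  have e₁ : der (gp E X) = (bcA A X).xs (der (gp W X)) := by
    rw [gp_ext A, (bcA A X).der_xs]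
  obtain ⟨Δ₁, hΔ₁, good₀⟩ := exists_gd G₀ X 1
  obtain ⟨Δ₂, hΔ₂, good₁⟩ := exists_gd G X 1
  obtain ⟨Δ₃, hΔ₃, stab₀⟩ := kaS_stab G₀ X
  obtain ⟨Δ₄, hΔ₄, stab₁⟩ := kaS_stab G X
  have ue₀ : A₀.ext (uu W X (der (gp W X)) nd) = uu E₀ X (der (gp E₀ X)) nd₀ := by
    have h1 := (bcA A₀ X).nondeg_xs nd
    have h2 := uu_ext A₀ nd h1
    rw [h2]
    congr 1
    exact e₀.symm
  have ue₁ : A.ext (uu W X (der (gp W X)) nd) = uu E X (der (gp E X)) nd₁ := by
    have h1 := (bcA A X).nondeg_xs nd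
    have h2 := uu_ext A nd h1
    rw [h2]
    congr 1
    exact e₁.symm
  have uc₀ : ∀ s ∈ Δ₁ ⊓ Δ₃, uu E₀ X (der (gp E₀ X)) nd₀ * Ro G₀ (pw X 1) s =
      Ro G₀ (pw X 1) s * uu E₀ X (der (gp E₀ X)) nd₀ := fun s hs =>
    uu_act (good₀ s hs.1) (Ro_inv (good₀ s hs.1).mem).1
      (fun z hz => der_conj (good₀ s hs.1).mem (stab₀ s hs.2).2 hz)
      (fun z hz => by
        have h1 := der_conj (s := s⁻¹) (inv_mem (good₀ s hs.1).mem)
          (stab₀ s⁻¹ (inv_mem hs.2)).2 hz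
        rwa [inv_inv] at h1)
  have uc₁ : ∀ s ∈ Δ₂ ⊓ Δ₄, uu E X (der (gp E X)) nd₁ * Ro G (pw X 1) s =
      Ro G (pw X 1) s * uu E X (der (gp E X)) nd₁ := fun s hs =>
    uu_act (good₁ s hs.1) (Ro_inv (good₁ s hs.1).mem).1
      (fun z hz => der_conj (good₁ s hs.1).mem (stab₁ s hs.2).2 hz)
      (fun z hz => by
        have h1 := der_conj (s := s⁻¹) (inv_mem (good₁ s hs.1).mem)
          (stab₁ s⁻¹ (inv_mem hs.2)).2 hz
        rwa [inv_inv] at h1)
  obtain ⟨S', hS₁, hS₂⟩ := exists_teq (Y := pw X 1) (G₀ := G₀) (G := G) hrat A₀ A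
    (tc_sq (hTC₀ 3 (pw X 1).dim))
    (w := uu W X (der (gp W X)) nd) (by
      rw [ue₀]
      refine uu_dg fun z hz => ?_
      rw [← gp_dg cd₀ (der_sub _ br₀ hz), sub_self]
      exact Submodule.zero_mem _) ⟨Δ₁ ⊓ Δ₃, inferInstance, fun s hs _ => by
        rw [ue₀]
        exact uc₀ s hs⟩
  -- the Frobenius element
  obtain ⟨γ, hγ, ⟨q, hq₀, hq₁⟩, htf, hmax⟩ := hF
    ((List.range (2 * X.dim + 1)).flatMap S ++ S') (by
      intro p hp
      rcases List.mem_append.1 hp with h | h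
      · obtain ⟨i, _, hi⟩ := List.mem_flatMap.1 h
        exact hS i p hi
      · exact hS₁ p h) ((Δ₁ ⊓ Δ₃) ⊓ (Δ₂ ⊓ Δ₄)) inferInstance
  have tp : ∀ i, i ≤ 2 * X.dim → TEq A₀ A G₀ G (pE W X i) γ := fun i hi =>
    hS' i γ fun p hp => htf p (List.mem_append_left _ (List.mem_flatMap.2
      ⟨i, List.mem_range.2 (by omega), hp⟩))
  have tu : TEq A₀ A G₀ G (uu W X (der (gp W X)) nd) γ := hS₂ γ fun p hp =>
    htf p (List.mem_append_right _ hp)
  have g₀ := good₀ γ hγ.1.1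
  have g₁ := good₁ γ hγ.2.1
  -- a neat power
  obtain ⟨N₀, hN₀, neat₀⟩ := exists_neat ((Ro G₀ X γ).baseChange ℂ)
  obtain ⟨N₁, hN₁, neat₁⟩ := exists_neat ((Ro G X γ).baseChange ℂ)
  set N := N₀ * N₁ with hNdef
  have hN : 0 < N := Nat.mul_pos hN₀ hN₁
  have n₀ : Neat ((Ro G₀ X (γ ^ N)).baseChange ℂ) := by
    have h1 := (bcE E₀ X).ext_pow (Ro G₀ X γ) N
    rw [Ro_pow g₀.mem, h1, hNdef, pow_mul]
    exact neat_pow neat₀ hN₁
  have n₁ : Neat ((Ro G X (γ ^ N)).baseChange ℂ) := by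
    have h1 := (bcE E X).ext_pow (Ro G X γ) N
    rw [Ro_pow g₁.mem, h1, hNdef, mul_comm N₀ N₁, pow_mul]
    exact neat_pow neat₁ hN₀
  have hs : γ ^ N ∈ (Δ₁ ⊓ Δ₃) ⊓ (Δ₂ ⊓ Δ₄) := pow_mem hγ N
  have s₀ := good₀ _ hs.1.1
  have s₁ := good₁ _ hs.2.1
  have hx : algebraMap E₀.K ℂ (G₀.χ (γ ^ N)) = algebraMap E.K ℂ (G.χ (γ ^ N)) := by
    rw [map_pow, map_pow, Units.val_pow_eq_pow_val, Units.val_pow_eq_pow_val, hq₀, hq₁, map_pow,
      map_pow, map_ratCast, map_ratCast]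
  -- the dimension of the centraliser in the derived algebra
  have ui : uu W X (der (gp W X)) nd * uu W X (der (gp W X)) nd = uu W X (der (gp W X)) nd :=
    uu_idem
  have dimc : finrank E₀.K (der (gp E₀ X) ⊓ (adj (Ro G₀ X (γ ^ N))).maxGenEigenspace 0 :
        Submodule E₀.K (Module.End E₀.K (E₀.H X))) =
      finrank E.K (der (gp E X) ⊓ (adj (Ro G X (γ ^ N))).maxGenEigenspace 0 :
        Submodule E.K (Module.End E.K (E.H X))) := by
    rw [← uu_gen (hD := nd₀) s₀ (Ro_inv s₀.mem).1 (Ro_inv s₀.mem).2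
      (fun z hz => der_conj s₀.mem (stab₀ _ hs.1.2).2 hz) (fun z hz => by
        have h1 := der_conj (s := (γ ^ N)⁻¹) (inv_mem s₀.mem) (stab₀ _ (inv_mem hs.1.2)).2 hz
        rwa [inv_inv] at h1),
      ← uu_gen (hD := nd₁) s₁ (Ro_inv s₁.mem).1 (Ro_inv s₁.mem).2
      (fun z hz => der_conj s₁.mem (stab₁ _ hs.2.2).2 hz) (fun z hz => by
        have h1 := der_conj (s := (γ ^ N)⁻¹) (inv_mem s₁.mem) (stab₁ _ (inv_mem hs.2.2)).2 hz
        rwa [inv_inv] at h1)]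
    refine mult_eqF (C := ℂ) (fun m => ?_) (by
      rw [map_pow (algebraMap E₀.K ℂ), map_pow (algebraMap E.K ℂ), hx])
    have h1 := teq_all A₀ A tu ui g₀.mem' g₁.mem' N (by rw [ue₀]; exact uc₀ _ hs.1)
      (by rw [ue₁]; exact uc₁ _ hs.2) m
    rw [ue₀, ue₁] at h1
    exact h1
  -- the centraliser of the torus
  have cent : ∀ Z ∈ (bcE E X).xs (gp E X), (∀ T ∈ torE G X (γ ^ N), T * Z = Z * T) →
      Z ∈ torE G X (γ ^ N) := by
    intro Z hZ hZ'
    refine cent_of_count (bcE E₀ X) (bcE E X) (dat s₀.mem) (dat s₁.mem) hx ?_ br₀ br₁ nd₀ nd₁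
      (by rw [finrank_gp A₀, finrank_gp A]) (by rw [finrank_dgp A₀, finrank_dgp A]) dimc
      ((torE_le s₀.mem).trans ((bcE E₀ X).xs_mono galp_le_gp))
      ((torE_le s₁.mem).trans ((bcE E X).xs_mono galp_le_gp)) n₀ n₁
      (ss_pow g₀.mem hmax.semisimple N) ?_ hZ hZ'
    · intro i m
      by_cases hi : i ≤ 2 * X.dim
      · have h1 := teq_all A₀ A (tp i hi) (LinearMap.ext fun x => proj_same _ (pE_mem i x))
          g₀.mem g₁.mem N (by rw [ext_pE, pE_Ro s₀.mem]) (by rw [ext_pE, pE_Ro s₁.mem]) m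
        rw [ext_pE, ext_pE] at h1
        exact h1
      · rw [pE_bot (by omega), pE_bot (by omega), zero_mul, zero_mul]
        by_cases hm : m = 0
        · rw [hm, pow_zero, pow_zero, LinearMap.trace_one, LinearMap.trace_one, finrank_H A₀,
            finrank_H A, map_natCast, map_natCast]
        · rw [zero_pow hm, zero_pow hm, map_zero, map_zero, map_zero, map_zero]
    · intro z hz hc
      rw [gp_eq_galp hTC₀] at hz
      exact mem_torE g₀.mem hmax hN hz hc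
  -- the conclusion
  obtain ⟨b, hb⟩ := (dat (G := G) (X := X) s₁.mem).tor_diag (bcE E X) (G.χ (γ ^ N) : E.K)
    (X.dim : ℂ)
  exact (bcE E X).xs_le_iff.1 (le_of_rank hb (torE_le s₁.mem)
    ((bcE E X).xs_mono galp_le_gp) ((bcE E X).xs_br galp_br) ((bcE E X).xs_br br₁) cent
    (crs_galp hb (torE_le s₁.mem) cd₁ nd₁ cent) (comm_galp hlog hTC))

include hrat A₀ A in
/-- **The Tate conjecture for all powers.** -/
theorem tate_all (hlog₀ : HasLogs G₀ X) (hlog : HasLogs G X)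
    (hss₀ : ∀ i, SemisimpleAt G₀ X i)
    (hTC₀ : ∀ n j c, Pool.Agent.Q55.IsTate G₀ (pw X n) j c →
      c ∈ spanCycles E₀ (pw X n) (j : ℤ))
    (hTC : ∀ c, Pool.Agent.Q55.IsTate G (pw X 1) X.dim c →
      c ∈ spanCycles E (pw X 1) (X.dim : ℤ))
    (hF : FrobeniusElements G₀ G X) {n j : ℕ} {c : E.H (pw X n)}
    (hc : Pool.Agent.Q55.IsTate G (pw X n) j c) : c ∈ spanCycles E (pw X n) (j : ℤ) := by
  by_cases hj : j ≤ (pw X n).dim
  swap
  · have h3 : c ∈ E.gr (pw X n) (2 * j) := hc.1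
    rw [E.gr_eq_bot _ _ (by omega), Submodule.mem_bot] at h3
    rw [h3]
    exact Submodule.zero_mem _
  set M := (pw X n).dim - j with hM
  have hMj : M + j = (pw X n).dim := by omega
  have hle := gp_le hrat A₀ A hlog hss₀ hTC₀ hTC hF
  have hT := tform_of_tate hMj hc
  -- the operators
  have h1 : ∀ Z ∈ kaS W X, Kills (A.ext Z) (frm E X n c) := by
    intro Z hZ
    have h2 : A.ext Z ∈ kaS E X := by
      rw [kaS_ext A]
      exact (bcA A X).ext_mem hZ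
    refine gal_of_galp (hle (Submodule.mem_sup_left h2)) ?_ n M _ hT
    intro x
    have h3 := mem_kaS.1 h2 0 0 (pw X 0).V.fundCycle (SmVar.fundCycle_mem _) (fun _ => x)
    rw [Fin.sum_univ_one, E.cl_fund, frm_apply, one_mul, mpr_apply, List.ofFn_succ,
      List.ofFn_zero, List.prod_singleton, Function.update_self] at h3
    rw [← h3]
    exact (congrArg _ (E.map_id X (A.ext Z x))).symm
  let d' : W.K := 2 * M / (n + 1)
  have hn : ((n : W.K) + 1) ≠ 0 := Nat.cast_add_one_ne_zero n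
  have hn' : ((n : E.K) + 1) ≠ 0 := Nat.cast_add_one_ne_zero n
  have h2 : Kills (A.ext (dg W X - d' • 1)) (frm E X n c) := by
    have h3 : A.ext (dg W X - d' • (1 : Module.End W.K (W.H X))) =
        dg E X - (2 * M / (n + 1) : E.K) • (1 : Module.End E.K (E.H X)) := by
      rw [(bcA A X).ext_sub, (bcA A X).ext_smul, (bcA A X).ext_one, ext_dg]
      congr 2
      change algebraMap W.K E.K (2 * M / (n + 1)) = _
      rw [map_div₀, map_mul, map_add, map_natCast, map_natCast, map_one, map_ofNat]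
    rw [h3]
    intro v
    rw [sum_sub_smul, sum_one, hT.1, Fintype.card_fin]
    push_cast
    field_simp
    ring
  let y : Option (kaS W X) → Module.End W.K (W.H X) := fun o =>
    o.elim (dg W X - d' • 1) fun Z => Z.1
  have h3 := A.mem_span y (c := c) (by
    intro o
    cases o with
    | none => exact h2
    | some Z => exact h1 Z.1 Z.2)
  refine (Submodule.span_le.2 ?_) h3
  rintro _ ⟨c', hc', rfl⟩
  -- the rational class
  have h4 : ∀ Z ∈ kaS W X, Kills Z (frm W X n c') := fun Z hZ => hc' (some ⟨Z, hZ⟩)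
  have h5 : Kills (dg W X - d' • 1) (frm W X n c') := hc' none
  have h6 : c' ∈ W.gr (pw X n) (2 * j) := by
    refine (frm_dg_iff hMj).1 fun v => ?_
    have h7 := h5 v
    rw [sum_sub_smul, sum_one, Fintype.card_fin] at h7
    have h8 : d' * ((n + 1 : ℕ) * frm W X n c' v) = 2 * M * frm W X n c' v := by
      change (2 * M / (n + 1) : W.K) * _ = _
      push_cast
      field_simp
    rw [h8, sub_eq_zero] at h7
    exact h7
  have h7 : Pool.Agent.Q55.IsTate G₀ (pw X n) j (A₀.a _ c') := by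
    refine tate_of_tform hMj (tform_of_kills hlog₀ ?_ fun D hD => ?_)
    · exact (frm_dg_iff hMj).2 (A₀.gr _ _ _ h6)
    · refine ((bcA A₀ X).kills_iff (φ := frm W X n c') (A₀.cne (pw X n).dim)
        (fun v => A₀.a_frm c' v)).2 fun ν => h4 _ ?_
      have h8 := gal_le_kaS hD
      rw [kaS_ext A₀] at h8
      exact (bcA A₀ X).mem_xs.1 h8 ν
  exact a_spanCycles A (descend A₀ (hTC₀ n j _ h7))

end main

end Pool.Agent.Q50.LI
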