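import Pool.Agent.Q50.LI.Rt
import Pool.Agent.Y121.AH.Gop
import Pool.Agent.H204R3.SP.Tate

/-!
# The torus of an operator

Let `g` be an invertible operator of a complex vector space. For every additive character `φ` of the
multiplicative group there is the operator which is the multiplication by `φ (a)` on the generalised
eigenspace of `g` for the eigenvalue `a`. It kills the multilinear forms which are invariant under a
power of `g`.
-/

set_option linter.unusedSectionVars false

namespace Pool.Agent.Q50.LI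

open Module Pool.Agent.Y121.AH Pool.Agent.H204R3.SP

noncomputable section

variable {C V : Type} [Field C] [IsAlgClosed C] [CharZero C] [AddCommGroup V] [Module C V]
  [FiniteDimensional C V]

open Classical in
theorem gint (g : Module.End C V) :
    DirectSum.IsInternal fun a : C => g.maxGenEigenspace a :=
  DirectSum.isInternal_submodule_of_iSupIndep_of_iSup_eq_top g.independent_maxGenEigenspace
    (Module.End.iSup_maxGenEigenspace_eq_top g)

open Classical in
/-- The operator which is the multiplication by `φ a` on the generalised eigenspace for `a`. -/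
def fd (g : Module.End C V) (φ : C → C) : Module.End C V := dia (gint g) φ

theorem fd_apply {g : Module.End C V} (φ : C → C) {a : C} {x : V}
    (hx : x ∈ g.maxGenEigenspace a) : fd g φ x = φ a • x := by
  classical
  exact dia_apply (gint g) φ hx

theorem g_ind (g : Module.End C V) {p : V → Prop} (h : ∀ a, ∀ x ∈ g.maxGenEigenspace a, p x)
    (hadd : ∀ x y, p x → p y → p (x + y)) (x : V) : p x :=
  ind_of_top (Module.End.iSup_maxGenEigenspace_eq_top g) h hadd (h 0 0 (Submodule.zero_mem _)) x

theorem fd_comm {g P : Module.End C V} (h : g * P = P * g) (φ : C → C) :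
    fd g φ * P = P * fd g φ := by
  refine LinearMap.ext fun x => ?_
  refine g_ind g (p := fun x => (fd g φ * P) x = (P * fd g φ) x) ?_ ?_ x
  · intro a x hx
    have h1 : P x ∈ g.maxGenEigenspace a :=
      Module.End.mapsTo_maxGenEigenspace_of_comm h a hx
    rw [Module.End.mul_apply, Module.End.mul_apply, fd_apply φ hx, fd_apply φ h1, map_smul]
  · intro x y hx hy
    rw [map_add, map_add, hx, hy]

variable (C) in
/-- The additive characters of the multiplicative group. -/
def Chr : Submodule C (C → C) where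
  carrier := {φ | ∀ a b, a ≠ 0 → b ≠ 0 → φ (a * b) = φ a + φ b}
  zero_mem' := fun a b _ _ => by
    change (0 : C) = 0 + 0
    rw [add_zero]
  add_mem' := fun {φ ψ} hφ hψ a b ha hb => by
    change φ (a * b) + ψ (a * b) = φ a + ψ a + (φ b + ψ b)
    rw [hφ a b ha hb, hψ a b ha hb]
    ring
  smul_mem' := fun r φ hφ a b ha hb => by
    change r * φ (a * b) = r * φ a + r * φ b
    rw [hφ a b ha hb, mul_add]

theorem chr_one {φ : C → C} (hφ : φ ∈ Chr C) : φ 1 = 0 := by
  have h1 := hφ 1 1 one_ne_zero one_ne_zero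
  rw [mul_one] at h1
  linear_combination -h1

theorem chr_pow {φ : C → C} (hφ : φ ∈ Chr C) {a : C} (ha : a ≠ 0) (n : ℕ) :
    φ (a ^ n) = n * φ a := by
  induction n with
  | zero => rw [pow_zero, chr_one hφ, Nat.cast_zero, zero_mul]
  | succ n ih =>
    rw [pow_succ, hφ _ _ (pow_ne_zero _ ha) ha, ih]
    push_cast
    ring

theorem chr_prod {φ : C → C} (hφ : φ ∈ Chr C) {κ : Type*} (s : Finset κ) {a : κ → C}
    (ha : ∀ j, a j ≠ 0) : φ (∏ j ∈ s, a j) = ∑ j ∈ s, φ (a j) := by
  classical
  induction s using Finset.induction_on with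
  | empty => rw [Finset.prod_empty, Finset.sum_empty, chr_one hφ]
  | insert j s hj ih =>
    rw [Finset.prod_insert hj, Finset.sum_insert hj, hφ _ _ (ha j)
      (Finset.prod_ne_zero_iff.2 fun i _ => ha i), ih]

/-- Characters separate the points which are not torsion. -/
theorem exists_chr {a : C} (ha : a ≠ 0) (h : ∀ n : ℕ, 0 < n → a ^ n ≠ 1) :
    ∃ φ ∈ Chr C, φ a ≠ 0 := by
  let _ : DivisibleBy C ℤ := inferInstance
  have hinj : Module.Injective ℤ C := (Module.Baer.of_divisible C).injective
  let u : Cˣ := Units.mk0 a ha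
  let f : ℤ →ₗ[ℤ] Additive Cˣ := LinearMap.toSpanSingleton ℤ (Additive Cˣ) (Additive.ofMul u)
  have hf : Function.Injective f := by
    rw [← LinearMap.ker_eq_bot, LinearMap.ker_eq_bot']
    intro n hn
    have h1 : u ^ n = 1 := hn
    by_contra h0
    have h2 : u ^ n.natAbs = 1 := by
      rcases Int.natAbs_eq n with h3 | h3
      · rw [h3, zpow_natCast] at h1
        exact h1
      · rw [h3, zpow_neg, zpow_natCast, inv_eq_one] at h1
        exact h1
    refine h n.natAbs (Int.natAbs_pos.2 h0) ?_
    have h3 := congrArg Units.val h2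
    rwa [Units.val_pow_eq_pow_val, Units.val_one] at h3
  obtain ⟨ψ, hψ⟩ := hinj.out f hf (LinearMap.toSpanSingleton ℤ C 1)
  classical
  refine ⟨fun z => if hz : z = 0 then 0 else ψ (Additive.ofMul (Units.mk0 z hz)), ?_, ?_⟩
  · intro x y hx hy
    change (if hz : x * y = 0 then 0 else ψ (Additive.ofMul (Units.mk0 (x * y) hz))) =
      (if hz : x = 0 then 0 else ψ (Additive.ofMul (Units.mk0 x hz))) +
        (if hz : y = 0 then 0 else ψ (Additive.ofMul (Units.mk0 y hz)))
    rw [dif_neg (mul_ne_zero hx hy), dif_neg hx, dif_neg hy, ← map_add]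
    congr 1
    exact congrArg Additive.ofMul (Units.mk0_mul x y (mul_ne_zero hx hy))
  · change (if hz : a = 0 then 0 else ψ (Additive.ofMul (Units.mk0 a hz))) ≠ 0
    rw [dif_neg ha]
    have h1 := hψ 1
    have h2 : f 1 = Additive.ofMul u := LinearMap.toSpanSingleton_apply_one ..
    have h3 : LinearMap.toSpanSingleton ℤ C (1 : C) 1 = 1 := LinearMap.toSpanSingleton_apply_one ..
    rw [h2, h3] at h1
    rw [h1]
    exact one_ne_zero

/-- The elements of the Lie algebra of the torus: the operators which are the multiplication by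
`φ (a) - φ (x) ν / 2 + r (ν - d)` on the space for the eigenvalue `a` of `g` and `ν` of `N`. -/
def tmap (g N : Module.End C V) (x d : C) : (Chr C × C) →ₗ[C] Module.End C V where
  toFun p := fd g p.1.1 - (p.1.1 x / 2) • N + p.2 • (N - d • 1)
  map_add' p q := by
    have h1 : fd g (p.1.1 + q.1.1) = fd g p.1.1 + fd g q.1.1 := by
      refine LinearMap.ext fun v => ?_
      refine g_ind g (p := fun v => fd g (p.1.1 + q.1.1) v = (fd g p.1.1 + fd g q.1.1) v) ?_ ?_ v
      · intro a v hv
        rw [LinearMap.add_apply, fd_apply _ hv, fd_apply _ hv, fd_apply _ hv, ← add_smul]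
        rfl
      · intro u v hu hv
        rw [map_add, map_add, hu, hv]
    change fd g (p.1.1 + q.1.1) - ((p.1.1 x + q.1.1 x) / 2) • N + (p.2 + q.2) • (N - d • 1) = _
    rw [h1, add_div, add_smul, add_smul]
    abel
  map_smul' r p := by
    have h1 : fd g (r • p.1.1) = r • fd g p.1.1 := by
      refine LinearMap.ext fun v => ?_
      refine g_ind g (p := fun v => fd g (r • p.1.1) v = (r • fd g p.1.1) v) ?_ ?_ v
      · intro a v hv
        rw [LinearMap.smul_apply, fd_apply _ hv, fd_apply _ hv, smul_smul]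
        rfl
      · intro u v hu hv
        rw [map_add, map_add, hu, hv]
    change fd g (r • p.1.1) - ((r * p.1.1 x) / 2) • N + (r * p.2) • (N - d • 1) =
      r • (fd g p.1.1 - (p.1.1 x / 2) • N + p.2 • (N - d • 1))
    rw [h1]
    module

theorem tmap_apply (g N : Module.End C V) (x d : C) (p : Chr C × C) :
    tmap g N x d p = fd g p.1.1 - (p.1.1 x / 2) • N + p.2 • (N - d • 1) := rfl

/-- The value on a vector. -/
theorem tmap_vec {g N : Module.End C V} {x d a ν : C} {v : V} (hv : v ∈ g.maxGenEigenspace a)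
    (hN : N v = ν • v) (p : Chr C × C) :
    tmap g N x d p v = (p.1.1 a - p.1.1 x / 2 * ν + p.2 * (ν - d)) • v := by
  rw [tmap_apply, LinearMap.add_apply, LinearMap.sub_apply, LinearMap.smul_apply,
    LinearMap.smul_apply, LinearMap.sub_apply, LinearMap.smul_apply, Module.End.one_apply, hN,
    fd_apply _ hv, smul_smul, ← sub_smul, ← sub_smul, smul_smul, ← add_smul]

/-- There is a basis of homogeneous generalised eigenvectors. -/
theorem exists_wbasis (g : Module.End C V) {gr : ℕ → Submodule C V} (htop : ⨆ i, gr i = ⊤)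
    (hg : ∀ i, ∀ x ∈ gr i, g x ∈ gr i) :
    ∃ (b : Basis (Fin (finrank C V)) C V) (l : Fin (finrank C V) → C)
      (n : Fin (finrank C V) → ℕ), ∀ i, b i ∈ g.maxGenEigenspace (l i) ∧ b i ∈ gr (n i) := by
  let s : Set V := {v | ∃ (a : C) (i : ℕ), v ∈ g.maxGenEigenspace a ∧ v ∈ gr i}
  have hs : ⊤ ≤ Submodule.span C s := by
    rw [← htop]
    refine iSup_le fun i => ?_
    have h1 := Submodule.inf_iSup_genEigenspace (hg i) ⊤
    have h2 : (⨆ μ, g.genEigenspace μ ⊤) = ⊤ := Module.End.iSup_maxGenEigenspace_eq_top g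
    rw [h2, inf_top_eq] at h1
    rw [h1]
    exact iSup_le fun μ => fun v hv => Submodule.subset_span ⟨μ, i, hv.2, hv.1⟩
  let b₀ := Module.Basis.ofSpan hs
  let b := b₀.reindex (b₀.indexEquiv (Module.finBasis C V))
  have hb : ∀ i, b i ∈ s := by
    intro i
    rw [Basis.reindex_apply]
    exact Module.Basis.ofSpan_subset hs ⟨_, rfl⟩
  choose l n hln using hb
  exact ⟨b, l, n, hln⟩

/-- The form vanishes on generalised eigenvectors unless the product of the eigenvalues is `c`. -/
theorem form_eq_zero {κ : Type} [Fintype κ] [DecidableEq κ]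
    {Φ : MultilinearMap C (fun _ : κ => V) C} {G : Module.End C V} {c : C}
    (h : ∀ v, Φ (fun j => G (v j)) = c * Φ v) {μ : κ → C} (hμ : ∏ j, μ j ≠ c) (m : ℕ) :
    ∀ (n : κ → ℕ), ∑ j, n j = m → ∀ v : κ → V,
      (∀ j, ((G - μ j • (1 : Module.End C V)) ^ n j) (v j) = 0) → Φ v = 0 := by
  induction m using Nat.strong_induction_on with
  | _ m ih =>
    intro n hn v hv
    by_cases h0 : ∃ j, n j = 0
    · obtain ⟨j, hj⟩ := h0
      have h1 := hv j
      rw [hj, pow_zero, Module.End.one_apply] at h1
      exact Φ.map_coord_zero j h1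
    push Not at h0
    have hG : (fun j => G (v j)) =
        (fun j => μ j • v j) + fun j => (G - μ j • (1 : Module.End C V)) (v j) := by
      funext j
      rw [Pi.add_apply, LinearMap.sub_apply, LinearMap.smul_apply, Module.End.one_apply]
      abel
    have h1 := h v
    rw [hG, MultilinearMap.map_add_univ, Finset.sum_eq_single Finset.univ] at h1
    · rw [Finset.piecewise_univ, MultilinearMap.map_smul_univ, smul_eq_mul] at h1
      have h2 : (∏ j, μ j - c) * Φ v = 0 := by linear_combination h1
      exact (mul_eq_zero.1 h2).resolve_left (sub_ne_zero.2 hμ)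
    · intro s _ hs
      obtain ⟨j₀, hj₀⟩ : ∃ j, j ∉ s := by
        by_contra hcon
        push Not at hcon
        exact hs (Finset.eq_univ_iff_forall.2 hcon)
      have hlt : ∑ j, (if j ∈ s then n j else n j - 1) < m := by
        rw [← hn]
        refine Finset.sum_lt_sum (fun j _ => ?_) ⟨j₀, Finset.mem_univ _, ?_⟩
        · split_ifs
          · exact le_rfl
          · exact Nat.sub_le _ _
        · rw [if_neg hj₀]
          have := h0 j₀
          omega
      refine ih _ hlt _ rfl _ fun j => ?_
      by_cases hj : j ∈ s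
      · rw [if_pos hj, Finset.piecewise_eq_of_mem _ _ _ hj, map_smul, hv, smul_zero]
      · rw [if_neg hj, Finset.piecewise_eq_of_notMem _ _ _ hj, ← Module.End.mul_apply, ← pow_succ]
        have h2 : n j - 1 + 1 = n j := by
          have := h0 j
          omega
        rw [h2, hv]
    · intro h2
      exact absurd (Finset.mem_univ _) h2

theorem mem_gen_pow {g : Module.End C V} {a : C} {v : V} (hv : v ∈ g.maxGenEigenspace a)
    (m : ℕ) : v ∈ (g ^ m).maxGenEigenspace (a ^ m) := by
  rw [Module.End.mem_maxGenEigenspace] at hv ⊢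
  obtain ⟨k, hk⟩ := hv
  refine ⟨k, ?_⟩
  have hc : Commute g (a • (1 : Module.End C V)) := (Commute.one_right g).smul_right a
  obtain ⟨Q, hQ⟩ : ∃ Q : Module.End C V, g ^ m - a ^ m • (1 : Module.End C V) =
      Q * (g - a • (1 : Module.End C V)) ∧ Commute Q (g - a • (1 : Module.End C V)) := by
    refine ⟨∑ i ∈ Finset.range m, g ^ i * (a • (1 : Module.End C V)) ^ (m - 1 - i), ?_, ?_⟩
    · rw [hc.geom_sum₂_mul, smul_pow, one_pow]
    · refine Commute.sum_left _ _ _ fun i _ => ?_
      exact ((Commute.refl g).pow_left i |>.sub_right (hc.pow_left i)).mul_left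
        ((hc.symm.pow_left _).sub_right ((Commute.refl _).pow_left _))
  rw [hQ.1, hQ.2.mul_pow, Module.End.mul_apply, hk, map_zero]

/-- **The operators of the torus kill the forms which are invariant under a power of `g`.** -/
theorem kills_tmap {κ : Type} [Fintype κ] [DecidableEq κ]
    {Φ : MultilinearMap C (fun _ : κ => V) C} {g N : Module.End C V} {x : C} (hx : x ≠ 0)
    (hg0 : Function.Injective g) {M m : ℕ} (hm : 0 < m)
    (hN : ∀ v, ∑ j, Φ (Function.update v j (N (v j))) = 2 * M * Φ v)
    (hΦ : ∀ v, Φ (fun j => (g ^ m) (v j)) = (x ^ m) ^ M * Φ v) {φ : C → C} (hφ : φ ∈ Chr C) :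
    Kills (fd g φ - (φ x / 2) • N) Φ := by
  obtain ⟨b, l, n₀, hb⟩ := exists_wbasis g (gr := fun i => if i = 0 then ⊤ else ⊥)
    (eq_top_iff.2 (le_iSup_of_le 0 (by rw [if_pos rfl]))) (fun i v hv => by
      by_cases hi : i = 0
      · rw [if_pos hi]
        trivial
      · rw [if_neg hi] at hv ⊢
        rw [(Submodule.mem_bot C).1 hv, map_zero]
        exact Submodule.zero_mem _)
  have hl0 : ∀ i, l i ≠ 0 := by
    intro i h0
    have h1 := (hb i).1
    rw [h0, Module.End.mem_maxGenEigenspace] at h1
    obtain ⟨k, hk⟩ := h1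
    rw [zero_smul, sub_zero] at hk
    have h2 : Function.Injective (g ^ k) := by
      rw [Module.End.coe_pow]
      exact hg0.iterate k
    exact b.ne_zero i (h2 (hk.trans (map_zero _).symm))
  refine kills_of_basis b _ _ fun I => ?_
  set v : κ → V := fun j => b (I j) with hv
  have h1 : ∀ j, Φ (Function.update v j ((fd g φ - (φ x / 2) • N) (v j))) =
      φ (l (I j)) * Φ v - (φ x / 2) * Φ (Function.update v j (N (v j))) := by
    intro j
    rw [LinearMap.sub_apply, LinearMap.smul_apply, fd_apply φ (hb (I j)).1,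
      MultilinearMap.map_update_sub, MultilinearMap.map_update_smul,
      MultilinearMap.map_update_smul, smul_eq_mul, smul_eq_mul, Function.update_eq_self]
  rw [Finset.sum_congr rfl fun j _ => h1 j, Finset.sum_sub_distrib, ← Finset.sum_mul,
    ← Finset.mul_sum, hN]
  by_cases hΦ0 : Φ v = 0
  · rw [hΦ0]
    ring
  have h2 : ∏ j, l (I j) ^ m = (x ^ m) ^ M := by
    by_contra hne
    choose n hn using fun j => (Module.End.mem_maxGenEigenspace _ _ _).1
      (mem_gen_pow (hb (I j)).1 m)
    exact hΦ0 (form_eq_zero hΦ hne _ n rfl v hn)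
  have h3 := congrArg φ h2
  rw [Finset.prod_pow, chr_pow hφ (Finset.prod_ne_zero_iff.2 fun j _ => hl0 _),
    chr_prod hφ _ (fun j => hl0 (I j)), chr_pow hφ (pow_ne_zero _ hx), chr_pow hφ hx] at h3
  have h4 : (m : C) ≠ 0 := Nat.cast_ne_zero.2 hm.ne'
  have h5 : ∑ j, φ (l (I j)) = M * φ x := by
    apply mul_left_cancel₀ h4
    rw [h3]
    ring
  rw [h5]
  ring

end

end Pool.Agent.Q50.LI
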