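import Pool.Agent.Q50.LI.TrE
import Pool.Agent.W516.RankTwo

/-!
# The Lie algebra which kills the algebraic classes
-/

open CategoryTheory AlgebraicGeometry TensorProduct

universe u w

set_option linter.unusedSectionVars false

namespace Pool.Agent.Q50.LI

open Module Pool.Agent.H204R3.SP Pool.Agent.W516.DR
open Pool.Agent.H914 Pool.Agent.H914.VarClass Pool.Agent.H914.VarClass.Obj
  Pool.Agent.H914.WeilCohomology
open Pool.Agent.Y133.Half Pool.Agent.Q50.FP Pool.Agent.W516.KC Pool.Agent.W516.KC2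
open Pool.Agent.Q55 (GaloisAction SubAction Virtually TateConj tatePred)
open Pool.Agent.Q60.TD (SemisimpleAt rep rep_apply exists_good act_one)

variable {k : Type u} [Field k] {𝒱 : VarClass k} {ops : CycleOps 𝒱}
  {W E E₀ : WeilCohomology.{u, 0} ops} {X Y : 𝒱.Obj} {n : ℕ} {Γ : Type w} [Group Γ]
  {G : GaloisAction E Γ}

/-- The endomorphisms which kill the form. -/
def kilS {K V : Type*} [Field K] [AddCommGroup V] [Module K V] {κ : Type*} [Fintype κ]
    [DecidableEq κ] (φ : MultilinearMap K (fun _ : κ => V) K) :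
    Submodule K (Module.End K V) where
  carrier := {Z | Kills Z φ}
  zero_mem' := by
    intro v
    refine Finset.sum_eq_zero fun k _ => ?_
    rw [LinearMap.zero_apply]
    exact φ.map_coord_zero k (Function.update_self _ _ _)
  add_mem' := by
    intro A B hA hB v
    have h3 := congrArg₂ (fun x y : K => x + y) (hA v) (hB v)
    simp only [add_zero] at h3
    rw [← h3, ← Finset.sum_add_distrib]
    refine Finset.sum_congr rfl fun k _ => ?_
    rw [LinearMap.add_apply, MultilinearMap.map_update_add]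
  smul_mem' := by
    intro c A hA v
    rw [← mul_zero c, ← hA v, Finset.mul_sum]
    refine Finset.sum_congr rfl fun k _ => ?_
    rw [LinearMap.smul_apply, MultilinearMap.map_update_smul, smul_eq_mul]

theorem mem_kilS {K V : Type*} [Field K] [AddCommGroup V] [Module K V] {κ : Type*} [Fintype κ]
    [DecidableEq κ] {φ : MultilinearMap K (fun _ : κ => V) K} {Z : Module.End K V} :
    Z ∈ kilS φ ↔ Kills Z φ := Iff.rfl

/-- The cycles on the powers of `X`. -/
def Cy (X : 𝒱.Obj) : Type _ := {p : (Σ n : ℕ, (pw X n).Cycles) × ℕ // (pw X p.1.1).IsCyc p.2 p.1.2}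

/-- The Lie algebra which kills the algebraic classes. -/
noncomputable def kaS (E : WeilCohomology.{u, 0} ops) (X : 𝒱.Obj) :
    Submodule E.K (Module.End E.K (E.H X)) :=
  ⨅ p : Cy X, kilS (frm E X p.1.1.1 (E.cl _ p.1.1.2))

theorem mem_kaS {Z : Module.End E.K (E.H X)} : Z ∈ kaS E X ↔ KillsAlg E X Z := by
  unfold kaS
  rw [Submodule.mem_iInf]
  constructor
  · intro h n j z hz
    exact h ⟨(⟨n, z⟩, j), hz⟩
  · rintro h ⟨⟨⟨n, z⟩, j⟩, hz⟩
    exact h n j z hz

theorem kaS_br : ∀ Z ∈ kaS E X, ∀ Y ∈ kaS E X, Z * Y - Y * Z ∈ kaS E X := by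
  intro Z hZ Y hY
  rw [mem_kaS] at hZ hY ⊢
  exact fun n j z hz => kills_bracket (hZ n j z hz) (hY n j z hz)

/-- Finitely many elements of a family of subspaces have the same intersection. -/
theorem exists_finset {K V ι : Type*} [Field K] [AddCommGroup V] [Module K V]
    [FiniteDimensional K V] (U : ι → Submodule K V) :
    ∃ S : Finset ι, ∀ v, (∀ i ∈ S, v ∈ U i) → ∀ i, v ∈ U i := by
  classical
  have hex : ∃ m, ∃ S : Finset ι, finrank K (⨅ i ∈ S, U i : Submodule K V) = m :=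
    ⟨_, ∅, rfl⟩
  obtain ⟨S, hS⟩ := Nat.find_spec hex
  refine ⟨S, fun v hv i => ?_⟩
  have h1 : (⨅ j ∈ insert i S, U j : Submodule K V) ≤ ⨅ j ∈ S, U j :=
    biInf_mono fun j hj => Finset.mem_insert_of_mem hj
  have h2 : finrank K (⨅ j ∈ S, U j : Submodule K V) ≤
      finrank K (⨅ j ∈ insert i S, U j : Submodule K V) := by
    rw [hS]
    exact Nat.find_min' hex ⟨_, rfl⟩
  have h3 := Submodule.eq_of_le_of_finrank_le h1 h2
  have h4 : v ∈ (⨅ j ∈ S, U j : Submodule K V) := by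
    rw [Submodule.mem_iInf]
    intro j
    rw [Submodule.mem_iInf]
    exact hv j
  rw [← h3, Submodule.mem_iInf] at h4
  have h5 := h4 i
  rw [Submodule.mem_iInf] at h5
  exact h5 (Finset.mem_insert_self _ _)

/-- Operators on forms. -/
theorem kills_conj {K V : Type*} [Field K] [AddCommGroup V] [Module K V] {κ : Type*} [Fintype κ]
    [DecidableEq κ] {φ : MultilinearMap K (fun _ : κ => V) K} {g g' Z : Module.End K V}
    (hg : g * g' = 1) {r : K}
    (h : ∀ v, φ (fun j => g (v j)) = r * φ v) (hZ : Kills Z φ) : Kills (g * Z * g') φ := by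
  intro v
  have h1 : ∀ u : V, g (g' u) = u := fun u => by
    rw [← Module.End.mul_apply, hg, Module.End.one_apply]
  have h2 : ∀ j, φ (Function.update v j ((g * Z * g') (v j))) =
      r * φ (Function.update (fun l => g' (v l)) j (Z (g' (v j)))) := by
    intro j
    rw [← h]
    congr 1
    funext l
    by_cases hl : l = j
    · subst hl
      rw [Function.update_self, Function.update_self]
      rfl
    · rw [Function.update_of_ne hl, Function.update_of_ne hl, h1]
  rw [Finset.sum_congr rfl fun j _ => h2 j, ← Finset.mul_sum, hZ, mul_zero]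

/-- The inverse of the operator. -/
theorem Ro_inv {s : Γ} (hs : s ∈ (G.ρ Y).dom) : Ro G Y s * Ro G Y s⁻¹ = 1 ∧
    Ro G Y s⁻¹ * Ro G Y s = 1 := by
  have h1 : ∀ g h : (G.ρ Y).dom, rep G Y (g * h) = rep G Y g * rep G Y h := fun g h => map_mul _ _ _
  have h2 := h1 ⟨s, hs⟩ ⟨s, hs⟩⁻¹
  have h3 := h1 ⟨s, hs⟩⁻¹ ⟨s, hs⟩
  rw [mul_inv_cancel, map_one] at h2
  rw [inv_mul_cancel, map_one] at h3
  exact ⟨h2.symm, h3.symm⟩

theorem Ro_pow {s : Γ} (hs : s ∈ (G.ρ Y).dom) (n : ℕ) : Ro G Y (s ^ n) = Ro G Y s ^ n := by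
  have h1 := map_pow (rep G Y) ⟨s, hs⟩ n
  exact h1

/-- The value of the form of an algebraic class. -/
theorem frm_cl_act {j : ℕ} {z : (pw X n).Cycles} (hz : (pw X n).IsCyc j z)
    (hj : j ≤ (pw X n).dim) :
    ∃ Δ : Subgroup Γ, Δ.FiniteIndex ∧ ∀ s ∈ Δ, s ∈ (G.ρ X).dom ∧ ∀ v,
      frm E X n (E.cl _ z) (fun i => Ro G X s (v i)) =
        (G.χ s : E.K) ^ ((pw X n).dim - j) * frm E X n (E.cl _ z) v := by
  have h1 := (tatePred G).cl (X := pw X n) hz
  obtain ⟨-, Δ, hΔ, h2⟩ := tform_of_tate (M := (pw X n).dim - j) (by omega) h1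
  have := (G.isGalois X).finiteIndex
  exact ⟨Δ ⊓ (G.ρ X).dom, inferInstance, fun s hs => ⟨hs.2, h2 s hs.1 hs.2⟩⟩

/-- The Lie algebra is stable under a subgroup of finite index. -/
theorem kaS_stab (G : GaloisAction E Γ) (X : 𝒱.Obj) : ∃ Δ : Subgroup Γ, Δ.FiniteIndex ∧
    ∀ s ∈ Δ, s ∈ (G.ρ X).dom ∧ ∀ Z ∈ kaS E X, Ro G X s * Z * Ro G X s⁻¹ ∈ kaS E X := by
  classical
  obtain ⟨S, hS⟩ := exists_finset fun p : Cy X => kilS (frm E X p.1.1.1 (E.cl _ p.1.1.2))
  have h1 : ∀ p : Cy X, ∃ Δ : Subgroup Γ, Δ.FiniteIndex ∧ ∀ s ∈ Δ, s ∈ (G.ρ X).dom ∧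
      ∀ Z ∈ kilS (frm E X p.1.1.1 (E.cl _ p.1.1.2)),
        Ro G X s * Z * Ro G X s⁻¹ ∈ kilS (frm E X p.1.1.1 (E.cl _ p.1.1.2)) := by
    rintro ⟨⟨⟨n, z⟩, j⟩, hz⟩
    change (pw X n).IsCyc j z at hz
    by_cases hj : j ≤ (pw X n).dim
    · obtain ⟨Δ, hΔ, h⟩ := frm_cl_act (G := G) hz hj
      refine ⟨Δ, hΔ, fun s hs => ⟨(h s hs).1, fun Z hZ => ?_⟩⟩
      exact kills_conj (Ro_inv (h s hs).1).1 (h s hs).2 hZ
    · refine ⟨(G.ρ X).dom, (G.isGalois X).finiteIndex, fun s hs => ⟨hs, fun Z hZ => ?_⟩⟩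
      have h2 : E.cl (pw X n) z = 0 := by
        have h3 := (tatePred G).gr ((tatePred G).cl (X := pw X n) hz)
        rw [E.gr_eq_bot _ _ (by omega), Submodule.mem_bot] at h3
        exact h3
      change Kills _ (frm E X n (E.cl (pw X n) z))
      rw [h2]
      have h3 : frm E X n 0 = 0 := map_zero (frmL E X n)
      rw [h3]
      exact kills_zero
  choose Δ hΔ h using h1
  have hfin : ∀ S : Finset (Cy X), ∃ Δ' : Subgroup Γ, Δ'.FiniteIndex ∧ ∀ p ∈ S, Δ' ≤ Δ p := by
    intro S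
    induction S using Finset.induction_on with
    | empty => exact ⟨⊤, inferInstance, fun p hp => absurd hp (Finset.notMem_empty p)⟩
    | insert a s _ ih =>
      obtain ⟨Δ', hΔ', h'⟩ := ih
      have := hΔ a
      refine ⟨Δ a ⊓ Δ', inferInstance, fun p hp => ?_⟩
      rcases Finset.mem_insert.1 hp with rfl | hp
      · exact inf_le_left
      · exact inf_le_right.trans (h' p hp)
  obtain ⟨Δ', hΔ', h'⟩ := hfin S
  have := (G.isGalois X).finiteIndex
  refine ⟨Δ' ⊓ (G.ρ X).dom, inferInstance, fun s hs => ⟨hs.2, fun Z hZ => ?_⟩⟩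
  have hZ' : ∀ p : Cy X, Z ∈ kilS (frm E X p.1.1.1 (E.cl _ p.1.1.2)) := by
    unfold kaS at hZ
    rw [Submodule.mem_iInf] at hZ
    exact hZ
  unfold kaS
  rw [Submodule.mem_iInf]
  exact hS _ fun p hp => (h p s (h' p hp hs.1)).2 Z (hZ' p)

/-! ### The Tate conjecture -/

theorem gal_le_kaS : gal G X ≤ kaS E X := by
  intro Z hZ
  rw [mem_kaS]
  intro n j z hz
  have h1 := (tatePred G).cl (X := pw X n) hz
  by_cases hj : j ≤ (pw X n).dim
  · exact hZ n _ _ (tform_of_tate (M := (pw X n).dim - j) (by omega) h1)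
  · have h2 : E.cl (pw X n) z = 0 := by
      have h3 := (tatePred G).gr h1
      rw [E.gr_eq_bot _ _ (by omega), Submodule.mem_bot] at h3
      exact h3
    rw [h2]
    have h3 : frm E X n 0 = 0 := map_zero (frmL E X n)
    rw [h3]
    exact kills_zero

theorem kaS_le_gal (hTC : ∀ n j c, Pool.Agent.Q55.IsTate G (pw X n) j c →
    c ∈ spanCycles E (pw X n) (j : ℤ)) : kaS E X ≤ gal G X := by
  intro Z hZ n M φ hφ
  rw [mem_kaS] at hZ
  obtain ⟨c, rfl⟩ := frm_surjective φ
  rcases tform_le hφ with h | h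
  · exact hZ.span (hTC n _ _ (tate_of_tform (j := (pw X n).dim - M) (by omega) hφ))
  · rw [h]
    have h3 : frm E X n 0 = 0 := map_zero (frmL E X n)
    rw [h3]
    exact kills_zero

/-- The extended Lie algebra. -/
noncomputable def gp (E : WeilCohomology.{u, 0} ops) (X : 𝒱.Obj) :
    Submodule E.K (Module.End E.K (E.H X)) := kaS E X ⊔ Submodule.span E.K {dn E X}

theorem mem_gp {Z : Module.End E.K (E.H X)} :
    Z ∈ gp E X ↔ ∃ A ∈ kaS E X, ∃ r : E.K, Z = A + r • dn E X := by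
  rw [gp, Submodule.mem_sup]
  constructor
  · rintro ⟨A, hA, B, hB, rfl⟩
    obtain ⟨r, rfl⟩ := Submodule.mem_span_singleton.1 hB
    exact ⟨A, hA, r, rfl⟩
  · rintro ⟨A, hA, r, rfl⟩
    exact ⟨A, hA, _, Submodule.smul_mem _ _ (Submodule.mem_span_singleton_self _), rfl⟩

theorem galp_le_gp : galp G X ≤ gp E X := sup_le_sup_right gal_le_kaS _

theorem gp_eq_galp (hTC : ∀ n j c, Pool.Agent.Q55.IsTate G (pw X n) j c →
    c ∈ spanCycles E (pw X n) (j : ℤ)) : gp E X = galp G X := by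
  have h1 : kaS E X = gal G X := le_antisymm (kaS_le_gal hTC) gal_le_kaS
  rw [gp, h1]
  rfl

section ext

variable [Algebra W.K E.K] (A : ArtC W E)

theorem kaS_ext : kaS E X = (bcA A X).xs (kaS W X) := by
  ext Z
  rw [(bcA A X).mem_xs, mem_kaS]
  simp only [mem_kaS]
  constructor
  · intro h ν n j z hz
    have h1 := h n j z hz
    exact ((bcA A X).kills_iff (r := (A.c ^ j)⁻¹ * A.c ^ (pw X n).dim)
      (mul_ne_zero (inv_ne_zero (A.cne _)) (A.cne _)) (fun v => by
        have h2 := A.a_frm (W.cl _ z) v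
        rw [A.cl _ _ _ hz, frm_smul, smul_apply, smul_eq_mul] at h2
        rw [mul_assoc, ← h2, inv_mul_cancel_left₀ (A.cne _)])).1 h1 ν
  · intro h n j z hz
    refine ((bcA A X).kills_iff (φ := frm W X n (W.cl _ z))
      (r := (A.c ^ j)⁻¹ * A.c ^ (pw X n).dim)
      (mul_ne_zero (inv_ne_zero (A.cne _)) (A.cne _)) (fun v => by
        have h2 := A.a_frm (W.cl _ z) v
        rw [A.cl _ _ _ hz, frm_smul, smul_apply, smul_eq_mul] at h2
        rw [mul_assoc, ← h2, inv_mul_cancel_left₀ (A.cne _)])).2 fun ν => h ν n j z hz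

theorem ext_dn : A.ext (dn W X) = dn E X := by
  rw [dn, dn, (bcA A X).ext_sub, ext_dg, (bcA A X).ext_smul, (bcA A X).ext_one, map_natCast]

theorem gp_ext : gp E X = (bcA A X).xs (gp W X) := by
  apply le_antisymm
  · refine sup_le ?_ ?_
    · rw [kaS_ext A]
      exact (bcA A X).xs_mono le_sup_left
    · rw [Submodule.span_le, Set.singleton_subset_iff, ← ext_dn A]
      exact (bcA A X).ext_mem (Submodule.mem_sup_right (Submodule.mem_span_singleton_self _))
  · unfold Bc.xs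
    rw [Submodule.span_le]
    rintro _ ⟨y, hy, rfl⟩
    obtain ⟨y', hy', r, rfl⟩ := mem_gp.1 hy
    rw [(bcA A X).ext_add, (bcA A X).ext_smul, ext_dn]
    refine mem_gp.2 ⟨_, ?_, _, rfl⟩
    rw [kaS_ext A]
    exact (bcA A X).ext_mem hy'

end ext

/-- Under the assumption that the Lie algebra commutes with the degree operator. -/
theorem gp_br (h : ∀ Z ∈ kaS E X, Z * dg E X = dg E X * Z) :
    ∀ Z ∈ gp E X, ∀ Y ∈ gp E X, Z * Y - Y * Z ∈ gp E X := by
  have hd : ∀ Z ∈ kaS E X, Z * dn E X = dn E X * Z := by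
    intro Z hZ
    rw [dn, mul_sub, sub_mul, h Z hZ, mul_smul_comm, smul_mul_assoc, mul_one, one_mul]
  intro Z hZ Y hY
  obtain ⟨A, hA, r, rfl⟩ := mem_gp.1 hZ
  obtain ⟨B, hB, t, rfl⟩ := mem_gp.1 hY
  have h1 : (A + r • dn E X) * (B + t • dn E X) - (B + t • dn E X) * (A + r • dn E X) =
      A * B - B * A := by
    have h2 := hd A hA
    have h3 := hd B hB
    simp only [add_mul, mul_add, mul_smul_comm, smul_mul_assoc, h2, h3, smul_add, smul_smul,
      mul_comm t r]
    abel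
  rw [h1]
  exact Submodule.mem_sup_left (kaS_br A hA B hB)

/-- The elements commute with the degree operator. -/
theorem gp_dg (h : ∀ Z ∈ kaS E X, Z * dg E X = dg E X * Z) {Z : Module.End E.K (E.H X)}
    (hZ : Z ∈ gp E X) : Z * dg E X = dg E X * Z := by
  obtain ⟨A, hA, r, rfl⟩ := mem_gp.1 hZ
  rw [add_mul, mul_add, h A hA, smul_mul_assoc, mul_smul_comm, dn, sub_mul, mul_sub,
    smul_mul_assoc, mul_smul_comm, one_mul, mul_one]

section comm

variable [Algebra W.K E.K] [Algebra W.K E₀.K] (A : ArtC W E) (A₀ : ArtC W E₀)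
  {G₀ : GaloisAction E₀ Γ}

include A₀ in
theorem kaS_dg_W (hTC : ∀ n j c, Pool.Agent.Q55.IsTate G₀ (pw X n) j c →
    c ∈ spanCycles E₀ (pw X n) (j : ℤ)) {Z : Module.End W.K (W.H X)} (hZ : Z ∈ kaS W X) :
    Z * dg W X = dg W X * Z := by
  apply ext_inj A₀
  rw [A₀.ext_mul, A₀.ext_mul, ext_dg]
  refine gal_dg (kaS_le_gal hTC ?_)
  rw [kaS_ext A₀]
  exact (bcA A₀ X).ext_mem hZ

include A A₀ in
theorem kaS_dg (hTC : ∀ n j c, Pool.Agent.Q55.IsTate G₀ (pw X n) j c →
    c ∈ spanCycles E₀ (pw X n) (j : ℤ)) {Z : Module.End E.K (E.H X)} (hZ : Z ∈ kaS E X) :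
    Z * dg E X = dg E X * Z := by
  rw [kaS_ext A] at hZ
  rw [← ext_dg A]
  exact (bcA A X).comm_iff.2 fun ν => kaS_dg_W A₀ hTC ((bcA A X).mem_xs.1 hZ ν)

include A₀ in
/-- The trace form of the derived algebra is nondegenerate. -/
theorem gp_nondeg_W (hTC : ∀ n j c, Pool.Agent.Q55.IsTate G₀ (pw X n) j c →
    c ∈ spanCycles E₀ (pw X n) (j : ℤ)) (hss : ∀ i, SemisimpleAt G₀ X i) :
    TraceNondeg (der (gp W X)) := by
  apply (bcA A₀ X).nondeg_of_xs
  rw [← (bcA A₀ X).der_xs, ← gp_ext A₀, gp_eq_galp hTC]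
  exact der_nondeg _ (galp_semi hss) galp_br

include A A₀ in
theorem gp_nondeg (hTC : ∀ n j c, Pool.Agent.Q55.IsTate G₀ (pw X n) j c →
    c ∈ spanCycles E₀ (pw X n) (j : ℤ)) (hss : ∀ i, SemisimpleAt G₀ X i) :
    TraceNondeg (der (gp E X)) := by
  rw [gp_ext A, (bcA A X).der_xs]
  exact (bcA A X).nondeg_xs (gp_nondeg_W A₀ hTC hss)

end comm

/-- The extended Lie algebra and its derived algebra are stable. -/
theorem gp_conj {s : Γ} (hs : s ∈ (G.ρ X).dom)
    (h : ∀ Z ∈ kaS E X, Ro G X s * Z * Ro G X s⁻¹ ∈ kaS E X) {Z : Module.End E.K (E.H X)}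
    (hZ : Z ∈ gp E X) : Ro G X s * Z * Ro G X s⁻¹ ∈ gp E X := by
  obtain ⟨A, hA, r, rfl⟩ := mem_gp.1 hZ
  refine mem_gp.2 ⟨_, h A hA, r, ?_⟩
  have h1 : dn E X * Ro G X s = Ro G X s * dn E X := by
    rw [dn, sub_mul, mul_sub, Ro_dg hs, smul_mul_assoc, mul_smul_comm, one_mul, mul_one]
  rw [mul_add, add_mul, mul_smul_comm, ← h1, smul_mul_assoc, mul_assoc (dn E X),
    (Ro_inv hs).1, mul_one]

theorem der_conj {s : Γ} (hs : s ∈ (G.ρ X).dom)
    (h : ∀ Z ∈ kaS E X, Ro G X s * Z * Ro G X s⁻¹ ∈ kaS E X) {Z : Module.End E.K (E.H X)}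
    (hZ : Z ∈ der (gp E X)) : Ro G X s * Z * Ro G X s⁻¹ ∈ der (gp E X) := by
  have hZ' : Z ∈ Submodule.span E.K {Z | ∃ X' ∈ gp E X, ∃ Y' ∈ gp E X, Z = X' * Y' - Y' * X'} := hZ
  induction hZ' using Submodule.span_induction with
  | mem x hx =>
    obtain ⟨P, hP, Q, hQ, rfl⟩ := hx
    have h1 : Ro G X s * (P * Q - Q * P) * Ro G X s⁻¹ =
        (Ro G X s * P * Ro G X s⁻¹) * (Ro G X s * Q * Ro G X s⁻¹) -
          (Ro G X s * Q * Ro G X s⁻¹) * (Ro G X s * P * Ro G X s⁻¹) := by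
      have h2 := (Ro_inv hs).2
      have h3 : ∀ P Q : Module.End E.K (E.H X),
          (Ro G X s * P * Ro G X s⁻¹) * (Ro G X s * Q * Ro G X s⁻¹) =
            Ro G X s * (P * Q) * Ro G X s⁻¹ := by
        intro P Q
        calc (Ro G X s * P * Ro G X s⁻¹) * (Ro G X s * Q * Ro G X s⁻¹) =
            Ro G X s * P * (Ro G X s⁻¹ * Ro G X s) * Q * Ro G X s⁻¹ := by noncomm_ring
          _ = Ro G X s * (P * Q) * Ro G X s⁻¹ := by rw [h2]; noncomm_ring
      rw [h3, h3, mul_sub, sub_mul]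
    rw [h1]
    exact mem_der _ (gp_conj hs h hP) (gp_conj hs h hQ)
  | zero => rw [mul_zero, zero_mul]; exact Submodule.zero_mem _
  | add a b ha' hb' ha hb =>
    rw [mul_add, add_mul]
    exact Submodule.add_mem _ (ha ha') (hb hb')
  | smul r a ha' ha =>
    rw [mul_smul_comm, smul_mul_assoc]
    exact Submodule.smul_mem _ _ (ha ha')

/-- **The commutant.** -/
theorem gp_comm (hlog : HasLogs G X)
    (hTC : ∀ c, Pool.Agent.Q55.IsTate G (pw X 1) X.dim c →
      c ∈ spanCycles E (pw X 1) (X.dim : ℤ)) {P : Module.End E.K (E.H X)}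
    (hP : ∀ Z ∈ galp G X, Z * P = P * Z) {Z : Module.End E.K (E.H X)} (hZ : Z ∈ gp E X) :
    Z * P = P * Z := by
  obtain ⟨Z, hZ', r, rfl⟩ := mem_gp.1 hZ
  rw [add_mul, mul_add, smul_mul_assoc, mul_smul_comm, hP _ dn_mem]
  congr 1
  clear hZ
  have hZ := mem_kaS.1 hZ'
  have key : ∀ φ : MultilinearMap E.K (fun _ : Fin 2 => E.H X) E.K, TForm G X X.dim φ →
      Kills Z φ := by
    intro φ hφ
    obtain ⟨c, rfl⟩ := frm_surjective (n := 1) φ
    exact hZ.span (hTC _ (tate_of_tform (j := X.dim) (by rw [dim_pw]; ring) hφ))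
  have hskew : IsSkew (prg E X) Z := (kills_two _ _).1 (key _ tform_prg)
  have h1 := key _ (tform_of_comm hlog hP)
  rw [kills_two] at h1
  refine end_ext fun u v => ?_
  have h2 := h1 u v
  have h3 := hskew (P u) v
  rw [LinearMap.comp_apply, LinearMap.comp_apply] at h2
  rw [Module.End.mul_apply, Module.End.mul_apply]
  linear_combination h3 - h2

/-- The derived algebra kills the Tate classes. -/
theorem der_galp_le : der (galp G X) ≤ gal G X := by
  rw [der, Submodule.span_le]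
  rintro _ ⟨A, hA, B, hB, rfl⟩
  obtain ⟨A, hA', r, rfl⟩ := mem_galp.1 hA
  obtain ⟨B, hB', t, rfl⟩ := mem_galp.1 hB
  have h1 : (A + r • dn E X) * (B + t • dn E X) - (B + t • dn E X) * (A + r • dn E X) =
      A * B - B * A := by
    have h2 := gal_dn hA'
    have h3 := gal_dn hB'
    simp only [add_mul, mul_add, mul_smul_comm, smul_mul_assoc, h2, h3, smul_add, smul_smul,
      mul_comm t r]
    abel
  rw [h1]
  exact gal_br A hA' B hB'

/-- The derived algebra kills the algebraic classes. -/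
theorem der_gp_le (h : ∀ Z ∈ kaS E X, Z * dg E X = dg E X * Z) : der (gp E X) ≤ kaS E X := by
  have hd : ∀ Z ∈ kaS E X, Z * dn E X = dn E X * Z := by
    intro Z hZ
    rw [dn, mul_sub, sub_mul, h Z hZ, mul_smul_comm, smul_mul_assoc, mul_one, one_mul]
  rw [der, Submodule.span_le]
  rintro _ ⟨A, hA, B, hB, rfl⟩
  obtain ⟨A, hA', r, rfl⟩ := mem_gp.1 hA
  obtain ⟨B, hB', t, rfl⟩ := mem_gp.1 hB
  have h1 : (A + r • dn E X) * (B + t • dn E X) - (B + t • dn E X) * (A + r • dn E X) =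
      A * B - B * A := by
    have h2 := hd A hA'
    have h3 := hd B hB'
    simp only [add_mul, mul_add, mul_smul_comm, smul_mul_assoc, h2, h3, smul_add, smul_smul,
      mul_comm t r]
    abel
  rw [h1]
  exact kaS_br A hA' B hB'

/-- An element of the Lie algebra of the Tate classes which kills the algebraic classes kills the
Tate classes. -/
theorem mem_gal_of {Z : Module.End E.K (E.H X)} (h1 : Z ∈ galp G X) (h2 : Z ∈ kaS E X) :
    Z ∈ gal G X := by
  obtain ⟨A, hA, r, rfl⟩ := mem_galp.1 h1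
  have h3 : r • dn E X ∈ kaS E X := by
    have h4 := Submodule.sub_mem _ h2 (gal_le_kaS hA)
    rwa [add_sub_cancel_left] at h4
  by_cases hd : X.dim = 0
  · have h5 : dn E X = 0 := by
      refine LinearMap.ext fun x => ?_
      refine dg_ind (p := fun x => dn E X x = (0 : Module.End E.K (E.H X)) x) ?_ ?_ x
      · intro i x hx
        rw [dn, LinearMap.sub_apply, dg_of hx, LinearMap.smul_apply, hd, Nat.cast_zero, zero_smul,
          sub_zero, LinearMap.zero_apply]
        by_cases hi : i = 0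
        · rw [hi, Nat.cast_zero, zero_smul]
        · rw [E.gr_eq_bot _ _ (by omega), Submodule.mem_bot] at hx
          rw [hx, smul_zero]
      · intro a b ha hb
        rw [map_add, map_add, ha, hb]
    rw [h5, smul_zero, add_zero]
    exact hA
  · by_cases hr : r = 0
    · rw [hr, zero_smul, add_zero]
      exact hA
    have hd' : (X.dim : E.K) ≠ 0 := Nat.cast_ne_zero.2 hd
    have h5 : ∀ x, E.tr X (dn E X x) = 0 := by
      intro x
      have h6 := mem_kaS.1 h3 0 0 (pw X 0).V.fundCycle (SmVar.fundCycle_mem _) (fun _ => x)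
      rw [Fin.sum_univ_one, E.cl_fund, frm_apply, one_mul, mpr_apply, List.ofFn_succ,
        List.ofFn_zero, List.prod_singleton, Function.update_self] at h6
      have h7 : E.tr X ((r • dn E X) x) = 0 := by
        rw [← h6]
        exact (congrArg _ (E.map_id X ((r • dn E X) x))).symm
      rw [LinearMap.smul_apply, map_smul, smul_eq_mul] at h7
      exact (mul_eq_zero.1 h7).resolve_left hr
    have h6 : ∀ x, E.tr X x = 0 := by
      intro x
      refine dg_ind (p := fun x => E.tr X x = 0) ?_ ?_ x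
      · intro i x hx
        by_cases hi : i = 2 * X.dim
        · have h7 := h5 x
          rw [dn, LinearMap.sub_apply, dg_of hx, LinearMap.smul_apply, Module.End.one_apply,
            ← sub_smul, map_smul, hi, smul_eq_mul] at h7
          have h8 : ((2 * X.dim : ℕ) : E.K) - X.dim ≠ 0 := by
            push_cast
            rw [two_mul, add_sub_cancel_right]
            exact hd'
          exact (mul_eq_zero.1 h7).resolve_left h8
        · exact E.tr_eq_zero hx hi
      · intro a b ha hb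
        rw [map_add, ha, hb, add_zero]
    have h7 : (1 : E.H X) = 0 := E.nondeg 1 fun b => h6 _
    have h8 : dn E X = 0 := by
      refine LinearMap.ext fun x => ?_
      rw [← mul_one (dn E X x), h7, mul_zero]
      rfl
    rw [h8, smul_zero, add_zero]
    exact hA

end Pool.Agent.Q50.LI
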