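import Pool.Agent.Q50.LI.Cnt
import Pool.Agent.Q50.LI.FAux
import Pool.Agent.Q50.MTC.Main

/-!
# The cohomology of the square and the endomorphisms
-/

open CategoryTheory AlgebraicGeometry TensorProduct

universe u w

set_option linter.unusedSectionVars false

namespace Pool.Agent.Q50.LI

open Module Pool.Agent.H204R3.SP Pool.Agent.W516.DR
open Pool.Agent.H914 Pool.Agent.H914.VarClass Pool.Agent.H914.VarClass.Obj
  Pool.Agent.H914.WeilCohomology
open Pool.Agent.Y133.Half Pool.Agent.Q50.FP Pool.Agent.W516.KC Pool.Agent.W516.KC2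
open Pool.Agent.Q55 (GaloisAction SubAction Virtually TateConj tatePred)
open Pool.Agent.Q60.TD (SemisimpleAt rep rep_apply exists_good act_one)

variable {k : Type u} [Field k] {𝒱 : VarClass k} {ops : CycleOps 𝒱}
  {W E : WeilCohomology.{u, 0} ops} {X Y : 𝒱.Obj} {n : ℕ} {Γ : Type w} [Group Γ]
  {G : GaloisAction E Γ}

section kap

theorem prg_ext {e e' : Module.End E.K (E.H X)}
    (h : ∀ u v, prg E X (e u) v = prg E X (e' u) v) : e = e' := end_ext h

/-- The endomorphism attached to a class on the square, as a linear map. -/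
noncomputable def kapL (E : WeilCohomology.{u, 0} ops) (X : 𝒱.Obj) :
    E.H (pw X 1) →ₗ[E.K] Module.End E.K (E.H X) where
  toFun c := (exists_end c).choose
  map_add' c d := by
    refine prg_ext fun u v => ?_
    have h1 := (exists_end (c + d)).choose_spec ![u, v]
    have h2 := (exists_end c).choose_spec ![u, v]
    have h3 := (exists_end d).choose_spec ![u, v]
    change _ = prg E X ((exists_end (c + d)).choose u) v at h1
    change _ = prg E X ((exists_end c).choose u) v at h2
    change _ = prg E X ((exists_end d).choose u) v at h3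
    rw [← h1, LinearMap.add_apply, map_add, LinearMap.add_apply, ← h2, ← h3, frm_add]
    rfl
  map_smul' r c := by
    refine prg_ext fun u v => ?_
    have h1 := (exists_end (r • c)).choose_spec ![u, v]
    have h2 := (exists_end c).choose_spec ![u, v]
    change _ = prg E X ((exists_end (r • c)).choose u) v at h1
    change _ = prg E X ((exists_end c).choose u) v at h2
    rw [← h1, RingHom.id_apply, LinearMap.smul_apply, map_smul, LinearMap.smul_apply, ← h2,
      frm_smul]
    rfl

theorem kapL_spec (c : E.H (pw X 1)) (v : Fin 2 → E.H X) :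
    frm E X 1 c v = prg E X (kapL E X c (v 0)) (v 1) := (exists_end c).choose_spec v

theorem kapL_eq {c : E.H (pw X 1)} {e : Module.End E.K (E.H X)}
    (h : ∀ v, frm E X 1 c v = prg E X (e (v 0)) (v 1)) : kapL E X c = e := by
  refine prg_ext fun u v => ?_
  have h1 := kapL_spec c ![u, v]
  have h2 := h ![u, v]
  change _ = prg E X (kapL E X c u) v at h1
  change _ = prg E X (e u) v at h2
  rw [← h1, h2]

theorem kapL_bij (E : WeilCohomology.{u, 0} ops) (X : 𝒱.Obj) :
    Function.Bijective (kapL E X) := by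
  constructor
  · rw [← LinearMap.ker_eq_bot, LinearMap.ker_eq_bot']
    intro c hc
    apply frm_injective
    have h1 : frm E X 1 0 = 0 := map_zero (frmL E X 1)
    rw [h1]
    ext v
    rw [kapL_spec, hc, LinearMap.zero_apply, map_zero]
    rfl
  · intro e
    obtain ⟨c, hc⟩ := frm_surjective (two ((prg E X).comp e))
    exact ⟨c, kapL_eq fun v => by rw [hc]; rfl⟩

/-- The identification of the cohomology of the square with the endomorphisms. -/
noncomputable def kap (E : WeilCohomology.{u, 0} ops) (X : 𝒱.Obj) :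
    E.H (pw X 1) ≃ₗ[E.K] Module.End E.K (E.H X) :=
  LinearEquiv.ofBijective (kapL E X) (kapL_bij E X)

theorem kap_spec (c : E.H (pw X 1)) (v : Fin 2 → E.H X) :
    frm E X 1 c v = prg E X (kap E X c (v 0)) (v 1) := kapL_spec c v

theorem kap_eq {c : E.H (pw X 1)} {e : Module.End E.K (E.H X)}
    (h : ∀ v, frm E X 1 c v = prg E X (e (v 0)) (v 1)) : kap E X c = e := kapL_eq h

/-- The degree operator. -/
theorem kap_dg (c : E.H (pw X 1)) : kap E X (dg E (pw X 1) c) =
    ((2 * X.dim : ℕ) : E.K) • kap E X c + (dg E X * kap E X c - kap E X c * dg E X) := by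
  refine prg_ext fun u v => ?_
  have h1 := dg_drv.frm c ![u, v]
  rw [Fin.sum_univ_two] at h1
  have h2 : Function.update ![u, v] 0 (dg E X (![u, v] 0)) = ![dg E X u, v] := by
    funext i
    fin_cases i <;> rfl
  have h3 : Function.update ![u, v] 1 (dg E X (![u, v] 1)) = ![u, dg E X v] := by
    funext i
    fin_cases i <;> rfl
  rw [h2, h3, kap_spec, kap_spec, kap_spec, kap_spec, dim_pw] at h1
  change prg E X (kap E X c (dg E X u)) v + prg E X (kap E X c u) (dg E X v) =
    2 * ((1 + 1) * X.dim : ℕ) * prg E X (kap E X c u) v -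
      prg E X (kap E X (dg E (pw X 1) c) u) v at h1
  have h4 := prg_dg (kap E X c u) v
  rw [LinearMap.add_apply, LinearMap.smul_apply, LinearMap.sub_apply, Module.End.mul_apply,
    Module.End.mul_apply, map_add, map_smul, map_sub, LinearMap.add_apply, LinearMap.smul_apply,
    LinearMap.sub_apply, smul_eq_mul]
  push_cast at h1 ⊢
  linear_combination h1 - h4

/-- The elements of a good subgroup. -/
structure Gd (G : GaloisAction E Γ) (X : 𝒱.Obj) (n : ℕ) (s : Γ) : Prop where
  mem : s ∈ (G.ρ X).dom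
  mem' : s ∈ (G.ρ (pw X n)).dom
  comm : ∀ i, (G.ρ (pw X n)).Commutes (G.ρ X) (E.map (prj X n i)) s

theorem exists_gd (G : GaloisAction E Γ) (X : 𝒱.Obj) (n : ℕ) :
    ∃ Δ : Subgroup Γ, Δ.FiniteIndex ∧ ∀ s ∈ Δ, Gd G X n s := by
  obtain ⟨Δ, hΔ, h⟩ := exists_good G X n
  exact ⟨Δ, hΔ, fun s hs => ⟨(h s hs).1, (h s hs).2.1, (h s hs).2.2⟩⟩

theorem Ro_apply (s : Γ) (x : E.H X) : Ro G X s x = (G.ρ X).act s x := rfl

theorem kap_act {s : Γ} (hs : Gd G X 1 s) (c : E.H (pw X 1)) :
    kap E X (Ro G (pw X 1) s c) * Ro G X s =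
      (G.χ s : E.K) ^ X.dim • (Ro G X s * kap E X c) := by
  refine prg_ext fun u v => ?_
  obtain ⟨v, rfl⟩ : ∃ v', Ro G X s v' = v :=
    ⟨((G.ρ X).act s).symm v, ((G.ρ X).act s).apply_symm_apply v⟩
  have h1 := act_frm hs.mem hs.mem' hs.comm c ![u, v]
  rw [kap_spec, kap_spec, dim_pw, two_dim, pow_add, mul_assoc] at h1
  change prg E X (kap E X (Ro G (pw X 1) s c) (Ro G X s u)) (Ro G X s v) =
    (G.χ s : E.K) ^ X.dim * ((G.χ s : E.K) ^ X.dim * prg E X (kap E X c u) v) at h1
  have h2 := prg_act hs.mem (kap E X c u) v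
  rw [Module.End.mul_apply, h1, LinearMap.smul_apply, map_smul, LinearMap.smul_apply, smul_eq_mul,
    ← h2]
  rfl

end kap

section ext

variable [Algebra W.K E.K] (A : ArtC W E)

theorem charZero_K (W : WeilCohomology.{u, 0} ops) : CharZero W.K := inferInstance

/-- The comparison as an extension of the coefficients. -/
theorem bcA (X : 𝒱.Obj) : Bc (F := W.K) (K := E.K) (A.a X) A.ext where
  bas := fun {n} b => by
    obtain ⟨b', -, h⟩ := A.exists_basis b
    exact ⟨b', h⟩
  ap := A.ext_apply

theorem kap_a (c : W.H (pw X 1)) :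
    kap E X (A.a _ c) = A.c ^ X.dim • A.ext (kap W X c) := by
  refine kap_eq fun v => ?_
  have key : two ((prg E X).comp (kap E X (A.a _ c))) =
      two ((prg E X).comp (A.c ^ X.dim • A.ext (kap W X c))) := by
    obtain ⟨b', hb, -⟩ := A.exists_basis (Module.finBasis W.K (W.H X))
    refine Basis.ext_multilinear (fun _ => b') fun w => ?_
    rw [two_apply, two_apply, LinearMap.comp_apply, LinearMap.comp_apply, hb, hb,
      LinearMap.smul_apply, A.ext_apply, map_smul, LinearMap.smul_apply, A.a_prg, smul_eq_mul]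
    have h1 := kap_spec (A.a _ c) (fun i => A.a X (Module.finBasis W.K (W.H X) (w i)))
    rw [← h1, A.a_frm, kap_spec, dim_pw, two_dim, pow_add, mul_assoc]
  rw [kap_spec]
  exact congrArg (fun φ => φ v) key

/-- The projector on the extension of a Lie algebra. -/
theorem prD_ext {F K V V' : Type*} [Field F] [CharZero F] [Field K] [CharZero K] [Algebra F K]
    [AddCommGroup V] [Module F V] [FiniteDimensional F V] [AddCommGroup V'] [Module K V']
    [FiniteDimensional K V'] {a : V → V'} {ext : Module.End F V → Module.End K V'}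
    (B : Bc a ext) {D : Submodule F (Module.End F V)} (hD : TraceNondeg D)
    (hD' : TraceNondeg (B.xs D)) (z : Module.End F V) :
    prD (B.xs D) hD' (ext z) = ext (prD D hD z) := by
  refine prD_eq _ _ (B.ext_mem (prD_mem D hD z)) fun X hX => ?_
  unfold Bc.xs at hX
  induction hX using Submodule.span_induction with
  | mem x hx =>
    obtain ⟨x, hx, rfl⟩ := hx
    rw [← B.ext_mul, ← B.ext_mul, B.ext_trace, B.ext_trace, prD_trace D hD z hx]
  | zero => rw [mul_zero, mul_zero]
  | add a b _ _ ha hb => rw [mul_add, mul_add, map_add, map_add, ha, hb]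
  | smul r a _ ha => rw [mul_smul_comm, mul_smul_comm, map_smul, map_smul, ha]

end ext

/-! ### The projector on the square -/

/-- The projector of the cohomology of the square on the classes which correspond to the elements
of `D`. -/
noncomputable def uu (E : WeilCohomology.{u, 0} ops) (X : 𝒱.Obj)
    (D : Submodule E.K (Module.End E.K (E.H X))) (hD : TraceNondeg D) :
    Module.End E.K (E.H (pw X 1)) :=
  (kap E X).symm.toLinearMap ∘ₗ prD D hD ∘ₗ (kap E X).toLinearMap

variable {D : Submodule E.K (Module.End E.K (E.H X))} {hD : TraceNondeg D}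

theorem kap_uu (c : E.H (pw X 1)) : kap E X (uu E X D hD c) = prD D hD (kap E X c) :=
  (kap E X).apply_symm_apply _

theorem uu_idem : uu E X D hD * uu E X D hD = uu E X D hD := by
  refine LinearMap.ext fun c => ?_
  apply (kap E X).injective
  rw [Module.End.mul_apply, kap_uu, kap_uu]
  exact prD_of_mem _ _ (prD_mem _ _ _)

theorem uu_iff {c : E.H (pw X 1)} : uu E X D hD c = c ↔ kap E X c ∈ D := by
  rw [← (kap E X).injective.eq_iff, kap_uu]
  exact prD_iff _ _

theorem uu_dg (h : ∀ z ∈ D, dg E X * z - z * dg E X ∈ D) :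
    dg E (pw X 1) * uu E X D hD = uu E X D hD * dg E (pw X 1) := by
  refine LinearMap.ext fun c => ?_
  apply (kap E X).injective
  rw [Module.End.mul_apply, Module.End.mul_apply, kap_dg, kap_uu, kap_uu, kap_dg, map_add,
    map_smul, prD_br _ _ h]

/-- The conjugation by the elements of the group. -/
theorem kap_conj {s : Γ} (hs : Gd G X 1 s) {g' : Module.End E.K (E.H X)}
    (hg : Ro G X s * g' = 1) (c : E.H (pw X 1)) :
    kap E X (Ro G (pw X 1) s c) = (G.χ s : E.K) ^ X.dim • (Ro G X s * kap E X c * g') := by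
  have h1 := congrArg (fun z => z * g') (kap_act hs c)
  simp only [mul_assoc, smul_mul_assoc] at h1
  rw [hg, mul_one] at h1
  rw [h1, mul_assoc]

theorem uu_act {s : Γ} (hs : Gd G X 1 s) {g' : Module.End E.K (E.H X)}
    (hg : Ro G X s * g' = 1) (h1 : ∀ z ∈ D, Ro G X s * z * g' ∈ D)
    (h2 : ∀ z ∈ D, g' * z * Ro G X s ∈ D) :
    uu E X D hD * Ro G (pw X 1) s = Ro G (pw X 1) s * uu E X D hD := by
  refine LinearMap.ext fun c => ?_
  apply (kap E X).injective
  rw [Module.End.mul_apply, Module.End.mul_apply, kap_uu, kap_conj hs hg, kap_conj hs hg, kap_uu,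
    map_smul, prD_conj _ _ h1 h2]

/-- The generalised eigenspace on the square and the generalised centraliser. -/
theorem uu_gen {s : Γ} (hs : Gd G X 1 s) {g' : Module.End E.K (E.H X)}
    (hg : Ro G X s * g' = 1) (hg' : g' * Ro G X s = 1) (h1 : ∀ z ∈ D, Ro G X s * z * g' ∈ D)
    (h2 : ∀ z ∈ D, g' * z * Ro G X s ∈ D) :
    finrank E.K (Module.End.maxGenEigenspace (uu E X D hD * Ro G (pw X 1) s)
      ((G.χ s : E.K) ^ X.dim)) =
      finrank E.K (D ⊓ (adj (Ro G X s)).maxGenEigenspace 0 :
        Submodule E.K (Module.End E.K (E.H X))) := by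
  have hx : ((G.χ s : E.K) ^ X.dim) ≠ 0 := pow_ne_zero _ (Units.ne_zero _)
  have h3 : ∀ c, c ∈ Module.End.maxGenEigenspace (Ro G (pw X 1) s) ((G.χ s : E.K) ^ X.dim) ↔
      kap E X c ∈ (adj (Ro G X s)).maxGenEigenspace 0 := by
    intro c
    rw [gen_equiv (kap E X) (R := Ro G (pw X 1) s) (A := adg (Ro G X s) g') hx
      (fun c => kap_conj hs hg c), adg_iff' hg hg']
  have h4 : Submodule.map (kap E X).toLinearMap (Module.End.maxGenEigenspace
      (uu E X D hD * Ro G (pw X 1) s) ((G.χ s : E.K) ^ X.dim)) =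
      (D ⊓ (adj (Ro G X s)).maxGenEigenspace 0 : Submodule E.K (Module.End E.K (E.H X))) := by
    ext z
    rw [Submodule.mem_map]
    constructor
    · rintro ⟨c, hc, rfl⟩
      rw [gen_proj (uu_act hs hg h1 h2) uu_idem hx] at hc
      exact ⟨uu_iff.1 hc.1, (h3 c).1 hc.2⟩
    · rintro ⟨hz, hz'⟩
      refine ⟨(kap E X).symm z, ?_, (kap E X).apply_symm_apply z⟩
      rw [gen_proj (uu_act hs hg h1 h2) uu_idem hx]
      refine ⟨uu_iff.2 (by rw [LinearEquiv.apply_symm_apply]; exact hz), (h3 _).2 ?_⟩
      rw [LinearEquiv.apply_symm_apply]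
      exact hz'
  rw [← h4]
  exact (LinearEquiv.finrank_map_eq (kap E X) _).symm

section ext

variable [Algebra W.K E.K] (A : ArtC W E)

theorem uu_ext {D : Submodule W.K (Module.End W.K (W.H X))} (hD : TraceNondeg D)
    (hD' : TraceNondeg ((bcA A X).xs D)) :
    A.ext (uu W X D hD) = uu E X ((bcA A X).xs D) hD' := by
  apply A.lin_ext
  intro c
  apply (kap E X).injective
  rw [A.ext_apply, kap_a, kap_uu, kap_uu, kap_a, map_smul, prD_ext (bcA A X) hD hD']

end ext

end Pool.Agent.Q50.LI
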