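import Pool.Agent.Q50.LI.Bc

/-!
# Multiplicities
-/

set_option linter.unusedSectionVars false

namespace Pool.Agent.Q50.LI

open Module Pool.Agent.Q50.FP Pool.Agent.W516.KC Pool.Agent.W516.KC2 Pool.Agent.H204R3.SP
open TensorProduct

noncomputable section

section proj

variable {K U : Type*} [Field K] [AddCommGroup U] [Module K U]

theorem pow_proj {P a : Module.End K U} (hc : P * a = a * P) (l : K) (k : ℕ) :
    ∀ w : U, P w = w → ((P * a - l • 1) ^ k) w = ((a - l • (1 : Module.End K U)) ^ k) w := by
  induction k with
  | zero =>
    intro w _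
    rw [pow_zero, pow_zero]
  | succ k ih =>
    intro w hw
    have h1 : (P * a - l • 1) w = (a - l • (1 : Module.End K U)) w := by
      rw [LinearMap.sub_apply, LinearMap.sub_apply, hc, Module.End.mul_apply, hw]
    have h2 : P ((a - l • (1 : Module.End K U)) w) = (a - l • (1 : Module.End K U)) w := by
      rw [← h1, LinearMap.sub_apply, map_sub, LinearMap.smul_apply, map_smul,
        Module.End.one_apply, hw, hc, Module.End.mul_apply, hw]
      congr 1
      have h3 := LinearMap.congr_fun hc w
      rw [Module.End.mul_apply, Module.End.mul_apply, hw] at h3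
      exact h3
    rw [pow_succ, pow_succ, Module.End.mul_apply, Module.End.mul_apply, h1, ih _ h2]

/-- The generalised eigenspaces of the product with a projector. -/
theorem gen_proj {P a : Module.End K U} (hc : P * a = a * P) (hP : P * P = P) {l : K}
    (hl : l ≠ 0) {w : U} :
    w ∈ (P * a).maxGenEigenspace l ↔ P w = w ∧ w ∈ a.maxGenEigenspace l := by
  rw [Module.End.mem_maxGenEigenspace, Module.End.mem_maxGenEigenspace]
  constructor
  · rintro ⟨k, hk⟩
    have h1 : P w = w := by
      have hu : P (w - P w) = 0 := by
        rw [map_sub, ← Module.End.mul_apply, hP, sub_self]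
      have h2 : ∀ k, ((P * a - l • (1 : Module.End K U)) ^ k) (w - P w) =
          ((-l) ^ k) • (w - P w) := by
        intro k
        induction k with
        | zero => rw [pow_zero, pow_zero, one_smul, Module.End.one_apply]
        | succ k ih =>
          rw [pow_succ', Module.End.mul_apply, ih, map_smul, LinearMap.sub_apply, hc,
            Module.End.mul_apply, hu, map_zero, zero_sub, LinearMap.smul_apply,
            Module.End.one_apply, ← neg_smul, smul_smul, pow_succ]
      have h3 : Commute P (P * a - l • (1 : Module.End K U)) := by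
        refine Commute.sub_right ?_ ((Commute.one_right P).smul_right l)
        change P * (P * a) = P * a * P
        rw [← mul_assoc, hP, mul_assoc, ← hc, ← mul_assoc, hP]
      have h4 : ((P * a - l • (1 : Module.End K U)) ^ k) (w - P w) = 0 := by
        have h5 := LinearMap.congr_fun (h3.pow_right k) w
        rw [Module.End.mul_apply, Module.End.mul_apply, hk, map_zero] at h5
        rw [map_sub, hk, ← h5, sub_zero]
      rw [h2] at h4
      exact (sub_eq_zero.1 ((smul_eq_zero.1 h4).resolve_left
        (pow_ne_zero _ (neg_ne_zero.2 hl)))).symm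
    exact ⟨h1, k, by rw [← pow_proj hc l k w h1, hk]⟩
  · rintro ⟨h1, k, hk⟩
    exact ⟨k, by rw [pow_proj hc l k w h1, hk]⟩

theorem proj_pow {P a : Module.End K U} (hc : P * a = a * P) (hP : P * P = P) {m : ℕ}
    (hm : m ≠ 0) : (P * a) ^ m = P * a ^ m := by
  obtain ⟨m, rfl⟩ := Nat.exists_eq_succ_of_ne_zero hm
  have h1 : Commute P a := hc
  rw [h1.mul_pow]
  congr 1
  induction m with
  | zero => exact pow_one P
  | succ m ih => rw [pow_succ, ih (Nat.succ_ne_zero m), hP]

end proj

variable {C : Type} [Field C] [IsAlgClosed C] [CharZero C]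

theorem finrank_maxGen_base {F U : Type} [Field F] [Algebra F C] [AddCommGroup U] [Module F U]
    [FiniteDimensional F U] (a : Module.End F U) (l : F) :
    finrank C (Module.End.maxGenEigenspace (a.baseChange C) (algebraMap F C l)) =
      finrank F (a.maxGenEigenspace l) := by
  rw [LinearMap.finrank_maxGenEigenspace_eq, LinearMap.finrank_maxGenEigenspace_eq,
    LinearMap.charpoly_baseChange]
  exact (Polynomial.eq_rootMultiplicity_map (algebraMap F C).injective l).symm

/-- **The traces of the powers determine the dimensions of the generalised eigenspaces.** -/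
theorem mult_eqF {F F' U U' : Type} [Field F] [Field F'] [Algebra F C] [Algebra F' C]
    [AddCommGroup U] [Module F U] [FiniteDimensional F U] [AddCommGroup U'] [Module F' U']
    [FiniteDimensional F' U'] {a : Module.End F U} {a' : Module.End F' U'}
    (h : ∀ m, algebraMap F C (LinearMap.trace F U (a ^ m)) =
      algebraMap F' C (LinearMap.trace F' U' (a' ^ m))) {l : F} {l' : F'}
    (hl : algebraMap F C l = algebraMap F' C l') :
    finrank F (a.maxGenEigenspace l) = finrank F' (a'.maxGenEigenspace l') := by
  rw [← finrank_maxGen_base (C := C) a l, ← finrank_maxGen_base (C := C) a' l', hl]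
  refine mult_eq (fun m => ?_) _
  rw [← LinearMap.baseChange_pow, ← LinearMap.baseChange_pow, LinearMap.trace_baseChange,
    LinearMap.trace_baseChange, h]

/-- Common eigenvalues after the extension of the coefficients. -/
theorem mult_ne {F F' U U' : Type} [Field F] [Field F'] [Algebra F C] [Algebra F' C]
    [AddCommGroup U] [Module F U] [FiniteDimensional F U] [AddCommGroup U'] [Module F' U']
    [FiniteDimensional F' U'] {a : Module.End F U} {a' : Module.End F' U'}
    (h : ∀ m, algebraMap F C (LinearMap.trace F U (a ^ m)) =
      algebraMap F' C (LinearMap.trace F' U' (a' ^ m))) {l : C}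
    (hl : Module.End.maxGenEigenspace (a.baseChange C) l ≠ ⊥) :
    Module.End.maxGenEigenspace (a'.baseChange C) l ≠ ⊥ := by
  intro h0
  apply hl
  have h1 := mult_eq (a := a.baseChange C) (c := a'.baseChange C) (fun m => by
    rw [← LinearMap.baseChange_pow, ← LinearMap.baseChange_pow, LinearMap.trace_baseChange,
      LinearMap.trace_baseChange, h]) l
  rw [h0, finrank_bot] at h1
  exact Submodule.finrank_eq_zero.1 h1

/-! ### Roots of unity -/

variable {V : Type} [AddCommGroup V] [Module C V] [FiniteDimensional C V]

/-- No quotient of two different eigenvalues is a root of unity. -/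
def Neat (g : Module.End C V) : Prop :=
  ∀ x y, g.maxGenEigenspace x ≠ ⊥ → g.maxGenEigenspace y ≠ ⊥ → (∃ n, 0 < n ∧ x ^ n = y ^ n) →
    x = y

theorem gen_pow (g : Module.End C V) (N : ℕ) {c : C} (hc : (g ^ N).maxGenEigenspace c ≠ ⊥) :
    ∃ x, g.maxGenEigenspace x ≠ ⊥ ∧ x ^ N = c := by
  by_contra hcon
  push Not at hcon
  apply hc
  have h1 : ∀ x, g.maxGenEigenspace x ≤ ⨆ c' ≠ c, (g ^ N).maxGenEigenspace c' := by
    intro x
    by_cases hx : g.maxGenEigenspace x = ⊥
    · rw [hx]
      exact bot_le
    · refine le_trans ?_ (le_iSup₂_of_le (x ^ N) (hcon x hx) le_rfl)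
      exact fun v hv => mem_gen_pow hv N
  have h2 : (⨆ c' ≠ c, (g ^ N).maxGenEigenspace c') = ⊤ := by
    rw [eq_top_iff, ← Module.End.iSup_maxGenEigenspace_eq_top g]
    exact iSup_le h1
  have h3 := (g ^ N).independent_maxGenEigenspace c
  rw [h2] at h3
  exact disjoint_top.1 h3

/-- A power is neat. -/
theorem exists_neat (g : Module.End C V) : ∃ N, 0 < N ∧ Neat (g ^ N) := by
  classical
  let S := (fin_gen g).toFinset
  have h1 : ∀ p : C × C, ∃ n : ℕ, 0 < n ∧ ((∃ m, 0 < m ∧ p.1 ^ m = p.2 ^ m) →
      p.1 ^ n = p.2 ^ n) := by
    intro p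
    by_cases hp : ∃ m, 0 < m ∧ p.1 ^ m = p.2 ^ m
    · obtain ⟨m, hm, h⟩ := hp
      exact ⟨m, hm, fun _ => h⟩
    · exact ⟨1, one_pos, fun h => absurd h hp⟩
  choose n hn hn' using h1
  refine ⟨∏ p ∈ S ×ˢ S, n p, Finset.prod_pos fun p _ => hn p, ?_⟩
  rintro x y hx hy ⟨m, hm, hxy⟩
  obtain ⟨x, hx', rfl⟩ := gen_pow g _ hx
  obtain ⟨y, hy', rfl⟩ := gen_pow g _ hy
  rw [← pow_mul, ← pow_mul] at hxy
  have h2 := hn' (x, y) ⟨_, Nat.mul_pos (Finset.prod_pos fun p _ => hn p) hm, hxy⟩
  have h3 : (x, y) ∈ S ×ˢ S := by
    rw [Finset.mem_product, Set.Finite.mem_toFinset, Set.Finite.mem_toFinset]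
    exact ⟨hx', hy'⟩
  obtain ⟨k, hk⟩ := Finset.dvd_prod_of_mem n h3
  rw [hk, pow_mul, pow_mul]
  change x ^ n (x, y) = y ^ n (x, y) at h2
  rw [h2]

/-- The operators which commute with the torus preserve the generalised eigenspaces. -/
theorem pres_of_comm {g Z : Module.End C V} (hn : Neat g) (hg0 : Function.Injective g)
    (h : ∀ φ ∈ Chr C, Z * fd g φ = fd g φ * Z) : Pres g Z := by
  classical
  have hne : ∀ x, g.maxGenEigenspace x ≠ ⊥ → x ≠ 0 := by
    rintro x hx rfl
    apply hx
    rw [eq_bot_iff]
    intro v hv
    obtain ⟨k, hk⟩ := (Module.End.mem_maxGenEigenspace _ _ _).1 hv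
    rw [zero_smul, sub_zero] at hk
    have h2 : Function.Injective (g ^ k) := by
      rw [Module.End.coe_pow]
      exact hg0.iterate k
    exact h2 (hk.trans (map_zero _).symm)
  intro x v hv
  by_cases hx : g.maxGenEigenspace x = ⊥
  · rw [hx, Submodule.mem_bot] at hv
    rw [hv, map_zero]
    exact Submodule.zero_mem _
  -- the component in the space for `y`
  have key : ∀ y, y ≠ x → fd g (fun z => if z = y then 1 else 0) (Z v) = 0 := by
    intro y hy
    by_cases hy0 : g.maxGenEigenspace y = ⊥
    · refine g_ind g (p := fun w => fd g (fun z => if z = y then 1 else 0) w = 0) ?_ ?_ (Z v)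
      · intro c w hw
        rw [fd_apply _ hw]
        by_cases hcy : c = y
        · rw [hcy, hy0, Submodule.mem_bot] at hw
          rw [hw, smul_zero]
        · rw [if_neg hcy, zero_smul]
      · intro u w hu hw
        rw [map_add, hu, hw, add_zero]
    · obtain ⟨φ, hφ, hφ'⟩ := exists_chr (a := y / x) (div_ne_zero (hne y hy0) (hne x hx))
        (fun n hn' h1 => hy (hn y x hy0 hx ⟨n, hn', by
          rw [div_pow, div_eq_one_iff_eq (pow_ne_zero _ (hne x hx))] at h1
          exact h1⟩))
      have h2 : φ y = φ (y / x) + φ x := by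
        rw [← hφ _ _ (div_ne_zero (hne y hy0) (hne x hx)) (hne x hx),
          div_mul_cancel₀ _ (hne x hx)]
      have h3 : fd g φ (Z v) = φ x • Z v := by
        have h4 := LinearMap.congr_fun (h φ hφ) v
        rw [Module.End.mul_apply, Module.End.mul_apply, fd_apply φ hv, map_smul] at h4
        exact h4.symm
      -- the projector
      have h4 : ∀ w, fd g φ (fd g (fun z => if z = y then 1 else 0) w) =
          φ y • fd g (fun z => if z = y then 1 else 0) w := by
        intro w
        refine g_ind g (p := fun w => fd g φ (fd g (fun z => if z = y then 1 else 0) w) =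
          φ y • fd g (fun z => if z = y then 1 else 0) w) ?_ ?_ w
        · intro c w hw
          rw [fd_apply _ hw]
          by_cases hcy : c = y
          · rw [if_pos hcy, one_smul, fd_apply φ hw, hcy]
          · rw [if_neg hcy, zero_smul, map_zero, smul_zero]
        · intro u w hu hw
          rw [map_add, map_add, hu, hw, smul_add]
      have h5 : ∀ w, fd g φ (fd g (fun z => if z = y then 1 else 0) w) =
          fd g (fun z => if z = y then 1 else 0) (fd g φ w) := by
        intro w
        refine g_ind g (p := fun w => fd g φ (fd g (fun z => if z = y then 1 else 0) w) =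
          fd g (fun z => if z = y then 1 else 0) (fd g φ w)) ?_ ?_ w
        · intro c w hw
          rw [fd_apply _ hw, fd_apply _ hw, map_smul, map_smul, fd_apply _ hw, fd_apply _ hw,
            smul_smul, smul_smul, mul_comm]
        · intro u w hu hw
          rw [map_add, map_add, hu, hw, map_add, map_add]
      have h6 := h4 (Z v)
      rw [h5, h3, map_smul, ← sub_eq_zero, ← sub_smul, h2] at h6
      refine (smul_eq_zero.1 h6).resolve_left ?_
      rw [sub_add_cancel_right]
      exact neg_ne_zero.2 hφ'
  -- the vector is the sum of its components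
  have h1 : ∀ w : V, (∀ y, y ≠ x → fd g (fun z => if z = y then 1 else 0) w = 0) →
      w ∈ g.maxGenEigenspace x := by
    intro w hw
    have h2 : w = fd g (fun z => if z = x then 1 else 0) w := by
      have h3 : ∀ w : V, w = ∑ y ∈ insert x (fin_gen g).toFinset,
          fd g (fun z => if z = y then 1 else 0) w := by
        intro w
        refine g_ind g (p := fun w => w = ∑ y ∈ insert x (fin_gen g).toFinset,
          fd g (fun z => if z = y then 1 else 0) w) ?_ ?_ w
        · intro c w hw
          simp only [fd_apply _ hw]
          by_cases hc : c ∈ insert x (fin_gen g).toFinset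
          · rw [Finset.sum_eq_single c]
            · rw [if_pos rfl, one_smul]
            · intro y _ hy
              rw [if_neg (Ne.symm hy), zero_smul]
            · intro h4
              exact absurd hc h4
          · have h4 : g.maxGenEigenspace c = ⊥ := by
              by_contra h5
              exact hc (Finset.mem_insert_of_mem ((Set.Finite.mem_toFinset _).2 h5))
            rw [h4, Submodule.mem_bot] at hw
            rw [hw]
            simp only [smul_zero, Finset.sum_const_zero]
        · intro u w hu hw
          simp only [map_add]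
          rw [Finset.sum_add_distrib, ← hu, ← hw]
      conv_lhs => rw [h3 w]
      rw [Finset.sum_eq_single x]
      · intro y _ hy
        exact hw y hy
      · intro h4
        exact absurd (Finset.mem_insert_self _ _) h4
    rw [h2]
    refine g_ind g (p := fun w => fd g (fun z => if z = x then 1 else 0) w ∈
      g.maxGenEigenspace x) ?_ ?_ w
    · intro c w hw
      rw [fd_apply _ hw]
      by_cases hc : c = x
      · rw [if_pos hc, one_smul, ← hc]
        exact hw
      · rw [if_neg hc, zero_smul]
        exact Submodule.zero_mem _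
    · intro u w hu hw
      rw [map_add]
      exact Submodule.add_mem _ hu hw
  exact h1 _ key

end

end Pool.Agent.Q50.LI
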