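import Pool.Agent.Q50.LI.Cr

/-!
# Subalgebras of full rank

Let `h ⊆ g` be Lie algebras of endomorphisms, and let `t ⊆ h` be a space of diagonal operators which
is its own centraliser in `g`. If `h` contains opposite root vectors and if the commutants of `h`
and `g` in the algebra of all endomorphisms are equal, then `g = h`.
-/

set_option linter.unusedSectionVars false

namespace Pool.Agent.Q50.LI

open Module Pool.Agent.Q50.FP Pool.Agent.W516.KC Pool.Agent.W516.KC2

noncomputable section

variable {C V ι : Type*} [Field C] [CharZero C] [AddCommGroup V] [Module C V] [Fintype ι]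
  [DecidableEq ι] [FiniteDimensional C V] {b : Basis ι C V} {t h g : Submodule C (Module.End C V)}

theorem adj_lie {e f s : Module.End C V} (h1 : e * f - f * e = s) (Z : Module.End C V) :
    adj f (adj e Z) = adj e (adj f Z) - adj s Z := by
  rw [adj_apply, adj_apply, adj_apply, adj_apply, adj_apply, ← h1]
  noncomm_ring

/-- The weights of chains. -/
theorem chain_wt {e s : Module.End C V} (h2 : s * e - e * s = (2 : C) • e) {Z : Module.End C V}
    {m : C} (hZ : s * Z - Z * s = m • Z) (k : ℕ) :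
    s * ((adj e ^ k) Z) - ((adj e ^ k) Z) * s = (m + 2 * k) • (adj e ^ k) Z := by
  induction k with
  | zero => rw [pow_zero, Module.End.one_apply, hZ, Nat.cast_zero, mul_zero, add_zero]
  | succ k ih =>
    rw [pow_succ', Module.End.mul_apply, adj_apply]
    set Y := (adj e ^ k) Z
    have h3 : s * (e * Y - Y * e) - (e * Y - Y * e) * s =
        ((s * e - e * s) * Y - Y * (s * e - e * s)) + (e * (s * Y - Y * s) -
          (s * Y - Y * s) * e) := by noncomm_ring
    rw [h3, h2, ih, smul_mul_assoc, mul_smul_comm, mul_smul_comm, smul_mul_assoc, ← smul_sub,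
      ← smul_sub, ← add_smul]
    congr 1
    push_cast
    ring

theorem chain_f {e f s : Module.End C V} (h1 : e * f - f * e = s)
    (h2 : s * e - e * s = (2 : C) • e) {Z : Module.End C V} {m : C}
    (hZ : s * Z - Z * s = m • Z) (h0 : adj e (adj f Z) = 0) (k : ℕ) :
    adj f ((adj e ^ (k + 1)) Z) = -((k + 1) * (m + k)) • (adj e ^ k) Z := by
  induction k with
  | zero =>
    rw [zero_add, pow_one, pow_zero, Module.End.one_apply, adj_lie h1, h0, adj_apply, hZ, zero_sub,
      ← neg_smul]
    congr 1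
    push_cast
    ring
  | succ k ih =>
    rw [pow_succ', Module.End.mul_apply, adj_lie h1, ih, map_smul, ← Module.End.mul_apply,
      ← pow_succ', adj_apply s, chain_wt h2 hZ, ← sub_smul]
    congr 1
    push_cast
    ring

/-- **The raising operator is surjective on positive weights.** -/
theorem inj_of_pos (c : Cr b h t) (ht : ∀ T ∈ t, Dg b T) {Z : Module.End C V} {m : ℕ} (hm : 0 < m)
    (hZ : c.s * Z - Z * c.s = (m : C) • Z) (h0 : adj c.e (adj c.f Z) = 0) : Z = 0 := by
  classical
  have hex : ∃ k : ℕ, (adj c.e ^ k) Z = 0 := by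
    by_contra hcon
    push Not at hcon
    choose i j hij using fun k => exists_ent (b := b) (hcon k)
    refine not_injective_infinite_finite (fun k => (i k, j k)) fun k l hkl => ?_
    have h1 : ∀ k, (m : C) + 2 * k = co b (i k) c.s - co b (j k) c.s := by
      intro k
      have h2 := ent_comm (ht _ c.hs) ((adj c.e ^ k) Z) (i k) (j k)
      rw [chain_wt c.se hZ, LinearMap.smul_apply, map_smul, Finsupp.smul_apply, smul_eq_mul] at h2
      exact mul_right_cancel₀ (hij k) h2
    have h2 := h1 k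
    have h3 := h1 l
    have h4 : i k = i l := congrArg Prod.fst hkl
    have h5 : j k = j l := congrArg Prod.snd hkl
    rw [h4, h5, ← h3] at h2
    have h6 : (k : C) = l := mul_left_cancel₀ (two_ne_zero (α := C)) (add_left_cancel h2)
    exact Nat.cast_injective h6
  have hk := Nat.find_spec hex
  have hmin := fun m => Nat.find_min (m := m) hex
  by_contra hZ0
  obtain ⟨k, hkk⟩ : ∃ k, Nat.find hex = k + 1 := by
    refine ⟨Nat.find hex - 1, ?_⟩
    have : Nat.find hex ≠ 0 := fun h0 => by
      rw [h0, pow_zero, Module.End.one_apply] at hk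
      exact hZ0 hk
    omega
  rw [hkk] at hk
  have h1 := chain_f c.ef c.se hZ h0 k
  rw [hk, map_zero] at h1
  rcases smul_eq_zero.1 h1.symm with h2 | h2
  · rw [neg_eq_zero] at h2
    have h3 : (((k + 1) * (m + k) : ℕ) : C) = 0 := by
      push_cast
      exact h2
    have h4 := Nat.cast_eq_zero.1 h3
    have h5 : 0 < (k + 1) * (m + k) := by positivity
    omega
  · exact hmin k (by omega) h2

/-- The functional given by a list of coroots. -/
def lsum (L : List (Cr b h t)) (T : Module.End C V) : C :=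
  (L.map fun c => (c.q : C) * LinearMap.trace C V (c.s * T)).sum

theorem lsum_nil (T : Module.End C V) : lsum ([] : List (Cr b h t)) T = 0 := rfl

theorem lsum_cons (c : Cr b h t) (L : List (Cr b h t)) (T : Module.End C V) :
    lsum (c :: L) T = (c.q : C) * LinearMap.trace C V (c.s * T) + lsum L T := by
  rw [lsum, List.map_cons, List.sum_cons]
  rfl

theorem lsum_append (L L' : List (Cr b h t)) (T : Module.End C V) :
    lsum (L ++ L') T = lsum L T + lsum L' T := by
  rw [lsum, List.map_append, List.sum_append]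
  rfl

theorem lsum_perm {L L' : List (Cr b h t)} (hp : L.Perm L') (T : Module.End C V) :
    lsum L T = lsum L' T := (hp.map _).sum_eq

/-- The element of `t` which represents the functional. -/
theorem exists_repr (L : List (Cr b h t)) : ∃ S ∈ t,
    (∀ T, lsum L T = LinearMap.trace C V (S * T)) ∧ ∀ i, ∃ r : ℚ, co b i S = r := by
  induction L with
  | nil =>
    refine ⟨0, t.zero_mem, fun T => ?_, fun i => ⟨0, ?_⟩⟩
    · rw [lsum_nil, zero_mul, map_zero]
    · rw [map_zero, Rat.cast_zero]
  | cons c L ih =>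
    obtain ⟨S, hS, h1, h2⟩ := ih
    refine ⟨(c.q : C) • c.s + S, t.add_mem (t.smul_mem _ c.hs) hS, fun T => ?_, fun i => ?_⟩
    · rw [lsum_cons, h1, add_mul, map_add, smul_mul_assoc, map_smul, smul_eq_mul]
    · obtain ⟨r, hr⟩ := h2 i
      obtain ⟨n, hn⟩ := c.int i
      refine ⟨c.q * n + r, ?_⟩
      rw [map_add, map_smul, hn, hr, smul_eq_mul]
      push_cast
      rfl

/-- Positivity. -/
theorem exists_pos (ht : ∀ T ∈ t, Dg b T) (L : List (Cr b h t)) {X : Module.End C V} (hX : X ≠ 0)
    (hw : Wt t (lsum L) X) (hne : ∃ T ∈ t, lsum L T ≠ 0) :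
    ∃ c ∈ L, ∃ m : ℕ, 0 < m ∧ lsum L c.s = m := by
  obtain ⟨S, hS, h1, h2⟩ := exists_repr L
  choose r hr using h2
  obtain ⟨i, j, hij⟩ := exists_ent (b := b) hX
  -- the values on coroots are integers
  have hint : ∀ c ∈ L, ∃ n : ℤ, lsum L c.s = n := by
    intro c _
    obtain ⟨n, hn⟩ := c.int i
    obtain ⟨n', hn'⟩ := c.int j
    refine ⟨n - n', ?_⟩
    rw [hw.ent c.hs (ht _ c.hs) hij, hn, hn']
    push_cast
    rfl
  -- the square
  have hsq : lsum L S = ((∑ i, r i * r i : ℚ) : C) := by
    rw [h1, trace_diag (ht _ hS) (ht _ hS)]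
    push_cast
    exact Finset.sum_congr rfl fun i _ => by rw [hr]
  have hpos : 0 < ∑ i, r i * r i := by
    refine lt_of_le_of_ne (Finset.sum_nonneg fun i _ => mul_self_nonneg _) fun h0 => ?_
    obtain ⟨T, _, hT⟩ := hne
    apply hT
    have h3 : S = 0 := by
      refine diag_zero (ht _ hS) fun i => ?_
      have h4 := (Finset.sum_eq_zero_iff_of_nonneg fun i _ => mul_self_nonneg (r i)).1 h0.symm i
        (Finset.mem_univ i)
      rw [hr, mul_self_eq_zero.1 h4, Rat.cast_zero]
    rw [h1, h3, zero_mul, map_zero]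
  by_contra hcon
  push Not at hcon
  -- all values are nonpositive
  have key : ∀ M : List (Cr b h t), (∀ c ∈ M, c ∈ L) → ∃ x : ℚ, x ≤ 0 ∧ lsum M S = x := by
    intro M
    induction M with
    | nil => exact fun _ => ⟨0, le_rfl, by rw [lsum_nil, Rat.cast_zero]⟩
    | cons c M ih =>
      intro hM
      obtain ⟨x, hx, hx'⟩ := ih fun c hc => hM c (List.mem_cons_of_mem _ hc)
      obtain ⟨n, hn⟩ := hint c (hM c List.mem_cons_self)
      refine ⟨c.q * n + x, ?_, ?_⟩
      · have h3 : n ≤ 0 := by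
          by_contra h4
          push Not at h4
          obtain ⟨m, rfl⟩ := Int.eq_ofNat_of_zero_le h4.le
          exact hcon c (hM c List.mem_cons_self) m (by exact_mod_cast h4) (by
            rw [hn]
            push_cast
            rfl)
        have h4 : (n : ℚ) ≤ 0 := by exact_mod_cast h3
        nlinarith [c.qpos, mul_nonneg c.qpos.le (neg_nonneg.2 h4)]
      · rw [lsum_cons, hx', LinearMap.trace_mul_comm, ← h1, hn]
        push_cast
        rfl
  obtain ⟨x, hx, hx'⟩ := key L fun c hc => hc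
  rw [hsq] at hx'
  have h3 : ∑ i, r i * r i = x := Rat.cast_injective hx'
  linarith

/-- Weight vectors whose weight is a sum of roots of `h` are in `h`. -/
theorem mem_of_lsum (ht : ∀ T ∈ t, Dg b T) (th : t ≤ h) (hg : h ≤ g)
    (hbr : ∀ X ∈ h, ∀ Y ∈ h, X * Y - Y * X ∈ h) (gbr : ∀ X ∈ g, ∀ Y ∈ g, X * Y - Y * X ∈ g)
    (cent : ∀ Z ∈ g, (∀ T ∈ t, T * Z = Z * T) → Z ∈ t) (n : ℕ) :
    ∀ L : List (Cr b h t), L.length = n → ∀ X ∈ g, Wt t (lsum L) X → X ∈ h := by
  classical
  induction n with
  | zero =>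
    intro L hL X hX hw
    refine th (cent X hX fun T hT => ?_)
    have h1 := hw T hT
    rw [List.length_eq_zero_iff.1 hL, lsum_nil, zero_smul] at h1
    exact sub_eq_zero.1 h1
  | succ n ih =>
    intro L hL X hX hw
    by_cases hX0 : X = 0
    · rw [hX0]
      exact h.zero_mem
    by_cases hne : ∃ T ∈ t, lsum L T ≠ 0
    swap
    · push Not at hne
      refine th (cent X hX fun T hT => ?_)
      have h1 := hw T hT
      rw [hne T hT, zero_smul] at h1
      exact sub_eq_zero.1 h1
    obtain ⟨c, hc, m, hm, hcm⟩ := exists_pos ht L hX0 hw hne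
    -- the weight space
    let gα : Submodule C (Module.End C V) :=
      { carrier := {Z | Z ∈ g ∧ Wt t (lsum L) Z}
        zero_mem' := ⟨g.zero_mem, fun T _ => by rw [mul_zero, zero_mul, sub_zero, smul_zero]⟩
        add_mem' := fun {Y Z} hY hZ => ⟨g.add_mem hY.1 hZ.1, fun T hT => by
          have h1 : T * (Y + Z) - (Y + Z) * T = (T * Y - Y * T) + (T * Z - Z * T) := by
            noncomm_ring
          rw [h1, hY.2 T hT, hZ.2 T hT, smul_add]⟩
        smul_mem' := fun r Z hZ => ⟨g.smul_mem _ hZ.1, hZ.2.smul r⟩ }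
    have hce := hg c.he
    have hcf := hg c.hf
    have hF1 : ∀ Z ∈ gα, adj c.f Z ∈ g ∧ Wt t (fun T => -((c.q : C) *
        LinearMap.trace C V (c.s * T)) + lsum L T) (adj c.f Z) := fun Z hZ =>
      ⟨gbr _ hcf _ hZ.1, c.wtf.br hZ.2⟩
    have hF : ∀ Z ∈ gα, (adj c.e * adj c.f) Z ∈ gα := by
      intro Z hZ
      obtain ⟨h1, h2⟩ := hF1 Z hZ
      refine ⟨gbr _ hce _ h1, (c.wt.br h2).congr fun T _ => ?_⟩
      exact add_neg_cancel_left _ _
    let F : gα →ₗ[C] gα := (adj c.e * adj c.f).restrict hF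
    have hinj : Function.Injective F := by
      rw [← LinearMap.ker_eq_bot, LinearMap.ker_eq_bot']
      rintro ⟨Z, hZ⟩ h0
      have h1 : adj c.e (adj c.f Z) = 0 := congrArg Subtype.val h0
      refine Subtype.ext (inj_of_pos c ht hm ?_ h1)
      rw [hZ.2 c.s c.hs, hcm]
    obtain ⟨⟨Z, hZ⟩, hZX⟩ := (LinearMap.injective_iff_surjective.1 hinj) ⟨X, hX, hw⟩
    have h1 : adj c.e (adj c.f Z) = X := congrArg Subtype.val hZX
    obtain ⟨h2, h3⟩ := hF1 Z hZ
    -- the list without `c`
    have hperm := List.perm_cons_erase hc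
    have h4 : adj c.f Z ∈ h := by
      refine ih (L.erase c) (by rw [List.length_erase_of_mem hc, hL]; rfl) _ h2
        (h3.congr fun T _ => ?_)
      have h6 := lsum_perm hperm T
      rw [lsum_cons] at h6
      rw [h6]
      exact neg_add_cancel_left _ _
    rw [← h1]
    exact hbr _ c.he _ h4

/-- The difference of the weights of two basis vectors is a sum of roots. -/
def Rel (b : Basis ι C V) (h t : Submodule C (Module.End C V)) (i j : ι) : Prop :=
  ∃ L : List (Cr b h t), ∀ T ∈ t, co b i T - co b j T = lsum L T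

theorem Rel.trans {i j l : ι} (h1 : Rel b h t i j) (h2 : Rel b h t j l) : Rel b h t i l := by
  obtain ⟨L, hL⟩ := h1
  obtain ⟨L', hL'⟩ := h2
  refine ⟨L ++ L', fun T hT => ?_⟩
  rw [lsum_append, ← hL T hT, ← hL' T hT]
  ring

theorem Rel.refl (i : ι) : Rel b h t i i := ⟨[], fun T _ => by rw [sub_self, lsum_nil]⟩

/-- **A Lie subalgebra with the same commutant which contains a torus of `g` which is its own
centraliser, and which contains opposite root vectors, is equal to `g`.** -/
theorem le_of_rank (ht : ∀ T ∈ t, Dg b T) (th : t ≤ h) (hg : h ≤ g)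
    (hbr : ∀ X ∈ h, ∀ Y ∈ h, X * Y - Y * X ∈ h) (gbr : ∀ X ∈ g, ∀ Y ∈ g, X * Y - Y * X ∈ g)
    (cent : ∀ Z ∈ g, (∀ T ∈ t, T * Z = Z * T) → Z ∈ t)
    (crs : ∀ (α : Module.End C V → C) (e : Module.End C V), e ∈ h → Wt t α e →
      (∃ T ∈ t, α T ≠ 0) → e ≠ 0 →
        ∃ c : Cr b h t, ∀ T ∈ t, α T = (c.q : C) * LinearMap.trace C V (c.s * T))
    (comm : ∀ P : Module.End C V, (∀ Z ∈ h, Z * P = P * Z) → ∀ Z ∈ g, Z * P = P * Z) :
    g ≤ h := by
  classical
  intro X hX
  obtain ⟨S, z, hXz, hz⟩ := decomp ht (𝔪 := g) (fun T hT Z hZ => gbr _ (hg (th hT)) _ hZ) hX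
  rw [hXz]
  refine h.sum_mem fun a _ => ?_
  obtain ⟨ha, α, hα⟩ := hz a
  generalize z a = Z at ha hα
  by_cases h0 : Z = 0
  · rw [h0]
    exact h.zero_mem
  obtain ⟨i, j, hij⟩ := exists_ent (b := b) h0
  -- the projector
  obtain ⟨P, hP⟩ : ∃ P : Module.End C V, ∀ l, P (b l) = (if Rel b h t l j then (1 : C) else 0) •
      b l := ⟨b.constr C fun l => (if Rel b h t l j then (1 : C) else 0) • b l, fun l =>
    b.constr_basis C _ l⟩
  have hd : Dg b P := fun l => ⟨_, hP l⟩
  have hco : ∀ l, co b l P = if Rel b h t l j then (1 : C) else 0 := by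
    intro l
    change b.repr (P (b l)) l = _
    rw [hP, map_smul, b.repr_self, Finsupp.smul_apply, Finsupp.single_eq_same, smul_eq_mul,
      mul_one]
  have hcomm : ∀ Y ∈ h, Y * P = P * Y := by
    intro Y hY
    obtain ⟨S', y, hYy, hy⟩ := decomp ht (𝔪 := h) (fun T hT Z hZ => hbr _ (th hT) _ hZ) hY
    rw [hYy, Finset.sum_mul, Finset.mul_sum]
    refine Finset.sum_congr rfl fun a _ => ?_
    obtain ⟨hya, β, hβ⟩ := hy a
    generalize y a = y at hya hβ
    symm
    rw [← sub_eq_zero]
    refine ext_ent (b := b) fun l m => ?_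
    rw [ent_comm hd, LinearMap.zero_apply, map_zero, Finsupp.zero_apply]
    by_cases hlm : b.repr (y (b m)) l = 0
    · rw [hlm, mul_zero]
    have hβ' : ∀ T ∈ t, β T = co b l T - co b m T := fun T hT => hβ.ent hT (ht T hT) hlm
    have hy0 : y ≠ 0 := by
      intro h1
      apply hlm
      rw [h1, LinearMap.zero_apply, map_zero, Finsupp.zero_apply]
    have hrel : Rel b h t l m ∧ Rel b h t m l := by
      by_cases hne : ∃ T ∈ t, β T ≠ 0
      · obtain ⟨c, hc⟩ := crs β y hya hβ hne hy0
        have hcf : c.f ≠ 0 := by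
          intro h1
          obtain ⟨T, hT, hT'⟩ := hne
          apply hT'
          have h2 : c.s = 0 := by rw [← c.ef, h1, mul_zero, zero_mul, sub_zero]
          rw [hc T hT, h2, zero_mul, map_zero, mul_zero]
        obtain ⟨c', hc'⟩ := crs (fun T => -((c.q : C) * LinearMap.trace C V (c.s * T))) c.f c.hf
          c.wtf (by
            obtain ⟨T, hT, hT'⟩ := hne
            exact ⟨T, hT, by rw [← hc T hT]; exact neg_ne_zero.2 hT'⟩) hcf
        refine ⟨⟨[c], fun T hT => ?_⟩, ⟨[c'], fun T hT => ?_⟩⟩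
        · rw [← hβ' T hT, hc T hT, lsum_cons, lsum_nil, add_zero]
        · rw [lsum_cons, lsum_nil, add_zero, ← hc' T hT, ← hc T hT, hβ' T hT]
          ring
      · push Not at hne
        refine ⟨⟨[], fun T hT => ?_⟩, ⟨[], fun T hT => ?_⟩⟩
        · rw [← hβ' T hT, hne T hT, lsum_nil]
        · rw [← neg_sub, ← hβ' T hT, hne T hT, lsum_nil, neg_zero]
    have h1 : Rel b h t l j ↔ Rel b h t m j :=
      ⟨fun h1 => hrel.2.trans h1, fun h1 => hrel.1.trans h1⟩
    rw [hco, hco]
    by_cases h2 : Rel b h t l j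
    · rw [if_pos h2, if_pos (h1.1 h2), sub_self, zero_mul]
    · rw [if_neg h2, if_neg fun h3 => h2 (h1.2 h3), sub_self, zero_mul]
  have h1 := comm P hcomm Z ha
  have h2 := ent_comm hd Z i j
  rw [← h1, sub_self, LinearMap.zero_apply, map_zero, Finsupp.zero_apply] at h2
  have h3 := (mul_eq_zero.1 h2.symm).resolve_right hij
  rw [hco, hco, if_pos (Rel.refl j)] at h3
  have h4 : Rel b h t i j := by
    by_contra h4
    rw [if_neg h4, zero_sub, neg_eq_zero] at h3
    exact one_ne_zero h3
  obtain ⟨L, hL⟩ := h4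
  refine mem_of_lsum ht th hg hbr gbr cent L.length L rfl _ ha fun T hT => ?_
  rw [hα T hT, ← hL T hT, hα.ent hT (ht T hT) hij]

end

end Pool.Agent.Q50.LI
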