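import Mathlib
import Pool.Agent.H204R3.SP.Lie

/-!
# Forms which are killed by a part of an `sl_2`-triple

A form which is killed by `e` and `s` is killed by `f`, for every `sl_2`-triple `(e, f, s)`.
-/

set_option linter.unusedSectionVars false

namespace Pool.Agent.Q50.LI

open Module Pool.Agent.H204R3.SP

noncomputable section

attribute [local instance 100] LieRing.ofAssociativeRing

variable {C V κ : Type*} [Field C] [CharZero C] [AddCommGroup V] [Module C V] [Fintype κ]
  [DecidableEq κ] [FiniteDimensional C V]

/-- The operator on forms. -/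
def dd (Z : Module.End C V) : Module.End C (MultilinearMap C (fun _ : κ => V) C) :=
  ∑ j, MultilinearMap.compLinearMapₗ (Function.update (fun _ => LinearMap.id) j Z)

theorem dd_apply (Z : Module.End C V) (φ : MultilinearMap C (fun _ : κ => V) C) (v : κ → V) :
    dd Z φ v = ∑ j, φ (Function.update v j (Z (v j))) := by
  rw [dd, LinearMap.sum_apply, sum_apply]
  refine Finset.sum_congr rfl fun j _ => ?_
  rw [MultilinearMap.compLinearMapₗ_apply, MultilinearMap.compLinearMap_apply]
  congr 1
  funext l
  by_cases hl : l = j
  · subst hl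
    rw [Function.update_self, Function.update_self]
  · rw [Function.update_of_ne hl, Function.update_of_ne hl]
    rfl

theorem dd_kills {Z : Module.End C V} {φ : MultilinearMap C (fun _ : κ => V) C} :
    dd Z φ = 0 ↔ Kills Z φ := by
  constructor
  · intro h v
    rw [← dd_apply, h]
    rfl
  · intro h
    ext v
    rw [dd_apply, h v]
    rfl

theorem dd_comm (X Y : Module.End C V) : (dd X * dd Y - dd Y * dd X :
    Module.End C (MultilinearMap C (fun _ : κ => V) C)) = dd (Y * X - X * Y) := by
  refine LinearMap.ext fun φ => ?_
  ext v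
  have key : ∀ (A B : Module.End C V), dd A (dd B φ) v =
      ∑ j, φ (Function.update v j (B (A (v j)))) + ∑ j, ∑ k ∈ Finset.univ.erase j,
          φ (Function.update (Function.update v j (A (v j))) k (B (v k))) := by
    intro A B
    rw [dd_apply, ← Finset.sum_add_distrib]
    refine Finset.sum_congr rfl fun j _ => ?_
    rw [dd_apply, ← Finset.add_sum_erase _ _ (Finset.mem_univ j), Function.update_self,
      Function.update_idem]
    congr 1
    refine Finset.sum_congr rfl fun k hk => ?_
    rw [Function.update_of_ne (Finset.ne_of_mem_erase hk)]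
  have h1 : ∀ k, φ (Function.update v k ((Y * X - X * Y) (v k))) =
      φ (Function.update v k (Y (X (v k)))) - φ (Function.update v k (X (Y (v k)))) := by
    intro k
    rw [LinearMap.sub_apply, MultilinearMap.map_update_sub]
    rfl
  have h2 : ∑ j, ∑ k ∈ Finset.univ.erase j,
      φ (Function.update (Function.update v j (Y (v j))) k (X (v k))) =
      ∑ j, ∑ k ∈ Finset.univ.erase j,
      φ (Function.update (Function.update v j (X (v j))) k (Y (v k))) := by
    have h3 : ∀ (A B : Module.End C V), ∑ j, ∑ k ∈ Finset.univ.erase j,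
        φ (Function.update (Function.update v j (A (v j))) k (B (v k))) =
        ∑ j, ∑ k, if k ≠ j then
          φ (Function.update (Function.update v j (A (v j))) k (B (v k))) else 0 := by
      intro A B
      refine Finset.sum_congr rfl fun j _ => ?_
      rw [← Finset.sum_filter]
      refine Finset.sum_congr ?_ fun _ _ => rfl
      ext k
      simp
    rw [h3, h3, Finset.sum_comm]
    refine Finset.sum_congr rfl fun j _ => Finset.sum_congr rfl fun k _ => ?_
    by_cases h : k = j
    · subst h
      simp
    · rw [if_pos (Ne.symm h), if_pos h, Function.update_comm (Ne.symm h)]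
  rw [LinearMap.sub_apply, Module.End.mul_apply, Module.End.mul_apply, sub_apply,
    key, key, dd_apply, Finset.sum_congr rfl (fun k _ => h1 k), Finset.sum_sub_distrib, h2]
  ring

theorem dd_smul (r : C) (Z : Module.End C V) : (dd (r • Z) :
    Module.End C (MultilinearMap C (fun _ : κ => V) C)) = r • dd Z := by
  refine LinearMap.ext fun φ => ?_
  ext v
  rw [dd_apply, LinearMap.smul_apply, smul_apply, dd_apply, Finset.smul_sum]
  refine Finset.sum_congr rfl fun j _ => ?_
  rw [LinearMap.smul_apply, MultilinearMap.map_update_smul]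

/-- The abstract form. -/
theorem sl_kill {M : Type*} [AddCommGroup M] [Module C M] [FiniteDimensional C M]
    {E F S : Module.End C M} (r1 : E * F - F * E = (-1 : C) • S)
    (r2 : S * E - E * S = (-2 : C) • E) (r3 : S * F - F * S = (2 : C) • F) {φ : M}
    (he : E φ = 0) (hs : S φ = 0) : F φ = 0 := by
  rw [neg_one_smul] at r1
  rw [neg_smul] at r2
  have r2' : -S * E - E * -S = (2 : C) • E := by
    rw [neg_mul, mul_neg, ← neg_neg ((2 : C) • E), ← r2]
    abel
  have r3' : -S * F - F * -S = -((2 : C) • F) := by
    rw [neg_mul, mul_neg, ← r3]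
    abel
  by_contra hne
  have hs0 : -S ≠ 0 := by
    intro h4
    rw [h4, zero_mul, mul_zero, sub_self] at r3'
    have h5 : F = 0 := by
      have h6 := neg_eq_zero.1 r3'.symm
      exact (smul_eq_zero.1 h6).resolve_left two_ne_zero
    exact hne (by rw [h5, LinearMap.zero_apply])
  have htr : IsSl2Triple (-S) E F :=
    ⟨hs0, r1, by
      rw [two_smul] at r2' ⊢
      exact r2', by
      rw [two_smul] at r3' ⊢
      exact r3'⟩
  have hP : htr.HasPrimitiveVectorWith (F φ) (-2 : C) := by
    refine ⟨hne, ?_, ?_⟩
    · have h4 := LinearMap.congr_fun r3 φ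
      rw [LinearMap.sub_apply, Module.End.mul_apply, Module.End.mul_apply, hs, map_zero, sub_zero,
        LinearMap.smul_apply] at h4
      change (-S) (F φ) = (-2 : C) • F φ
      rw [LinearMap.neg_apply, h4, neg_smul]
    · have h4 := LinearMap.congr_fun r1 φ
      rw [LinearMap.sub_apply, Module.End.mul_apply, Module.End.mul_apply, he, map_zero, sub_zero,
        LinearMap.neg_apply, hs, neg_zero] at h4
      exact h4
  obtain ⟨n, hn⟩ := hP.exists_nat
  have h4 : ((n + 2 : ℕ) : C) = 0 := by
    push_cast
    rw [← hn]
    ring
  have h5 := Nat.cast_eq_zero.1 h4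
  omega

/-- **Forms killed by `e` and `s` are killed by `f`.** -/
theorem kills_f {e f s : Module.End C V} (h1 : e * f - f * e = s)
    (h2 : s * e - e * s = (2 : C) • e) (h3 : s * f - f * s = -((2 : C) • f))
    {φ : MultilinearMap C (fun _ : κ => V) C} (he : Kills e φ) (hs : Kills s φ) : Kills f φ := by
  rw [← dd_kills] at he hs ⊢
  refine sl_kill (E := dd e) (S := dd s) ?_ ?_ ?_ he hs
  · have h4 := dd_comm (κ := κ) e f
    have h5 : f * e - e * f = (-1 : C) • s := by rw [← h1, neg_one_smul, neg_sub]
    rw [h5, dd_smul] at h4
    exact h4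
  · have h4 := dd_comm (κ := κ) s e
    have h5 : e * s - s * e = (-2 : C) • e := by rw [neg_smul, ← h2, neg_sub]
    rw [h5, dd_smul] at h4
    exact h4
  · have h4 := dd_comm (κ := κ) s f
    have h5 : f * s - s * f = (2 : C) • f := by rw [← neg_sub, h3, neg_neg]
    rw [h5, dd_smul] at h4
    exact h4

end

end Pool.Agent.Q50.LI
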