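import Pool.Agent.Q50.LI.Tor
import Pool.Agent.Q50.LI.Rt
import Pool.Agent.Q50.LI.Sl

/-!
# Opposite root vectors in the Lie algebra of the Tate classes
-/

open CategoryTheory AlgebraicGeometry TensorProduct

universe u w

set_option linter.unusedSectionVars false

namespace Pool.Agent.Q50.LI

open Module Pool.Agent.H204R3.SP Pool.Agent.W516.DR
open Pool.Agent.H914 Pool.Agent.H914.VarClass Pool.Agent.H914.VarClass.Obj
  Pool.Agent.H914.WeilCohomology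
open Pool.Agent.Y133.Half Pool.Agent.Q50.FP Pool.Agent.W516.KC Pool.Agent.W516.KC2
open Pool.Agent.Q55 (GaloisAction SubAction Virtually TateConj tatePred)
open Pool.Agent.Q60.TD (SemisimpleAt rep rep_apply exists_good act_one)

variable {k : Type u} [Field k] {𝒱 : VarClass k} {ops : CycleOps 𝒱}
  {E : WeilCohomology.{u, 0} ops} {X Y : 𝒱.Obj} {n : ℕ} {Γ : Type w} [Group Γ]
  {G : GaloisAction E Γ} [Algebra E.K ℂ] {ι : Type*} [Fintype ι] [DecidableEq ι]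
  {b : Basis ι ℂ (ℂ ⊗[E.K] E.H X)} {t : Submodule ℂ (Module.End ℂ (ℂ ⊗[E.K] E.H X))}

/-- **Opposite root vectors.** -/
theorem crs_galp (ht : ∀ T ∈ t, Dg b T) (th : t ≤ (bcE E X).xs (galp G X))
    (cd : ∀ Z ∈ kaS E X, Z * dg E X = dg E X * Z) (nd : TraceNondeg (der (gp E X)))
    (cent : ∀ Z ∈ (bcE E X).xs (gp E X), (∀ T ∈ t, T * Z = Z * T) → Z ∈ t)
    (α : Module.End ℂ (ℂ ⊗[E.K] E.H X) → ℂ) (e : Module.End ℂ (ℂ ⊗[E.K] E.H X))
    (he : e ∈ (bcE E X).xs (galp G X)) (hw : Wt t α e) (hne : ∃ T ∈ t, α T ≠ 0) (he0 : e ≠ 0) :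
    ∃ c : Cr b ((bcE E X).xs (galp G X)) t, ∀ T ∈ t,
      α T = (c.q : ℂ) * LinearMap.trace ℂ _ (c.s * T) := by
  obtain ⟨T₀, hT₀, h0⟩ := hne
  have hle : (bcE E X).xs (galp G X) ≤ (bcE E X).xs (gp E X) := (bcE E X).xs_mono galp_le_gp
  obtain ⟨c, hce, hcf, hsf, hc⟩ := exists_cr (h := (bcE E X).xs (gp E X)) ht (th.trans hle)
    ((bcE E X).xs_br (gp_br cd)) cent (by
      rw [(bcE E X).der_xs]
      exact (bcE E X).nondeg_xs nd) (hle he) hw hT₀ h0 he0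
  have he' : e ∈ (bcE E X).xs (gal G X) := by
    have h1 := mem_der _ (th hT₀) he
    rw [hw T₀ hT₀, (bcE E X).der_xs] at h1
    have h2 := Submodule.smul_mem _ (α T₀)⁻¹ ((bcE E X).xs_mono der_galp_le h1)
    rwa [smul_smul, inv_mul_cancel₀ h0, one_smul] at h2
  have hs' : c.s ∈ (bcE E X).xs (gal G X) := by
    have h1 : c.s ∈ (bcE E X).xs (kaS E X) := by
      have h2 := mem_der _ c.he c.hf
      rw [c.ef, (bcE E X).der_xs] at h2
      exact (bcE E X).xs_mono (der_gp_le cd) h2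
    exact (bcE E X).mem_xs.2 fun ν => mem_gal_of ((bcE E X).mem_xs.1 (th c.hs) ν)
      ((bcE E X).mem_xs.1 h1 ν)
  have hf' : c.f ∈ (bcE E X).xs (gal G X) := by
    refine (bcE E X).mem_xs.2 fun ν => ?_
    intro n M ψ hψ
    set β := Module.finBasis E.K (E.H X)
    set Φ := bcm (Ω := ℂ) β ψ with hΦdef
    have hΦ : ∀ v : Fin (n + 1) → E.H X, Φ (fun j => (1 : ℂ) ⊗ₜ[E.K] v j) =
        1 * algebraMap E.K ℂ (ψ v) := fun v => by rw [one_mul]; exact bcm_one β ψ v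
    refine ((bcE E X).kills_iff one_ne_zero hΦ).1 ?_ ν
    refine kills_f c.ef c.se hsf (((bcE E X).kills_iff one_ne_zero hΦ).2 fun ν => ?_)
      (((bcE E X).kills_iff one_ne_zero hΦ).2 fun ν => ?_)
    · rw [hce]
      exact (bcE E X).mem_xs.1 he' ν n M ψ hψ
    · exact (bcE E X).mem_xs.1 hs' ν n M ψ hψ
  refine ⟨⟨c.e, c.f, c.s, c.q, ?_, (bcE E X).xs_mono gal_le hf', c.hs, c.ef, c.se, c.qpos, c.wt,
    c.wtf, c.int⟩, hc⟩
  rw [hce]
  exact he

/-- **The commutants.** -/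
theorem comm_galp (hlog : HasLogs G X)
    (hTC : ∀ c, Pool.Agent.Q55.IsTate G (pw X 1) X.dim c →
      c ∈ spanCycles E (pw X 1) (X.dim : ℤ)) (P : Module.End ℂ (ℂ ⊗[E.K] E.H X))
    (hP : ∀ Z ∈ (bcE E X).xs (galp G X), Z * P = P * Z) (Z : Module.End ℂ (ℂ ⊗[E.K] E.H X))
    (hZ : Z ∈ (bcE E X).xs (gp E X)) : Z * P = P * Z := by
  unfold Bc.xs at hZ
  induction hZ using Submodule.span_induction with
  | mem x hx =>
    obtain ⟨y, hy, rfl⟩ := hx
    symm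
    refine (bcE E X).comm_iff.2 fun ν => ?_
    symm
    refine gp_comm hlog hTC (fun z hz => ?_) hy
    symm
    exact (bcE E X).comm_iff.1 (hP _ ((bcE E X).ext_mem hz)).symm ν
  | zero => rw [zero_mul, mul_zero]
  | add a b _ _ ha hb => rw [add_mul, mul_add, ha, hb]
  | smul r a _ ha => rw [smul_mul_assoc, mul_smul_comm, ha]

end Pool.Agent.Q50.LI
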