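import Pool.Agent.Q50.LI.Mul

/-!
# The projector on a Lie algebra with nondegenerate trace form
-/

set_option linter.unusedSectionVars false

namespace Pool.Agent.Q50.LI

open Module Pool.Agent.Q50.FP Pool.Agent.W516.KC Pool.Agent.W516.KC2 Pool.Agent.H204R3.SP

noncomputable section

variable {F V : Type*} [Field F] [CharZero F] [AddCommGroup V] [Module F V]
  [FiniteDimensional F V] (D : Submodule F (Module.End F V)) (hD : TraceNondeg D)

/-- The functional given by an endomorphism. -/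
def trA : Module.End F V →ₗ[F] Module.Dual F D where
  toFun z :=
    { toFun := fun X => LinearMap.trace F V (z * X.1)
      map_add' := fun X Y => by
        change LinearMap.trace F V (z * (X.1 + Y.1)) = _
        rw [mul_add, map_add]
      map_smul' := fun c X => by
        change LinearMap.trace F V (z * (c • X.1)) = _
        rw [mul_smul_comm, map_smul]
        rfl }
  map_add' y z := by
    ext X
    change LinearMap.trace F V ((y + z) * X.1) = LinearMap.trace F V (y * X.1) +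
      LinearMap.trace F V (z * X.1)
    rw [add_mul, map_add]
  map_smul' r z := by
    ext X
    change LinearMap.trace F V ((r • z) * X.1) = r * LinearMap.trace F V (z * X.1)
    rw [smul_mul_assoc, map_smul, smul_eq_mul]

/-- The projector on `D`. -/
def prD : Module.End F (Module.End F V) :=
  D.subtype ∘ₗ (trE D hD).symm.toLinearMap ∘ₗ trA D

theorem prD_mem (z : Module.End F V) : prD D hD z ∈ D := SetLike.coe_mem _

theorem prD_trace (z : Module.End F V) {X : Module.End F V} (hX : X ∈ D) :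
    LinearMap.trace F V (prD D hD z * X) = LinearMap.trace F V (z * X) :=
  trE_symm D hD (trA D z) ⟨X, hX⟩

theorem prD_eq {z y : Module.End F V} (hy : y ∈ D)
    (h : ∀ X ∈ D, LinearMap.trace F V (y * X) = LinearMap.trace F V (z * X)) :
    prD D hD z = y :=
  ext_trace D hD (prD_mem D hD z) hy fun X hX => by rw [prD_trace D hD z hX, h X hX]

theorem prD_of_mem {z : Module.End F V} (hz : z ∈ D) : prD D hD z = z :=
  prD_eq D hD hz fun _ _ => rfl

theorem prD_iff {z : Module.End F V} : prD D hD z = z ↔ z ∈ D :=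
  ⟨fun h => h ▸ prD_mem D hD z, prD_of_mem D hD⟩

theorem prD_idem : prD D hD * prD D hD = prD D hD :=
  LinearMap.ext fun z => prD_of_mem D hD (prD_mem D hD z)

theorem prD_conj {g g' : Module.End F V}
    (h1 : ∀ X ∈ D, g * X * g' ∈ D) (h2 : ∀ X ∈ D, g' * X * g ∈ D) (z : Module.End F V) :
    prD D hD (g * z * g') = g * prD D hD z * g' := by
  refine prD_eq D hD (h1 _ (prD_mem D hD z)) fun X hX => ?_
  have h3 : ∀ y : Module.End F V, LinearMap.trace F V (g * y * g' * X) =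
      LinearMap.trace F V (y * (g' * X * g)) := by
    intro y
    have h4 : g * y * g' * X = g * (y * g' * X) := by noncomm_ring
    rw [h4, LinearMap.trace_mul_comm]
    congr 1
  rw [h3, h3, prD_trace D hD z (h2 X hX)]

theorem prD_br {N : Module.End F V} (h1 : ∀ X ∈ D, N * X - X * N ∈ D) (z : Module.End F V) :
    prD D hD (N * z - z * N) = N * prD D hD z - prD D hD z * N := by
  refine prD_eq D hD (h1 _ (prD_mem D hD z)) fun X hX => ?_
  have h3 : ∀ y : Module.End F V, LinearMap.trace F V ((N * y - y * N) * X) =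
      -LinearMap.trace F V (y * (N * X - X * N)) := by
    intro y
    have h4 : LinearMap.trace F V (N * y * X) = LinearMap.trace F V (y * (X * N)) := by
      rw [mul_assoc, LinearMap.trace_mul_comm, mul_assoc]
    rw [sub_mul, mul_sub, map_sub, map_sub, h4, mul_assoc]
    ring
  rw [h3, h3, prD_trace D hD z (h1 X hX)]

/-- The derived algebra and the centre. -/
theorem exists_centre {𝔤 : Submodule F (Module.End F V)}
    (hbr : ∀ X ∈ 𝔤, ∀ Y ∈ 𝔤, X * Y - Y * X ∈ 𝔤) (hnt : TraceNondeg (der 𝔤))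
    {θ : Module.End F V} (hθ : θ ∈ 𝔤) :
    ∃ s ∈ der 𝔤, ∀ X ∈ 𝔤, X * (θ - s) = (θ - s) * X := by
  have hsub := der_sub 𝔤 hbr
  refine ⟨prD _ hnt θ, prD_mem _ hnt θ, fun X hX => ?_⟩
  have h1 : X * (θ - prD _ hnt θ) - (θ - prD _ hnt θ) * X ∈ der 𝔤 :=
    mem_der 𝔤 hX (Submodule.sub_mem _ hθ (hsub (prD_mem _ hnt θ)))
  have h2 := hnt _ h1 fun Y hY => by
    have h3 := prD_trace _ hnt θ (der_ideal 𝔤 hbr hX hY)
    have h4 : LinearMap.trace F V ((X * (θ - prD _ hnt θ) - (θ - prD _ hnt θ) * X) * Y) =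
        -LinearMap.trace F V ((θ - prD _ hnt θ) * (X * Y - Y * X)) := by
      have h5 : LinearMap.trace F V (X * (θ - prD _ hnt θ) * Y) =
          LinearMap.trace F V ((θ - prD _ hnt θ) * (Y * X)) := by
        rw [mul_assoc, LinearMap.trace_mul_comm, mul_assoc]
      rw [sub_mul, mul_sub (θ - prD _ hnt θ), map_sub, map_sub, h5, mul_assoc]
      ring
    rw [h4, sub_mul, map_sub, h3, sub_self, neg_zero]
  exact sub_eq_zero.1 h2

/-- The centre. -/
def ctr (𝔤 : Submodule F (Module.End F V)) : Submodule F (Module.End F V) where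
  carrier := {z | z ∈ 𝔤 ∧ ∀ X ∈ 𝔤, X * z = z * X}
  zero_mem' := ⟨𝔤.zero_mem, fun X _ => by rw [mul_zero, zero_mul]⟩
  add_mem' := fun hy hz => ⟨𝔤.add_mem hy.1 hz.1, fun X hX => by
    rw [mul_add, add_mul, hy.2 X hX, hz.2 X hX]⟩
  smul_mem' := fun r z hz => ⟨𝔤.smul_mem r hz.1, fun X hX => by
    rw [mul_smul_comm, smul_mul_assoc, hz.2 X hX]⟩

theorem mem_ctr {𝔤 : Submodule F (Module.End F V)} {z : Module.End F V} :
    z ∈ ctr 𝔤 ↔ z ∈ 𝔤 ∧ ∀ X ∈ 𝔤, X * z = z * X := Iff.rfl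

theorem ctr_sup {𝔤 : Submodule F (Module.End F V)}
    (hbr : ∀ X ∈ 𝔤, ∀ Y ∈ 𝔤, X * Y - Y * X ∈ 𝔤) (hnt : TraceNondeg (der 𝔤)) :
    ctr 𝔤 ⊔ der 𝔤 = 𝔤 := by
  apply le_antisymm
  · exact sup_le (fun z hz => hz.1) (der_sub 𝔤 hbr)
  · intro z hz
    obtain ⟨s, hs, h⟩ := exists_centre hbr hnt hz
    refine Submodule.mem_sup.2 ⟨z - s, ⟨𝔤.sub_mem hz (der_sub 𝔤 hbr hs), h⟩, s, hs, ?_⟩
    rw [sub_add_cancel]

theorem ctr_inf {𝔤 : Submodule F (Module.End F V)} (hnt : TraceNondeg (der 𝔤)) :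
    ctr 𝔤 ⊓ der 𝔤 = ⊥ := by
  rw [eq_bot_iff]
  rintro z ⟨hz, hz'⟩
  refine hnt z hz' fun y hy => ?_
  exact trace_der 𝔤 hy hz.2

/-- The dimension of the centraliser. -/
theorem finrank_cent {𝔤 : Submodule F (Module.End F V)}
    (hbr : ∀ X ∈ 𝔤, ∀ Y ∈ 𝔤, X * Y - Y * X ∈ 𝔤) (hnt : TraceNondeg (der 𝔤))
    {G0 : Submodule F (Module.End F V)} (hG : ctr 𝔤 ≤ G0) :
    finrank F (𝔤 ⊓ G0 : Submodule F (Module.End F V)) + finrank F (der 𝔤) =
      finrank F 𝔤 + finrank F (der 𝔤 ⊓ G0 : Submodule F (Module.End F V)) := by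
  have h1 := ctr_sup hbr hnt
  have h2 := ctr_inf hnt
  have h3 : 𝔤 ⊓ G0 = ctr 𝔤 ⊔ der 𝔤 ⊓ G0 := by
    conv_lhs => rw [← h1]
    exact sup_inf_assoc_of_le _ hG
  have h4 := Submodule.finrank_sup_add_finrank_inf_eq (ctr 𝔤) (der 𝔤)
  have h5 := Submodule.finrank_sup_add_finrank_inf_eq (ctr 𝔤) (der 𝔤 ⊓ G0)
  have h6 : ctr 𝔤 ⊓ (der 𝔤 ⊓ G0) = ⊥ := by
    rw [← inf_assoc, h2, bot_inf_eq]
  rw [h1, h2, finrank_bot] at h4
  rw [← h3, h6, finrank_bot] at h5
  omega

end

end Pool.Agent.Q50.LI
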