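import Pool.Agent.Q50.LI.Ka
import Pool.Agent.H204R3.SP.Descent

/-!
# The torus of a Frobenius element
-/

open CategoryTheory AlgebraicGeometry TensorProduct

universe u w

set_option linter.unusedSectionVars false

namespace Pool.Agent.Q50.LI

open Module Pool.Agent.H204R3.SP Pool.Agent.W516.DR
open Pool.Agent.H914 Pool.Agent.H914.VarClass Pool.Agent.H914.VarClass.Obj
  Pool.Agent.H914.WeilCohomology
open Pool.Agent.Y133.Half Pool.Agent.Q50.FP Pool.Agent.W516.KC Pool.Agent.W516.KC2
open Pool.Agent.Q55 (GaloisAction SubAction Virtually TateConj tatePred)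
open Pool.Agent.Q60.TD (SemisimpleAt rep rep_apply exists_good act_one)

section abs

variable {F K V V' : Type*} [Field F] [CharZero F] [Field K] [CharZero K] [Algebra F K]
  [AddCommGroup V] [Module F V] [FiniteDimensional F V] [AddCommGroup V'] [Module K V']
  [FiniteDimensional K V'] {a : V → V'} {ext : Module.End F V → Module.End K V'}

theorem Bc.ext_aeval (B : Bc a ext) (f : Module.End F V) (p : Polynomial F) :
    ext (Polynomial.aeval f p) = Polynomial.aeval (ext f) (p.map (algebraMap F K)) := by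
  induction p using Polynomial.induction_on' with
  | add p q hp hq => rw [map_add, B.ext_add, hp, hq, Polynomial.map_add, map_add]
  | monomial n r =>
    rw [Polynomial.map_monomial, Polynomial.aeval_monomial, Polynomial.aeval_monomial, B.ext_mul,
      B.ext_pow, Algebra.algebraMap_eq_smul_one r, B.ext_smul, B.ext_one,
      Algebra.algebraMap_eq_smul_one (algebraMap F K r)]

theorem Bc.semisimple (B : Bc a ext) {f : Module.End F V} (hf : f.IsSemisimple) :
    (ext f).IsSemisimple := by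
  have h1 : (minpoly F f).Separable :=
    PerfectField.separable_iff_squarefree.mpr hf.minpoly_squarefree
  refine Module.End.isSemisimple_of_squarefree_aeval_eq_zero
    (p := (minpoly F f).map (algebraMap F K)) h1.map.squarefree ?_
  rw [← B.ext_aeval, minpoly.aeval, B.ext_zero]

end abs

/-- The extension of the coefficients. -/
theorem bcB (C F V : Type) [Field C] [CharZero C] [Field F] [CharZero F] [Algebra F C]
    [AddCommGroup V] [Module F V] [FiniteDimensional F V] :
    Bc (F := F) (K := C) (V := V) (fun v : V => ((1 : C) ⊗ₜ[F] v : C ⊗[F] V))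
    (fun y => y.baseChange C) where
  bas := fun {n} b => ⟨b.baseChange C, fun x i => by
    rw [Basis.baseChange_repr_tmul, Algebra.algebraMap_eq_smul_one]⟩
  ap := fun y x => LinearMap.baseChange_tmul y (1 : C) x

variable {k : Type u} [Field k] {𝒱 : VarClass k} {ops : CycleOps 𝒱}
  {W E : WeilCohomology.{u, 0} ops} {X Y : 𝒱.Obj} {n : ℕ} {Γ : Type w} [Group Γ]
  {G : GaloisAction E Γ}

/-- The projector on the classes of degree `i`. -/
noncomputable def pE (E : WeilCohomology.{u, 0} ops) (X : 𝒱.Obj) (i : ℕ) :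
    Module.End E.K (E.H X) := H914.proj (E.isInternal X) i

theorem pE_mem (i : ℕ) (x : E.H X) : pE E X i x ∈ E.gr X i := proj_mem _ _ _

theorem pE_dg (i : ℕ) : dg E X * pE E X i = pE E X i * dg E X := by
  refine LinearMap.ext fun x => ?_
  rw [Module.End.mul_apply, Module.End.mul_apply, dg_of (pE_mem i x)]
  exact (proj_dg i x).symm

theorem pE_Ro {s : Γ} (hs : s ∈ (G.ρ X).dom) (i : ℕ) :
    pE E X i * Ro G X s = Ro G X s * pE E X i :=
  LinearMap.ext fun x => proj_act (G := G) ⟨s, hs⟩ i x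

theorem pE_bot {i : ℕ} (hi : 2 * X.dim < i) : pE E X i = 0 := by
  refine LinearMap.ext fun x => ?_
  have h1 := pE_mem (E := E) i x
  rw [E.gr_eq_bot _ _ (by omega), Submodule.mem_bot] at h1
  exact h1

theorem dat {s : Γ} (hs : s ∈ (G.ρ X).dom) :
    Dat (Ro G X s) (Ro G X s⁻¹) (dg E X) (pE E X) where
  inv := (Ro_inv hs).1
  inv' := (Ro_inv hs).2
  comm i := pE_Ro hs i
  idem i := LinearMap.ext fun x => proj_same _ (pE_mem i x)
  ht i := LinearMap.ext fun x => dg_of (pE_mem i x)
  top v := by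
    obtain ⟨N, hN⟩ := exists_sum_proj v
    exact ⟨Finset.range N, hN N le_rfl⟩

section ext

variable [Algebra W.K E.K] (A : ArtC W E)

theorem ext_pE (i : ℕ) : A.ext (pE W X i) = pE E X i := by
  apply A.lin_ext
  intro x
  rw [A.ext_apply]
  refine dg_ind (p := fun x => A.a X (pE W X i x) = pE E X i (A.a X x)) ?_ ?_ x
  · intro j x hx
    by_cases hj : j = i
    · subst hj
      rw [pE, pE, proj_same _ hx, proj_same _ (A.gr _ _ _ hx)]
    · rw [pE, pE, proj_ne _ hx hj, proj_ne _ (A.gr _ _ _ hx) hj, map_zero]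
  · intro a b ha hb
    rw [map_add, map_add, ha, hb, map_add, map_add]

end ext

variable [Algebra E.K ℂ]

/-- The extension of the coefficients to the complex numbers. -/
theorem bcE (E : WeilCohomology.{u, 0} ops) [Algebra E.K ℂ] (X : 𝒱.Obj) :
    Bc (F := E.K) (K := ℂ) (fun v : E.H X => ((1 : ℂ) ⊗ₜ[E.K] v : ℂ ⊗[E.K] E.H X))
      (fun y => y.baseChange ℂ) := bcB ℂ E.K (E.H X)

/-- The torus of `s`. -/
noncomputable def torE (G : GaloisAction E Γ) (X : 𝒱.Obj) (s : Γ) :
    Submodule ℂ (Module.End ℂ (ℂ ⊗[E.K] E.H X)) :=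
  tor (fun y : Module.End E.K (E.H X) => y.baseChange ℂ) (Ro G X s) (dg E X) (G.χ s : E.K)
    (X.dim : ℂ)

/-- **The torus is contained in the extension of the Lie algebra of the Tate classes.** -/
theorem torE_le {s : Γ} (hs : s ∈ (G.ρ X).dom) : torE G X s ≤ (bcE E X).xs (galp G X) := by
  rintro _ ⟨p, rfl⟩
  rw [tmap_apply]
  refine Submodule.add_mem _ ?_ (Submodule.smul_mem _ _ ?_)
  · refine (bcE E X).xs_mono gal_le ((bcE E X).mem_xs.2 fun ν => ?_)
    intro n M ψ hψ
    obtain ⟨h1, Δ, hΔ, h2⟩ := hψ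
    obtain ⟨m, hm, _, hms⟩ := Subgroup.exists_pow_mem_of_index_ne_zero hΔ.index_ne_zero s
    set b := Module.finBasis E.K (E.H X)
    set Φ := bcm (Ω := ℂ) b ψ with hΦdef
    have hΦ : ∀ v : Fin (n + 1) → E.H X, Φ (fun j => (1 : ℂ) ⊗ₜ[E.K] v j) =
        1 * algebraMap E.K ℂ (ψ v) := fun v => by rw [one_mul]; exact bcm_one b ψ v
    have hg0 := (dat hs).g_inj (bcE E X)
    refine ((bcE E X).kills_iff one_ne_zero hΦ).1 ?_ ν
    refine kills_tmap (g := (Ro G X s).baseChange ℂ) (N := (dg E X).baseChange ℂ)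
      (x := algebraMap E.K ℂ (G.χ s)) (M := M) (m := m) ?_ hg0 hm ?_ ?_ p.1.2
    · rw [Ne, map_eq_zero]
      exact Units.ne_zero _
    · -- the degree operator
      set c : E.K := 2 * M / (n + 1) with hc
      have hn : ((n : E.K) + 1) ≠ 0 := Nat.cast_add_one_ne_zero n
      have h3 : Kills (dg E X - c • 1) ψ := by
        intro v
        rw [sum_sub_smul, sum_one, h1, Fintype.card_fin, hc]
        push_cast
        field_simp
        ring
      have h4 : Kills ((dg E X - c • (1 : Module.End E.K (E.H X))).baseChange ℂ) Φ := by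
        refine ((bcE E X).kills_iff one_ne_zero hΦ).2 fun ν => ?_
        have h5 := (bcE E X).cm_ext ν (dg E X - c • (1 : Module.End E.K (E.H X)))
        rw [h5]
        exact (kilS ψ).smul_mem _ h3
      have h6 : (dg E X - c • (1 : Module.End E.K (E.H X))).baseChange ℂ =
          (dg E X).baseChange ℂ - algebraMap E.K ℂ c • (1 : Module.End ℂ (ℂ ⊗[E.K] E.H X)) := by
        have h7 := (bcE E X).ext_sub (dg E X) (c • (1 : Module.End E.K (E.H X)))
        have h8 := (bcE E X).ext_smul c (1 : Module.End E.K (E.H X))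
        have h9 := (bcE E X).ext_one
        rw [h8, h9] at h7
        exact h7
      intro v
      have h7 := h4 v
      rw [h6] at h7
      have h8 := sum_sub_smul Φ ((dg E X).baseChange ℂ) (1 : Module.End ℂ (ℂ ⊗[E.K] E.H X))
        (algebraMap E.K ℂ c) v
      rw [sum_one, Fintype.card_fin] at h8
      have h9 := h8.symm.trans h7
      rw [sub_eq_zero] at h9
      rw [h9, hc, map_div₀, map_mul, map_add, map_natCast, map_natCast, map_one]
      have h10 : algebraMap E.K ℂ (2 : E.K) = 2 := map_ofNat _ 2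
      have h11 : ((n : ℂ) + 1) ≠ 0 := Nat.cast_add_one_ne_zero n
      rw [h10]
      push_cast
      field_simp
    · -- the group element
      have h3 : Φ.compLinearMap (fun _ => ((Ro G X s).baseChange ℂ) ^ m) =
          (((algebraMap E.K ℂ (G.χ s)) ^ m) ^ M) • Φ := by
        refine Basis.ext_multilinear (fun _ => (bcE E X).b') fun I => ?_
        rw [MultilinearMap.compLinearMap_apply, smul_apply, smul_eq_mul]
        have h4 : ∀ j, (((Ro G X s).baseChange ℂ) ^ m) ((bcE E X).b' (I j)) =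
            (1 : ℂ) ⊗ₜ[E.K] ((Ro G X s ^ m) (Module.finBasis E.K (E.H X) (I j))) := by
          intro j
          have h5 := (bcE E X).ext_pow (Ro G X s) m
          have h6 := (bcE E X).ap (Ro G X s ^ m) (Module.finBasis E.K (E.H X) (I j))
          rw [(bcE E X).b'_eq]
          change (((Ro G X s).baseChange ℂ) ^ m) ((1 : ℂ) ⊗ₜ[E.K] _) = _
          rw [← h5]
          exact h6
        have h5 : (fun j => (bcE E X).b' (I j)) = fun j =>
            ((1 : ℂ) ⊗ₜ[E.K] (Module.finBasis E.K (E.H X) (I j)) : ℂ ⊗[E.K] E.H X) := by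
          funext j
          exact (bcE E X).b'_eq _
        have h6 : (fun j => (((Ro G X s).baseChange ℂ) ^ m) ((bcE E X).b' (I j))) = fun j =>
            ((1 : ℂ) ⊗ₜ[E.K] ((Ro G X s ^ m) (Module.finBasis E.K (E.H X) (I j))) :
              ℂ ⊗[E.K] E.H X) := funext h4
        rw [h6, h5, hΦ fun j => (Ro G X s ^ m) (Module.finBasis E.K (E.H X) (I j)),
          hΦ fun j => Module.finBasis E.K (E.H X) (I j), one_mul, one_mul]
        have h7 := h2 (s ^ m) hms (pow_mem hs m) fun j => Module.finBasis E.K (E.H X) (I j)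
        have h8 : ∀ x, (G.ρ X).act (s ^ m) x = (Ro G X s ^ m) x := by
          intro x
          rw [← Ro_pow hs]
          rfl
        simp only [h8] at h7
        rw [h7, map_mul, map_pow, map_pow, Units.val_pow_eq_pow_val, map_pow]
      intro v
      exact congrArg (fun Ψ => Ψ v) h3
  · have h1 := (bcE E X).ext_mem (dn_mem (W := E) (X := X) (G := G))
    have h2 : (dn E X).baseChange ℂ = (dg E X).baseChange ℂ -
        (X.dim : ℂ) • (1 : Module.End ℂ (ℂ ⊗[E.K] E.H X)) := by
      have h3 := (bcE E X).ext_sub (dg E X) ((X.dim : E.K) • (1 : Module.End E.K (E.H X)))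
      have h4 := (bcE E X).ext_smul (X.dim : E.K) (1 : Module.End E.K (E.H X))
      have h5 := (bcE E X).ext_one
      rw [h4, h5, map_natCast] at h3
      exact h3
    rw [h2] at h1
    exact h1

/-- The elements of the Lie algebra kill the Tate classes. -/
theorem killsTate_of_gal {Z : Module.End E.K (E.H X)} (hZ : Z ∈ gal G X) : KillsTate G X Z := by
  intro n j c hc v
  have h1 : Kills Z (frm E X n c) := by
    by_cases hj : j ≤ (pw X n).dim
    · exact hZ n _ _ (tform_of_tate (M := (pw X n).dim - j) (by omega) hc)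
    · have h2 : c = 0 := by
        have h3 : c ∈ E.gr (pw X n) (2 * j) := hc.1
        rw [E.gr_eq_bot _ _ (by omega), Submodule.mem_bot] at h3
        exact h3
      rw [h2]
      have h3 : frm E X n 0 = 0 := map_zero (frmL E X n)
      rw [h3]
      exact kills_zero
  have h2 := h1 v
  simp only [frm_apply, mpr_apply] at h2
  exact h2

theorem range_pE {i : ℕ} {x : ℂ ⊗[E.K] E.H X}
    (hx : x ∈ LinearMap.range ((pE E X i).baseChange ℂ)) :
    x ∈ (E.gr X i).baseChange ℂ := by
  obtain ⟨x, rfl⟩ := hx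
  refine (bcE E X).ind (p := fun x => (pE E X i).baseChange ℂ x ∈ (E.gr X i).baseChange ℂ)
    ?_ ?_ x
  · intro l x
    rw [map_smul, LinearMap.baseChange_tmul]
    exact Submodule.smul_mem _ _ (Submodule.tmul_mem_baseChange_of_mem _ (pE_mem i x))
  · intro a b ha hb
    rw [map_add]
    exact Submodule.add_mem _ ha hb

/-- The eigenspaces of a power. -/
theorem ss_pow {γ : Γ} (hγ : γ ∈ (G.ρ X).dom) (h : (Ro G X γ).IsSemisimple) (N : ℕ) (c : ℂ)
    (v : ℂ ⊗[E.K] E.H X)
    (hv : v ∈ Module.End.maxGenEigenspace ((Ro G X (γ ^ N)).baseChange ℂ) c) :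
    (Ro G X (γ ^ N)).baseChange ℂ v = c • v := by
  have h1 : (Ro G X (γ ^ N)).IsSemisimple := by
    rw [Ro_pow hγ]
    exact h.pow N
  have h2 := (bcE E X).semisimple h1
  have h3 := h2.isFinitelySemisimple.maxGenEigenspace_eq_eigenspace c
  exact Module.End.mem_eigenspace_iff.1 (h3 ▸ hv)

/-- **The centraliser of a power of a Frobenius element.** -/
theorem mem_torE {γ : Γ} (hγ : γ ∈ (G.ρ X).dom) (h : MaxTorus G X γ) {N : ℕ} (hN : 0 < N)
    {z : Module.End E.K (E.H X)} (hz : z ∈ galp G X)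
    (hc : z * Ro G X (γ ^ N) = Ro G X (γ ^ N) * z) : z.baseChange ℂ ∈ torE G X (γ ^ N) := by
  obtain ⟨A, hA, r, rfl⟩ := mem_galp.1 hz
  have hd : dn E X * Ro G X (γ ^ N) = Ro G X (γ ^ N) * dn E X := by
    rw [dn, sub_mul, mul_sub, Ro_dg (pow_mem hγ N), smul_mul_assoc, mul_smul_comm, one_mul,
      mul_one]
  have hA' : A * Ro G X γ ^ N = Ro G X γ ^ N * A := by
    rw [← Ro_pow hγ]
    rw [add_mul, mul_add, smul_mul_assoc, mul_smul_comm, hd] at hc
    exact add_right_cancel hc
  obtain ⟨φ, hφ, hφ'⟩ := h.cent A N hN (killsTate_of_gal hA) hA'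
  have hN0 : (N : ℂ) ≠ 0 := Nat.cast_ne_zero.2 hN.ne'
  have hφC : φ ∈ Chr ℂ := hφ
  -- the character for the power
  have hψ : ((N : ℂ)⁻¹ • φ) ∈ Chr ℂ := (Chr ℂ).smul_mem _ hφC
  have hψ' : ∀ a, a ≠ 0 → ((N : ℂ)⁻¹ • φ) (a ^ N) = φ a := by
    intro a ha
    change (N : ℂ)⁻¹ * φ (a ^ N) = φ a
    rw [chr_pow hφC ha, inv_mul_cancel_left₀ hN0]
  refine ⟨(⟨_, hψ⟩, algebraMap E.K ℂ r), ?_⟩
  obtain ⟨b, l, m, hb⟩ := (dat (G := G) (X := X) hγ).exists_basis (bcE E X)
  refine b.ext fun i => ?_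
  have hl : l i ≠ 0 := (dat (G := G) (X := X) hγ).ne_zero (bcE E X) (b.ne_zero i) (hb i).1
  have h1 : b i ∈ Module.End.maxGenEigenspace ((Ro G X (γ ^ N)).baseChange ℂ) (l i ^ N) := by
    have h2 := mem_gen_pow (hb i).1 N
    have h3 := (bcE E X).ext_pow (Ro G X γ) N
    rw [Ro_pow hγ, h3]
    exact h2
  rw [(dat (G := G) (X := X) (pow_mem hγ N)).tmap_b (bcE E X) h1 (hb i).2]
  have h2 : (Ro G X γ).baseChange ℂ (b i) = l i • b i := by
    have h3 := ss_pow hγ h.semisimple 1 (l i) (b i)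
    rw [pow_one] at h3
    exact h3 (hb i).1
  have h3 := hφ' (m i) (l i) (b i) (range_pE (hb i).2) h2
  have h4 : (dg E X).baseChange ℂ (b i) = (m i : ℂ) • b i :=
    (dat (G := G) (X := X) hγ).N_apply (bcE E X) (hb i).2
  have h5 : (A + r • dn E X).baseChange ℂ = A.baseChange ℂ + algebraMap E.K ℂ r •
      ((dg E X).baseChange ℂ - (X.dim : ℂ) • (1 : Module.End ℂ (ℂ ⊗[E.K] E.H X))) := by
    have h6 := (bcE E X).ext_add A (r • dn E X)
    have h7 := (bcE E X).ext_smul r (dn E X)
    have h8 := (bcE E X).ext_sub (dg E X) ((X.dim : E.K) • (1 : Module.End E.K (E.H X)))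
    have h9 := (bcE E X).ext_smul (X.dim : E.K) (1 : Module.End E.K (E.H X))
    have h10 := (bcE E X).ext_one
    rw [h9, h10, map_natCast] at h8
    rw [h7, dn, h8] at h6
    exact h6
  rw [h5, LinearMap.add_apply, h3, LinearMap.smul_apply, LinearMap.sub_apply, h4,
    LinearMap.smul_apply, Module.End.one_apply, ← sub_smul, smul_smul, ← add_smul]
  congr 1
  have h6 : ((N : ℂ)⁻¹ • φ) (algebraMap E.K ℂ ((G.χ (γ ^ N) : E.Kˣ) : E.K)) =
      φ (algebraMap E.K ℂ (G.χ γ)) := by
    rw [map_pow, Units.val_pow_eq_pow_val, map_pow]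
    refine hψ' _ ?_
    rw [Ne, map_eq_zero]
    exact Units.ne_zero _
  change ((N : ℂ)⁻¹ • φ) (l i ^ N) - ((N : ℂ)⁻¹ • φ)
    (algebraMap E.K ℂ ((G.χ (γ ^ N) : E.Kˣ) : E.K)) / 2 * m i + _ = _
  rw [h6, hψ' _ hl]
  ring

end Pool.Agent.Q50.LI
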