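import Pool.Agent.Q50.LI.Kap

/-!
# The traces of the powers of a Frobenius element on the parts given by Tate classes
-/

open CategoryTheory AlgebraicGeometry TensorProduct

universe u w

set_option linter.unusedSectionVars false

namespace Pool.Agent.Q50.LI

open Module Pool.Agent.H204R3.SP Pool.Agent.W516.DR
open Pool.Agent.H914 Pool.Agent.H914.VarClass Pool.Agent.H914.VarClass.Obj
  Pool.Agent.H914.WeilCohomology
open Pool.Agent.Y133.Half Pool.Agent.Q50.FP Pool.Agent.W516.KC Pool.Agent.W516.KC2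
open Pool.Agent.Q55 (GaloisAction SubAction Virtually TateConj tatePred)
open Pool.Agent.Q60.TD (SemisimpleAt rep rep_apply exists_good act_one)

variable {k : Type u} [Field k] {𝒱 : VarClass k} {ops : CycleOps 𝒱}
  {W E E₀ : WeilCohomology.{u, 0} ops} {X Y : 𝒱.Obj} {n : ℕ} {Γ : Type w} [Group Γ]
  {G : GaloisAction E Γ} {G₀ : GaloisAction E₀ Γ}

section sign

/-- The sign operator. -/
noncomputable def sg (E : WeilCohomology.{u, 0} ops) (Y : 𝒱.Obj) : Module.End E.K (E.H Y) :=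
  Pool.Agent.Y121.AH.dia (E.isInternal Y) fun i => (-1 : E.K) ^ i

theorem sg_of {i : ℕ} {x : E.H Y} (hx : x ∈ E.gr Y i) : sg E Y x = (-1 : E.K) ^ i • x :=
  Pool.Agent.Y121.AH.dia_apply (E.isInternal Y) _ hx

theorem sg_isSign : IsSign E Y (sg E Y) := fun _ _ hx => sg_of hx

theorem sg_eq {s : Module.End E.K (E.H Y)} (hs : IsSign E Y s) : s = sg E Y := by
  refine LinearMap.ext fun x => ?_
  refine dg_ind (p := fun x => s x = sg E Y x) ?_ ?_ x
  · intro i x hx
    rw [hs i x hx, sg_of hx]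
  · intro a b ha hb
    rw [map_add, map_add, ha, hb]

theorem sg_sq : sg E Y * sg E Y = 1 := by
  refine LinearMap.ext fun x => ?_
  refine dg_ind (p := fun x => (sg E Y * sg E Y) x = (1 : Module.End E.K (E.H Y)) x) ?_ ?_ x
  · intro i x hx
    rw [Module.End.mul_apply, sg_of hx, map_smul, sg_of hx, smul_smul, ← mul_pow, neg_one_mul,
      neg_neg, one_pow, one_smul, Module.End.one_apply]
  · intro a b ha hb
    rw [map_add, map_add, ha, hb]

/-- An operator which commutes with the degree operator preserves the degree. -/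
theorem gr_of_comm {w : Module.End E.K (E.H Y)} (hw : dg E Y * w = w * dg E Y) {i : ℕ}
    {x : E.H Y} (hx : x ∈ E.gr Y i) : w x ∈ E.gr Y i := by
  rw [mem_gr_iff]
  have h1 := LinearMap.congr_fun hw x
  rw [Module.End.mul_apply, Module.End.mul_apply, dg_of hx, map_smul] at h1
  exact h1

theorem sg_comm {w : Module.End E.K (E.H Y)} (hw : dg E Y * w = w * dg E Y) :
    sg E Y * w = w * sg E Y := by
  refine LinearMap.ext fun x => ?_
  refine dg_ind (p := fun x => (sg E Y * w) x = (w * sg E Y) x) ?_ ?_ x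
  · intro i x hx
    rw [Module.End.mul_apply, Module.End.mul_apply, sg_of hx, map_smul, sg_of (gr_of_comm hw hx)]
  · intro a b ha hb
    rw [map_add, map_add, ha, hb]

theorem sg_dg : dg E Y * sg E Y = sg E Y * dg E Y := (sg_comm rfl).symm

theorem Ro_dg {s : Γ} (hs : s ∈ (G.ρ Y).dom) : dg E Y * Ro G Y s = Ro G Y s * dg E Y :=
  LinearMap.ext fun x => (act_dg hs x).symm

end sign

section ext

variable [Algebra W.K E.K] (A : ArtC W E)

theorem a_dg (x : W.H Y) : A.a Y (dg W Y x) = dg E Y (A.a Y x) := by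
  refine dg_ind (p := fun x => A.a Y (dg W Y x) = dg E Y (A.a Y x)) ?_ ?_ x
  · intro i x hx
    rw [dg_of hx, dg_of (A.gr Y i x hx), A.smul, map_natCast]
  · intro a b ha hb
    rw [map_add, map_add, ha, hb, map_add, map_add]

theorem ext_dg : A.ext (dg W Y) = dg E Y := by
  apply A.lin_ext
  intro x
  rw [A.ext_apply, a_dg]

theorem ext_sg : A.ext (sg W Y) = sg E Y := by
  apply A.lin_ext
  intro x
  rw [A.ext_apply]
  refine dg_ind (p := fun x => A.a Y (sg W Y x) = sg E Y (A.a Y x)) ?_ ?_ x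
  · intro i x hx
    rw [sg_of hx, sg_of (A.gr Y i x hx), A.smul, map_pow, map_neg, map_one]
  · intro a b ha hb
    rw [map_add, map_add, ha, hb, map_add, map_add]

theorem ext_inj {y z : Module.End W.K (W.H Y)} (h : A.ext y = A.ext z) : y = z := by
  obtain ⟨ν, hν⟩ := Bc.exists_one W.K E.K
  have h1 := congrArg ((bcA A Y).cm ν) h
  rwa [(bcA A Y).cm_ext, (bcA A Y).cm_ext, hν, one_smul, one_smul] at h1

/-- A rational class whose image is a combination of cycles is a combination of cycles. -/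
theorem descend {j : ℕ} {c : W.H X} (h : A.a X c ∈ spanCycles E X j) :
    c ∈ spanCycles W X j := by
  by_contra hcon
  obtain ⟨f, hf, hf'⟩ := Submodule.exists_le_ker_of_notMem hcon
  obtain ⟨b, hb⟩ := exists_dual_class W X f
  have h1 : spanCycles E X j ≤ LinearMap.ker ((E.tr X).comp (LinearMap.mulLeft E.K (A.a X b))) := by
    unfold spanCycles
    rw [Submodule.span_le]
    rintro _ ⟨p, hp, z, hz, rfl⟩
    have h2 : A.a X b * E.cl X z = (A.c ^ p)⁻¹ • A.a X (b * W.cl X z) := by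
      rw [map_mul, A.cl X p z hz, mul_smul_comm, smul_smul, inv_mul_cancel₀ (A.cne p), one_smul]
    have h3 : f (W.cl X z) = 0 := by
      have h4 : W.cl X z ∈ spanCycles W X j := Submodule.subset_span ⟨p, hp, z, hz, rfl⟩
      exact hf' h4
    change E.tr X (A.a X b * E.cl X z) = 0
    rw [h2, map_smul, A.tr, hb, h3, map_zero, mul_zero, smul_zero]
  have h2 := h1 h
  change E.tr X (A.a X b * A.a X c) = 0 at h2
  rw [← map_mul, A.tr, hb] at h2
  have h3 := (mul_eq_zero.1 h2).resolve_left (A.cne _)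
  exact hf ((map_eq_zero (algebraMap W.K E.K)).1 h3)

/-- The endomorphism given by a cycle. -/
theorem kap_cl {z : (pw Y 1).Cycles} (hz : (pw Y 1).IsCyc Y.dim z) :
    kap E Y (E.cl _ z) = A.ext (kap W Y (W.cl _ z)) := by
  have h1 := kap_a A (W.cl _ z)
  rw [A.cl _ _ _ hz, map_smul] at h1
  exact smul_right_injective _ (A.cne Y.dim) h1

end ext

/-- The endomorphism given by a cycle. -/
theorem isCorr_iff {z : (Y.prod Y).Cycles} {e : Module.End E.K (E.H Y)} :
    IsCorr E Y z e ↔ e = kap E Y (E.cl _ z) := by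
  have h1 : ∀ a b : E.H Y, E.tr (Y.prod Y) (E.cl (Y.prod Y) z *
      (E.map (fst Y Y) a * E.map (snd Y Y) b)) = prg E Y (kap E Y (E.cl _ z) a) b := by
    intro a b
    have h2 := kap_spec (E := E) (X := Y) (E.cl _ z) ![a, b]
    change _ = prg E Y (kap E Y (E.cl _ z) a) b at h2
    rw [← h2, frm_apply, mpr_apply, List.ofFn_succ, List.ofFn_succ, List.ofFn_zero,
      List.prod_cons, List.prod_cons, List.prod_nil, mul_one]
    have h3 : prj Y 1 0 = fst Y Y := by
      have h4 := prj_castSucc (X := Y) 0 0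
      rw [prj_zero] at h4
      have h5 : (Fin.castSucc (0 : Fin (0 + 1)) : Fin (1 + 1)) = 0 := rfl
      rw [h5] at h4
      exact h4.trans (Category.comp_id _)
    have h4 : prj Y 1 (Fin.succ 0) = snd Y Y := prj_last 0
    rw [h3, h4]
    rfl
  constructor
  · intro h
    refine prg_ext fun a b => ?_
    rw [← h1]
    exact h a b
  · rintro rfl a b
    rw [h1]
    rfl

theorem altTrace_iff {z : (Y.prod Y).Cycles} {g : Module.End E.K (E.H Y)} {r : E.K} :
    AltTrace E Y z g r ↔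
      LinearMap.trace E.K (E.H Y) (sg E Y * kap E Y (E.cl _ z) * g) = r := by
  constructor
  · intro h
    exact h _ _ sg_isSign (isCorr_iff.2 rfl)
  · intro h s e hs he
    rw [sg_eq hs, isCorr_iff.1 he, h]

section eq

variable [Algebra W.K E₀.K] [Algebra W.K E.K] (hrat : ∀ r : W.K, ∃ q : ℚ, (q : W.K) = r)
  (A₀ : ArtC W E₀) (A : ArtC W E)

/-- The traces of the products with the powers of `γ` are rational and independent of `ℓ`. -/
def TEq (A₀ : ArtC W E₀) (A : ArtC W E) (G₀ : GaloisAction E₀ Γ) (G : GaloisAction E Γ)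
    (w : Module.End W.K (W.H Y)) (γ : Γ) : Prop :=
  ∀ m : ℕ, ∃ q : ℚ, LinearMap.trace E₀.K (E₀.H Y) (A₀.ext w * Ro G₀ Y γ ^ m) = q ∧
    LinearMap.trace E.K (E.H Y) (A.ext w * Ro G Y γ ^ m) = q

include hrat in
theorem span_teq {c : W.H (pw Y 1)} (hc : c ∈ spanCycles W (pw Y 1) (Y.dim : ℤ)) :
    ∃ S : List (Σ Y : 𝒱.Obj, (Y.prod Y).Cycles),
      (∀ p ∈ S, (p.1.prod p.1).IsCyc p.1.dim p.2) ∧
      ∀ γ : Γ, (∀ p ∈ S, TraceFormula G₀ G p.1 p.2 γ) →
        TEq A₀ A G₀ G (sg W Y * kap W Y c) γ := by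
  unfold spanCycles at hc
  induction hc using Submodule.span_induction with
  | mem x h =>
    obtain ⟨p, hp, z, hz, rfl⟩ := h
    obtain rfl : p = Y.dim := by exact_mod_cast hp
    refine ⟨[⟨Y, z⟩], ?_, fun γ h m => ?_⟩
    · intro p hp
      rw [List.mem_singleton] at hp
      rw [hp]
      exact hz
    · obtain ⟨q, h1, h2⟩ := h _ List.mem_cons_self m
      refine ⟨q, ?_, ?_⟩
      · rw [A₀.ext_mul, ext_sg, ← kap_cl A₀ hz]
        exact altTrace_iff.1 (altTr_iff.1 h1)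
      · rw [A.ext_mul, ext_sg, ← kap_cl A hz]
        exact altTrace_iff.1 (altTr_iff.1 h2)
  | zero =>
    refine ⟨[], fun p hp => absurd hp List.not_mem_nil, fun γ _ m => ⟨0, ?_, ?_⟩⟩
    · rw [map_zero, mul_zero, (bcA A₀ Y).ext_zero, zero_mul, map_zero, Rat.cast_zero]
    · rw [map_zero, mul_zero, (bcA A Y).ext_zero, zero_mul, map_zero, Rat.cast_zero]
  | add a b _ _ ha hb =>
    obtain ⟨S, hS, h⟩ := ha
    obtain ⟨S', hS', h'⟩ := hb
    refine ⟨S ++ S', fun p hp => ?_, fun γ hγ m => ?_⟩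
    · rcases List.mem_append.1 hp with h1 | h1
      · exact hS p h1
      · exact hS' p h1
    · obtain ⟨q, h1, h2⟩ := h γ (fun p hp => hγ p (List.mem_append_left _ hp)) m
      obtain ⟨q', h1', h2'⟩ := h' γ (fun p hp => hγ p (List.mem_append_right _ hp)) m
      refine ⟨q + q', ?_, ?_⟩
      · rw [map_add, mul_add, (bcA A₀ Y).ext_add, add_mul, map_add, h1, h1', Rat.cast_add]
      · rw [map_add, mul_add, (bcA A Y).ext_add, add_mul, map_add, h2, h2', Rat.cast_add]
  | smul r a _ ha =>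
    obtain ⟨S, hS, h⟩ := ha
    obtain ⟨q', rfl⟩ := hrat r
    refine ⟨S, hS, fun γ hγ m => ?_⟩
    obtain ⟨q, h1, h2⟩ := h γ hγ m
    refine ⟨q' * q, ?_, ?_⟩
    · rw [map_smul, mul_smul_comm, (bcA A₀ Y).ext_smul, smul_mul_assoc, map_smul, h1,
        map_ratCast, smul_eq_mul, Rat.cast_mul]
    · rw [map_smul, mul_smul_comm, (bcA A Y).ext_smul, smul_mul_assoc, map_smul, h2,
        map_ratCast, smul_eq_mul, Rat.cast_mul]

include hrat in
/-- **The independence of `ℓ` of the traces.** -/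
theorem exists_teq (hTC : ∀ c, Pool.Agent.Q55.IsTate G₀ (pw Y 1) Y.dim c →
      c ∈ spanCycles E₀ (pw Y 1) (Y.dim : ℤ))
    {w : Module.End W.K (W.H Y)} (hw : dg E₀ Y * A₀.ext w = A₀.ext w * dg E₀ Y)
    (hv : ∃ Δ : Subgroup Γ, Δ.FiniteIndex ∧ ∀ s ∈ Δ, s ∈ (G₀.ρ Y).dom →
      A₀.ext w * Ro G₀ Y s = Ro G₀ Y s * A₀.ext w) :
    ∃ S : List (Σ Y : 𝒱.Obj, (Y.prod Y).Cycles),
      (∀ p ∈ S, (p.1.prod p.1).IsCyc p.1.dim p.2) ∧
      ∀ γ : Γ, (∀ p ∈ S, TraceFormula G₀ G p.1 p.2 γ) → TEq A₀ A G₀ G w γ := by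
  have hw' : dg W Y * w = w * dg W Y := by
    apply ext_inj A₀
    rw [A₀.ext_mul, A₀.ext_mul, ext_dg, hw]
  -- the class
  set c := (kap W Y).symm (w * sg W Y) with hc
  have hkc : kap W Y c = w * sg W Y := (kap W Y).apply_symm_apply _
  have h1 : TForm G₀ Y Y.dim (two ((prg E₀ Y).comp (A₀.ext (w * sg W Y)))) := by
    obtain ⟨Δ, hΔ, hv⟩ := hv
    refine tform_end (fun x => ?_) ⟨Δ, hΔ, fun s hs hX x => ?_⟩
    · have h2 : dg E₀ Y * A₀.ext (w * sg W Y) = A₀.ext (w * sg W Y) * dg E₀ Y := by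
        rw [A₀.ext_mul, ext_sg, ← mul_assoc, hw, mul_assoc, sg_dg, mul_assoc]
      exact LinearMap.congr_fun h2 x
    · have h2 : Ro G₀ Y s * A₀.ext (w * sg W Y) = A₀.ext (w * sg W Y) * Ro G₀ Y s := by
        rw [A₀.ext_mul, ext_sg, ← mul_assoc, ← hv s hs hX, mul_assoc,
          ← sg_comm (Ro_dg hX), mul_assoc]
      exact LinearMap.congr_fun h2 x
  have h2 : A₀.a _ c = A₀.c ^ Y.dim • (kap E₀ Y).symm (A₀.ext (w * sg W Y)) := by
    apply (kap E₀ Y).injective
    rw [kap_a, hkc, map_smul, LinearEquiv.apply_symm_apply]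
  have h3 : frm E₀ Y 1 ((kap E₀ Y).symm (A₀.ext (w * sg W Y))) =
      two ((prg E₀ Y).comp (A₀.ext (w * sg W Y))) := by
    ext v
    rw [kap_spec, LinearEquiv.apply_symm_apply]
    rfl
  rw [← h3] at h1
  have h4 := hTC _ (tate_of_tform (j := Y.dim) (by rw [dim_pw]; ring) h1)
  have h5 : A₀.a _ c ∈ spanCycles E₀ (pw Y 1) (Y.dim : ℤ) := by
    rw [h2]
    exact Submodule.smul_mem _ _ h4
  have h6 := descend A₀ (j := Y.dim) h5
  obtain ⟨S, hS, h⟩ := span_teq hrat A₀ A h6 (G₀ := G₀) (G := G)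
  refine ⟨S, hS, fun γ hγ m => ?_⟩
  obtain ⟨q, h7, h8⟩ := h γ hγ m
  have h9 : sg W Y * kap W Y c = w := by
    rw [hkc, ← mul_assoc, sg_comm hw', mul_assoc, sg_sq, mul_one]
  rw [h9] at h7 h8
  exact ⟨q, h7, h8⟩

end eq

end Pool.Agent.Q50.LI
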