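import Pool.Agent.Q50.LI.Gen

/-!
# Traces of powers and generalised eigenspaces

The dimensions of the generalised eigenspaces of an operator are determined by the traces of its
powers. An operator is in the generalised eigenspace of the conjugation by `g` for the eigenvalue `1`
if and only if it preserves the generalised eigenspaces of `g`.
-/

set_option linter.unusedSectionVars false

namespace Pool.Agent.Q50.LI

open Module Pool.Agent.Y121.AH Pool.Agent.H204R3.SP

noncomputable section

/-! ### Conjugation -/

section conj

variable {C V : Type*} [Field C] [CharZero C] [AddCommGroup V] [Module C V]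


/-- The conjugation `Z ↦ g Z g'`. -/
def adg (g g' : Module.End C V) : Module.End C (Module.End C V) where
  toFun Z := g * Z * g'
  map_add' Y Z := by rw [mul_add, add_mul]
  map_smul' r Z := by rw [mul_smul_comm, smul_mul_assoc]; rfl

theorem adg_apply (g g' Z : Module.End C V) : adg g g' Z = g * Z * g' := rfl

theorem adg_pow {g g' : Module.End C V} (h : g * g' = 1) (h' : g' * g = 1) (k : ℕ)
    (Z : Module.End C V) : ((adg g g' - (1 : C) • 1) ^ k) Z = (adj g ^ k) Z * g' ^ k := by
  have hc : Commute g g' := h.trans h'.symm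
  induction k with
  | zero =>
    change Z = Z * 1
    rw [mul_one]
  | succ k ih =>
    rw [pow_succ', Module.End.mul_apply, ih, pow_succ' (adj g), Module.End.mul_apply, adj_apply,
      LinearMap.sub_apply, adg_apply, LinearMap.smul_apply, Module.End.one_apply, one_smul]
    set Y := (adj g ^ k) Z
    have h1 : Y * g * g' ^ (k + 1) = Y * g' ^ k := by
      rw [pow_succ', mul_assoc Y, ← mul_assoc g, h, one_mul]
    have h2 : g * Y * g' ^ (k + 1) = g * (Y * g' ^ k) * g' := by
      rw [pow_succ, mul_assoc, mul_assoc, mul_assoc]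
    rw [sub_mul, h1, h2]

theorem adg_iff {g g' : Module.End C V} (h : g * g' = 1) (h' : g' * g = 1)
    {Z : Module.End C V} : Z ∈ (adg g g').maxGenEigenspace 1 ↔ ∃ k, (adj g ^ k) Z = 0 := by
  rw [Module.End.mem_maxGenEigenspace]
  constructor
  · rintro ⟨k, hk⟩
    refine ⟨k, ?_⟩
    rw [adg_pow h h'] at hk
    have hc : Commute g g' := h.trans h'.symm
    have h1 : (adj g ^ k) Z * (g' ^ k * g ^ k) = 0 := by rw [← mul_assoc, hk, zero_mul]
    rwa [← hc.symm.mul_pow, h', one_pow, mul_one] at h1
  · rintro ⟨k, hk⟩
    refine ⟨k, ?_⟩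
    rw [adg_pow h h', hk, zero_mul]

/-- Corresponding generalised eigenspaces. -/
theorem gen_equiv {U : Type*} [AddCommGroup U] [Module C U] (κ : U ≃ₗ[C] V)
    {R : Module.End C U} {A : Module.End C V} {x : C} (hx : x ≠ 0)
    (h : ∀ c, κ (R c) = x • A (κ c)) (c : U) :
    c ∈ R.maxGenEigenspace x ↔ κ c ∈ A.maxGenEigenspace 1 := by
  have h3 : ∀ (k : ℕ) (c : U), κ (((R - x • (1 : Module.End C U)) ^ k) c) =
      (x ^ k) • ((A - (1 : C) • (1 : Module.End C V)) ^ k) (κ c) := by
    intro k
    induction k with
    | zero => intro c; rw [pow_zero, pow_zero, pow_zero, one_smul]; rfl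
    | succ k ih =>
      intro c
      rw [pow_succ, Module.End.mul_apply, ih, LinearMap.sub_apply, map_sub, h,
        LinearMap.smul_apply, map_smul, Module.End.one_apply, ← smul_sub, map_smul, smul_smul,
        ← pow_succ, pow_succ (A - (1 : C) • (1 : Module.End C V)), Module.End.mul_apply,
        LinearMap.sub_apply, LinearMap.smul_apply, Module.End.one_apply, one_smul C (κ c)]
  rw [Module.End.mem_maxGenEigenspace, Module.End.mem_maxGenEigenspace]
  constructor
  · rintro ⟨k, hk⟩
    refine ⟨k, ?_⟩
    have h5 := h3 k c
    rw [hk, map_zero] at h5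
    exact (smul_eq_zero.1 h5.symm).resolve_left (pow_ne_zero _ hx)
  · rintro ⟨k, hk⟩
    refine ⟨k, ?_⟩
    apply κ.injective
    rw [h3, hk, smul_zero, map_zero]

theorem adg_iff' {g g' : Module.End C V} (h : g * g' = 1) (h' : g' * g = 1)
    {Z : Module.End C V} :
    Z ∈ (adg g g').maxGenEigenspace 1 ↔ Z ∈ (adj g).maxGenEigenspace 0 := by
  rw [adg_iff h h', Module.End.mem_maxGenEigenspace]
  simp only [zero_smul, sub_zero]

end conj

variable {C V U : Type} [Field C] [IsAlgClosed C] [CharZero C] [AddCommGroup V] [Module C V]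
  [FiniteDimensional C V] [AddCommGroup U] [Module C U] [FiniteDimensional C U]

theorem fin_gen (a : Module.End C U) : {l | a.maxGenEigenspace l ≠ ⊥}.Finite :=
  WellFoundedGT.finite_ne_bot_of_iSupIndep a.independent_maxGenEigenspace

/-- The trace of a power on a generalised eigenspace. -/
theorem trace_gen (a : Module.End C U) (l : C) (m : ℕ) :
    ∀ h : ∀ x ∈ a.maxGenEigenspace l, (a ^ m) x ∈ a.maxGenEigenspace l,
      LinearMap.trace C _ ((a ^ m).restrict h) = finrank C (a.maxGenEigenspace l) * l ^ m := by
  induction m with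
  | zero =>
    intro h
    have h1 : ((a ^ 0).restrict h : Module.End C (a.maxGenEigenspace l)) = 1 :=
      LinearMap.ext fun x => Subtype.ext (by
        rw [LinearMap.coe_restrict_apply, pow_zero, Module.End.one_apply, Module.End.one_apply])
    rw [h1, LinearMap.trace_one, pow_zero, mul_one]
  | succ m ih =>
    intro h
    have h1 : ∀ x ∈ a.maxGenEigenspace l, (a ^ m) x ∈ a.maxGenEigenspace l := fun x hx =>
      Module.End.mapsTo_maxGenEigenspace_of_comm ((Commute.refl a).pow_right m) l hx
    have h2 : ∀ x ∈ a.maxGenEigenspace l, a x ∈ a.maxGenEigenspace l := fun x hx =>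
      Module.End.mapsTo_maxGenEigenspace_of_comm (Commute.refl a) l hx
    have h3 : ((a ^ (m + 1)).restrict h : Module.End C (a.maxGenEigenspace l)) =
        ((a ^ m).restrict h1) ∘ₗ (a.restrict h2) :=
      LinearMap.ext fun x => Subtype.ext rfl
    have h4 : Commute ((a ^ m).restrict h1) (a.restrict h2) := by
      refine LinearMap.ext fun x => Subtype.ext ?_
      change (a ^ m) (a x) = a ((a ^ m) x)
      rw [← Module.End.mul_apply, ← Module.End.mul_apply, ← pow_succ, ← pow_succ']
    rw [h3, LinearMap.trace_comp_eq_mul_of_commute_of_isNilpotent l h4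
      (a.isNilpotent_restrict_maxGenEigenspace_sub_algebraMap l), ih h1, pow_succ]
    ring

theorem trace_pow_eq (a : Module.End C U) (m : ℕ) (S : Finset C)
    (hS : (fin_gen a).toFinset ⊆ S) :
    LinearMap.trace C U (a ^ m) = ∑ l ∈ S, finrank C (a.maxGenEigenspace l) * l ^ m := by
  classical
  have h : ∀ l, ∀ x ∈ a.maxGenEigenspace l, (a ^ m) x ∈ a.maxGenEigenspace l := fun l x hx =>
    Module.End.mapsTo_maxGenEigenspace_of_comm ((Commute.refl a).pow_right m) l hx
  rw [LinearMap.trace_eq_sum_trace_restrict' (gint a) (fin_gen a) h,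
    Finset.sum_congr rfl fun l _ => trace_gen a l m (h l)]
  refine Finset.sum_subset hS fun l _ hl => ?_
  rw [Set.Finite.mem_toFinset] at hl
  have h1 : a.maxGenEigenspace l = ⊥ := not_not.1 hl
  rw [h1, finrank_bot, Nat.cast_zero, zero_mul]

/-- **The traces of the powers determine the dimensions of the generalised eigenspaces.** -/
theorem mult_eq {a : Module.End C U} {c : Module.End C V}
    (h : ∀ m, LinearMap.trace C U (a ^ m) = LinearMap.trace C V (c ^ m)) (l : C) :
    finrank C (a.maxGenEigenspace l) = finrank C (c.maxGenEigenspace l) := by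
  classical
  set S := insert l ((fin_gen a).toFinset ∪ (fin_gen c).toFinset) with hS
  have h1 : (fin_gen a).toFinset ⊆ S :=
    Finset.subset_union_left.trans (Finset.subset_insert _ _)
  have h2 : (fin_gen c).toFinset ⊆ S :=
    Finset.subset_union_right.trans (Finset.subset_insert _ _)
  have hl : l ∈ S := Finset.mem_insert_self _ _
  set f : C → C := fun z => finrank C (a.maxGenEigenspace z) - finrank C (c.maxGenEigenspace z)
    with hf
  have h3 : ∀ m : ℕ, ∑ z ∈ S, f z * z ^ m = 0 := by
    intro m
    have h4 := h m
    rw [trace_pow_eq a m S h1, trace_pow_eq c m S h2, ← sub_eq_zero, ← Finset.sum_sub_distrib]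
      at h4
    rw [← h4]
    exact Finset.sum_congr rfl fun z _ => by rw [hf]; ring
  have h4 : ∀ p : Polynomial C, ∑ z ∈ S, f z * p.eval z = 0 := by
    intro p
    induction p using Polynomial.induction_on' with
    | add p q hp hq =>
      rw [← add_zero (0 : C)]
      nth_rewrite 1 [← hp]
      rw [← hq, ← Finset.sum_add_distrib]
      exact Finset.sum_congr rfl fun z _ => by rw [Polynomial.eval_add]; ring
    | monomial n r =>
      rw [← mul_zero r, ← h3 n, Finset.mul_sum]
      exact Finset.sum_congr rfl fun z _ => by rw [Polynomial.eval_monomial]; ring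
  obtain ⟨p, hp⟩ := exists_poly S l
  have h5 := h4 p
  rw [Finset.sum_eq_single l] at h5
  · rw [hp l hl, if_pos rfl, mul_one, hf] at h5
    exact_mod_cast sub_eq_zero.1 h5
  · intro z hz hzl
    rw [hp z hz, if_neg hzl, mul_zero]
  · intro h6
    exact absurd hl h6

/-- The operator preserves the generalised eigenspaces. -/
def Pres (g Z : Module.End C V) : Prop :=
  ∀ a, ∀ x ∈ g.maxGenEigenspace a, Z x ∈ g.maxGenEigenspace a

theorem mem_of_sub {g : Module.End C V} {a : C} {w : V}
    (h : (g - a • (1 : Module.End C V)) w ∈ g.maxGenEigenspace a) :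
    w ∈ g.maxGenEigenspace a := by
  rw [Module.End.mem_maxGenEigenspace] at h ⊢
  obtain ⟨k, hk⟩ := h
  exact ⟨k + 1, by rw [pow_succ, Module.End.mul_apply, hk]⟩

theorem pres_of_adj {g : Module.End C V} (k : ℕ) : ∀ Z : Module.End C V, (adj g ^ k) Z = 0 →
    Pres g Z := by
  induction k with
  | zero =>
    intro Z hZ a x _
    rw [pow_zero, Module.End.one_apply] at hZ
    rw [hZ, LinearMap.zero_apply]
    exact Submodule.zero_mem _
  | succ k ih =>
    intro Z hZ a x hx
    have h1 := ih (adj g Z) (by rw [← Module.End.mul_apply, ← pow_succ, hZ])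
    obtain ⟨p, hp⟩ := (Module.End.mem_maxGenEigenspace _ _ _).1 hx
    clear hx
    induction p generalizing x with
    | zero =>
      rw [pow_zero, Module.End.one_apply] at hp
      rw [hp, map_zero]
      exact Submodule.zero_mem _
    | succ p ihp =>
      have hx : x ∈ g.maxGenEigenspace a := (Module.End.mem_maxGenEigenspace _ _ _).2 ⟨_, hp⟩
      have h2 := ihp ((g - a • (1 : Module.End C V)) x) (by
        rw [← Module.End.mul_apply, ← pow_succ, hp])
      refine mem_of_sub ?_
      have h3 : (g - a • (1 : Module.End C V)) (Z x) =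
          Z ((g - a • (1 : Module.End C V)) x) + adj g Z x := by
        rw [adj_apply]
        simp only [LinearMap.sub_apply, LinearMap.smul_apply, Module.End.one_apply,
          Module.End.mul_apply, map_sub, map_smul]
        abel
      rw [h3]
      exact Submodule.add_mem _ h2 (h1 a x hx)

theorem adj_of_pres {g Z : Module.End C V} (hZ : Pres g Z) :
    (adj g ^ (2 * finrank C V)) Z = 0 := by
  refine LinearMap.ext fun x => ?_
  refine g_ind g (p := fun x => ((adj g ^ (2 * finrank C V)) Z) x = (0 : Module.End C V) x)
    ?_ ?_ x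
  · intro a x hx
    set A := g - a • (1 : Module.End C V) with hA
    have h1 : adj g = LinearMap.mulLeft C A + -LinearMap.mulRight C A := by
      refine LinearMap.ext fun Y => ?_
      rw [adj_apply, LinearMap.add_apply, LinearMap.neg_apply, LinearMap.mulLeft_apply,
        LinearMap.mulRight_apply, hA, sub_mul, mul_sub, smul_mul_assoc, mul_smul_comm, one_mul,
        mul_one]
      abel
    have hc : Commute (LinearMap.mulLeft C A) (-LinearMap.mulRight C A) :=
      (LinearMap.commute_mulLeft_right (R := C) A A).neg_right
    have hk : ∀ y ∈ g.maxGenEigenspace a, ∀ j, finrank C V ≤ j → (A ^ j) y = 0 := by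
      intro y hy j hj
      rw [Module.End.maxGenEigenspace_eq_genEigenspace_finrank] at hy
      have h2 := Module.End.mem_genEigenspace_nat.1 hy
      rw [LinearMap.mem_ker] at h2
      obtain ⟨i, rfl⟩ := Nat.exists_eq_add_of_le' hj
      rw [pow_add, Module.End.mul_apply]
      have h3 : (A ^ finrank C V) y = 0 := h2
      rw [h3, map_zero]
    have hterm : ∀ j, j ∈ Finset.range (2 * finrank C V + 1) →
        (((LinearMap.mulLeft C A) ^ j * (-LinearMap.mulRight C A) ^ (2 * finrank C V - j) *
          ((2 * finrank C V).choose j : Module.End C (Module.End C V))) Z) x = 0 := by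
      intro j _
      have h2 : ((LinearMap.mulLeft C A) ^ j * (-LinearMap.mulRight C A) ^
          (2 * finrank C V - j) * ((2 * finrank C V).choose j :
            Module.End C (Module.End C V))) Z =
          (((2 * finrank C V).choose j : C) * (-1) ^ (2 * finrank C V - j)) •
            (A ^ j * Z * A ^ (2 * finrank C V - j)) := by
        have h5 : (-LinearMap.mulRight C A : Module.End C (Module.End C V)) =
            (-1 : C) • LinearMap.mulRight C A :=
          LinearMap.ext fun Y => (neg_one_smul C (Y * A)).symm
        rw [h5, smul_pow, Module.End.mul_apply, Module.End.natCast_apply, map_nsmul,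
          Module.End.mul_apply, LinearMap.smul_apply, LinearMap.pow_mulLeft,
          LinearMap.pow_mulRight, LinearMap.mulRight_apply, map_smul, LinearMap.mulLeft_apply,
          ← Nat.cast_smul_eq_nsmul C, smul_smul, mul_assoc]
      rw [h2, LinearMap.smul_apply, Module.End.mul_apply, Module.End.mul_apply]
      by_cases hj : finrank C V ≤ j
      · have hx' : (A ^ (2 * finrank C V - j)) x ∈ g.maxGenEigenspace a := by
          refine Module.End.mapsTo_maxGenEigenspace_of_comm ?_ a hx
          exact ((Commute.refl g).sub_right ((Commute.one_right g).smul_right a)).pow_right _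
        rw [hk _ (hZ a _ hx') j hj, smul_zero]
      · rw [hk x hx _ (by omega), map_zero, map_zero, smul_zero]
    rw [h1, hc.add_pow, LinearMap.sum_apply, LinearMap.sum_apply, LinearMap.zero_apply]
    exact Finset.sum_eq_zero hterm
  · intro x y hx hy
    rw [map_add, hx, hy, LinearMap.zero_apply, LinearMap.zero_apply, LinearMap.zero_apply, add_zero]

end

end Pool.Agent.Q50.LI
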