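import Mathlib
import Pool.Agent.Q50.FP.Core

/-!
# Weights of a space of diagonal operators

Let `t` be a space of operators which are diagonal with respect to a basis of `V`. Every subspace of
`End V` which is stable under the brackets with the elements of `t` is spanned by weight vectors.
-/

set_option linter.unusedSectionVars false

namespace Pool.Agent.Q50.LI

open Module

noncomputable section

variable {C V ι : Type*} [Field C] [CharZero C] [AddCommGroup V] [Module C V] [Fintype ι]
  [DecidableEq ι] (b : Basis ι C V)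

/-- The diagonal entry. -/
def co (i : ι) : Module.End C V →ₗ[C] C where
  toFun T := b.repr (T (b i)) i
  map_add' S T := by rw [LinearMap.add_apply, map_add, Finsupp.add_apply]
  map_smul' r T := by rw [LinearMap.smul_apply, map_smul, Finsupp.smul_apply]; rfl

/-- The operator `T` is diagonal. -/
def Dg (T : Module.End C V) : Prop := ∀ i, ∃ c : C, T (b i) = c • b i

variable {b}

theorem Dg.apply {T : Module.End C V} (hT : Dg b T) (i : ι) : T (b i) = co b i T • b i := by
  obtain ⟨c, hc⟩ := hT i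
  have h1 : co b i T = c := by
    change b.repr (T (b i)) i = c
    rw [hc, map_smul, b.repr_self, Finsupp.smul_apply, Finsupp.single_eq_same, smul_eq_mul, mul_one]
  rw [h1, hc]

theorem Dg.repr {T : Module.End C V} (hT : Dg b T) (v : V) (i : ι) :
    b.repr (T v) i = co b i T * b.repr v i := by
  have h1 : (b.coord i) ∘ₗ T = co b i T • b.coord i := by
    refine b.ext fun j => ?_
    rw [LinearMap.comp_apply, hT.apply, map_smul, LinearMap.smul_apply, b.coord_apply, b.repr_self,
      smul_eq_mul, smul_eq_mul]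
    by_cases h : j = i
    · rw [h]
    · rw [Finsupp.single_eq_of_ne (Ne.symm h), mul_zero, mul_zero]
  exact LinearMap.congr_fun h1 v

/-- The entries of a commutator with a diagonal operator. -/
theorem ent_comm {T : Module.End C V} (hT : Dg b T) (Z : Module.End C V) (i j : ι) :
    b.repr ((T * Z - Z * T) (b j)) i = (co b i T - co b j T) * b.repr (Z (b j)) i := by
  rw [LinearMap.sub_apply, Module.End.mul_apply, Module.End.mul_apply, map_sub, Finsupp.sub_apply,
    hT.repr, hT.apply j, map_smul, map_smul, Finsupp.smul_apply, smul_eq_mul]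
  ring

theorem ext_ent {Z Z' : Module.End C V} (h : ∀ i j, b.repr (Z (b j)) i = b.repr (Z' (b j)) i) :
    Z = Z' := by
  refine b.ext fun j => b.repr.injective (Finsupp.ext fun i => h i j)

theorem exists_ent {Z : Module.End C V} (h : Z ≠ 0) : ∃ i j, b.repr (Z (b j)) i ≠ 0 := by
  by_contra hcon
  push Not at hcon
  exact h (ext_ent fun i j => by rw [hcon, LinearMap.zero_apply, map_zero, Finsupp.zero_apply])

/-- `Z` is a weight vector of weight `α`. -/
def Wt (t : Submodule C (Module.End C V)) (α : Module.End C V → C) (Z : Module.End C V) : Prop :=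
  ∀ T ∈ t, T * Z - Z * T = α T • Z

variable {t : Submodule C (Module.End C V)}

theorem Wt.mul {α β : Module.End C V → C} {Y Z : Module.End C V} (hY : Wt t α Y)
    (hZ : Wt t β Z) : Wt t (fun T => α T + β T) (Y * Z) := by
  intro T hT
  have h1 : T * (Y * Z) - Y * Z * T = (T * Y - Y * T) * Z + Y * (T * Z - Z * T) := by
    noncomm_ring
  rw [h1, hY T hT, hZ T hT, add_smul, smul_mul_assoc, mul_smul_comm]

theorem Wt.br {α β : Module.End C V → C} {Y Z : Module.End C V} (hY : Wt t α Y)
    (hZ : Wt t β Z) : Wt t (fun T => α T + β T) (Y * Z - Z * Y) := by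
  intro T hT
  have h1 := hY.mul hZ T hT
  have h2 := hZ.mul hY T hT
  have h3 : T * (Y * Z - Z * Y) - (Y * Z - Z * Y) * T =
      (T * (Y * Z) - Y * Z * T) - (T * (Z * Y) - Z * Y * T) := by noncomm_ring
  change _ = (α T + β T) • (Y * Z - Z * Y)
  change T * (Y * Z) - Y * Z * T = (α T + β T) • (Y * Z) at h1
  change T * (Z * Y) - Z * Y * T = (β T + α T) • (Z * Y) at h2
  rw [h3, h1, h2, smul_sub, add_comm (β T)]

theorem Wt.congr {α β : Module.End C V → C} {Z : Module.End C V} (hZ : Wt t α Z)
    (h : ∀ T ∈ t, α T = β T) : Wt t β Z := by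
  intro T hT
  rw [hZ T hT, h T hT]

theorem Wt.smul {α : Module.End C V → C} {Z : Module.End C V} (hZ : Wt t α Z) (r : C) :
    Wt t α (r • Z) := by
  intro T hT
  rw [mul_smul_comm, smul_mul_assoc, ← smul_sub, hZ T hT, smul_comm]

theorem Wt.ent {α : Module.End C V → C} {Z : Module.End C V} (hZ : Wt t α Z)
    {T : Module.End C V} (hT : T ∈ t) (hd : Dg b T) {i j : ι} (h : b.repr (Z (b j)) i ≠ 0) :
    α T = co b i T - co b j T := by
  have h1 := ent_comm hd Z i j
  rw [hZ T hT, LinearMap.smul_apply, map_smul, Finsupp.smul_apply, smul_eq_mul] at h1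
  exact mul_right_cancel₀ h h1

/-- The bracket with `T` as an operator. -/
def adj (T : Module.End C V) : Module.End C (Module.End C V) where
  toFun Z := T * Z - Z * T
  map_add' Y Z := by noncomm_ring
  map_smul' r Z := by
    rw [mul_smul_comm, smul_mul_assoc, ← smul_sub]
    rfl

theorem adj_apply (T Z : Module.End C V) : adj T Z = T * Z - Z * T := rfl

theorem ent_aeval {T : Module.End C V} (hT : Dg b T) (p : Polynomial C) (Z : Module.End C V)
    (i j : ι) : b.repr ((Polynomial.aeval (adj T) p Z) (b j)) i =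
      p.eval (co b i T - co b j T) * b.repr (Z (b j)) i := by
  induction p using Polynomial.induction_on generalizing Z with
  | C a =>
    rw [Polynomial.aeval_C, Module.algebraMap_end_apply, LinearMap.smul_apply, map_smul,
      Finsupp.smul_apply, smul_eq_mul, Polynomial.eval_C]
  | add p q hp hq =>
    rw [map_add, LinearMap.add_apply, LinearMap.add_apply, map_add, Finsupp.add_apply, hp, hq,
      Polynomial.eval_add, add_mul]
  | monomial n a ih =>
    rw [pow_succ, ← mul_assoc, map_mul, Polynomial.aeval_X, Module.End.mul_apply, ih, adj_apply,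
      ent_comm hT, Polynomial.eval_mul (p := Polynomial.C a * Polynomial.X ^ n), Polynomial.eval_X]
    ring

theorem aeval_mem {𝔪 : Submodule C (Module.End C V)} {T : Module.End C V}
    (h : ∀ Z ∈ 𝔪, T * Z - Z * T ∈ 𝔪) (p : Polynomial C) {Z : Module.End C V} (hZ : Z ∈ 𝔪) :
    Polynomial.aeval (adj T) p Z ∈ 𝔪 := by
  induction p using Polynomial.induction_on generalizing Z with
  | C a =>
    rw [Polynomial.aeval_C, Module.algebraMap_end_apply]
    exact 𝔪.smul_mem _ hZ
  | add p q hp hq =>
    rw [map_add, LinearMap.add_apply]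
    exact 𝔪.add_mem (hp hZ) (hq hZ)
  | monomial n a ih =>
    rw [pow_succ, ← mul_assoc, map_mul, Polynomial.aeval_X, Module.End.mul_apply]
    exact ih (h Z hZ)

/-- A generic element. -/
theorem exists_gen (t : Submodule C (Module.End C V)) : ∃ T₁ ∈ t, ∀ i j k l : ι,
    co b i T₁ - co b j T₁ = co b k T₁ - co b l T₁ →
      ∀ T ∈ t, co b i T - co b j T = co b k T - co b l T := by
  classical
  let F : (ι × ι) × (ι × ι) → Module.Dual C (Module.End C V) := fun x =>
    (co b x.1.1 - co b x.1.2) - (co b x.2.1 - co b x.2.2)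
  let I := {x : (ι × ι) × (ι × ι) // ∃ T ∈ t, F x T ≠ 0}
  obtain ⟨T₁, hT₁, h⟩ := Module.Dual.exists_forall_mem_ne_zero_of_forall_exists t
    (fun x : I => F x.1) fun x => x.2
  refine ⟨T₁, hT₁, fun i j k l he T hT => ?_⟩
  by_contra hcon
  have h1 := h ⟨((i, j), (k, l)), T, hT, fun h0 => hcon (sub_eq_zero.1 h0)⟩
  exact h1 (sub_eq_zero.2 he)

open Classical in
/-- Interpolation. -/
theorem exists_poly (s : Finset C) (a : C) : ∃ p : Polynomial C, ∀ x ∈ s,
    p.eval x = if x = a then 1 else 0 :=
  ⟨Lagrange.interpolate s id fun x => if x = a then 1 else 0, fun _ hx =>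
    Lagrange.eval_interpolate_at_node (v := id) _ (fun _ _ _ _ h => h) hx⟩

theorem repr_sum {κ : Type*} (s : Finset κ) (z : κ → Module.End C V) (i j : ι) :
    b.repr ((∑ a ∈ s, z a) (b j)) i = ∑ a ∈ s, b.repr (z a (b j)) i := by
  rw [LinearMap.sum_apply, map_sum, Finset.sum_apply']

open Classical in
/-- The components of an operator. -/
theorem exists_comps (ht : ∀ T ∈ t, Dg b T) {𝔪 : Submodule C (Module.End C V)}
    (h𝔪 : ∀ T ∈ t, ∀ Z ∈ 𝔪, T * Z - Z * T ∈ 𝔪) {Z : Module.End C V} (hZ : Z ∈ 𝔪)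
    {T₁ : Module.End C V} (hT₁ : T₁ ∈ t) : ∃ z : C → Module.End C V, (∀ a, z a ∈ 𝔪) ∧
      ∀ a i j, b.repr (z a (b j)) i =
        (if co b i T₁ - co b j T₁ = a then 1 else 0) * b.repr (Z (b j)) i := by
  have hd := ht T₁ hT₁
  obtain ⟨s, hs'⟩ : ∃ s : Finset C, s = (Finset.univ : Finset (ι × ι)).image
    fun x => co b x.1 T₁ - co b x.2 T₁ := ⟨_, rfl⟩
  choose P hP using fun a : C => exists_poly s a
  have hs : ∀ i j : ι, co b i T₁ - co b j T₁ ∈ s := fun i j => by
    rw [hs', Finset.mem_image]
    exact ⟨(i, j), Finset.mem_univ _, rfl⟩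
  refine ⟨fun a => Polynomial.aeval (adj T₁) (P a) Z, fun a => aeval_mem (h𝔪 T₁ hT₁) _ hZ,
    fun a i j => ?_⟩
  rw [ent_aeval hd, hP _ _ (hs i j)]

/-- **Weight decomposition.** -/
theorem decomp (ht : ∀ T ∈ t, Dg b T) {𝔪 : Submodule C (Module.End C V)}
    (h𝔪 : ∀ T ∈ t, ∀ Z ∈ 𝔪, T * Z - Z * T ∈ 𝔪) {Z : Module.End C V} (hZ : Z ∈ 𝔪) :
    ∃ (s : Finset C) (z : C → Module.End C V), Z = ∑ a ∈ s, z a ∧
      ∀ a, z a ∈ 𝔪 ∧ ∃ α : Module.Dual C (Module.End C V), Wt t α (z a) := by
  classical
  obtain ⟨T₁, hT₁, hgen⟩ := exists_gen (b := b) t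
  obtain ⟨z, hz, hz'⟩ := exists_comps ht h𝔪 hZ hT₁
  refine ⟨(Finset.univ : Finset (ι × ι)).image fun x => co b x.1 T₁ - co b x.2 T₁, z, ?_,
    fun a => ⟨hz a, ?_⟩⟩
  · refine ext_ent (b := b) fun i j => ?_
    rw [repr_sum, Finset.sum_congr rfl fun a _ => hz' a i j,
      Finset.sum_eq_single (co b i T₁ - co b j T₁)]
    · rw [if_pos rfl, one_mul]
    · intro a _ ha
      rw [if_neg (Ne.symm ha), zero_mul]
    · intro h
      exact absurd (Finset.mem_image.2 ⟨(i, j), Finset.mem_univ _, rfl⟩) h
  · by_cases hex : ∃ k l, co b k T₁ - co b l T₁ = a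
    · obtain ⟨k, l, hkl⟩ := hex
      refine ⟨co b k - co b l, fun T hT => ?_⟩
      refine ext_ent (b := b) fun i j => ?_
      rw [ent_comm (ht T hT), LinearMap.smul_apply, map_smul, Finsupp.smul_apply, smul_eq_mul,
        hz' a i j]
      by_cases h : co b i T₁ - co b j T₁ = a
      · rw [hgen i j k l (h.trans hkl.symm) T hT]
        rfl
      · rw [if_neg h, zero_mul, mul_zero, mul_zero]
    · push Not at hex
      refine ⟨0, fun T hT => ?_⟩
      have h0 : z a = 0 := ext_ent (b := b) fun i j => by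
        rw [hz' a i j, if_neg (hex i j), zero_mul, LinearMap.zero_apply, map_zero,
          Finsupp.zero_apply]
      rw [h0, mul_zero, zero_mul, sub_zero, smul_zero]

end

end Pool.Agent.Q50.LI
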